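import Pool.Agent.H.MP_08eaf3_pr.EF.Sys

/-!
# Gibbs averages over replicas: elementary rules
All statements are finite sums; `S.av I ω` is the expectation for the product measure `∏ w` on `I → C`.
-/

set_option autoImplicit false

open MeasureTheory Filter

namespace SKC.EF

variable (S : Sys) {I J : Type} [Fintype I] [Fintype J] (ω : S.Ω)

/-- extend a tuple of replicas by one new replica (index `none`) -/
def ext {C : Type} (ρ : I → C) (c : C) : Option I → C := fun o => o.elim c ρ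

/-- total mass one: `∑_ρ ∏ w(ρ_i) = ∏_i ∑_c w(c) = 1` (`Finset.prod_univ_sum` / `Fintype.piFinset_univ`). -/
theorem Sys.av_const (a : ℝ) : S.av I ω (fun _ => a) = a := by
  classical
  have h := Finset.prod_univ_sum (fun _ : I => (Finset.univ : Finset S.C)) (fun _ c => S.w ω c)
  rw [Fintype.piFinset_univ] at h
  simp only [S.w_sum, Finset.prod_const_one] at h
  unfold Sys.av
  rw [← Finset.sum_mul, ← h, one_mul]

theorem Sys.av_add (f g : (I → S.C) → ℝ) : S.av I ω (fun ρ => f ρ + g ρ) = S.av I ω f + S.av I ω g := by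
  unfold Sys.av
  rw [← Finset.sum_add_distrib]
  exact Finset.sum_congr rfl fun ρ _ => mul_add _ _ _

theorem Sys.av_sub (f g : (I → S.C) → ℝ) : S.av I ω (fun ρ => f ρ - g ρ) = S.av I ω f - S.av I ω g := by
  unfold Sys.av
  rw [← Finset.sum_sub_distrib]
  exact Finset.sum_congr rfl fun ρ _ => mul_sub _ _ _

theorem Sys.av_smul (a : ℝ) (f : (I → S.C) → ℝ) : S.av I ω (fun ρ => a * f ρ) = a * S.av I ω f := by
  unfold Sys.av
  rw [Finset.mul_sum]
  exact Finset.sum_congr rfl fun ρ _ => mul_left_comm _ _ _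

theorem Sys.av_sum {κ : Type} (s : Finset κ) (f : κ → (I → S.C) → ℝ) :
    S.av I ω (fun ρ => ∑ k ∈ s, f k ρ) = ∑ k ∈ s, S.av I ω (f k) := by
  unfold Sys.av
  rw [Finset.sum_comm]
  exact Finset.sum_congr rfl fun ρ _ => Finset.mul_sum _ _ _

theorem Sys.av_mono {f g : (I → S.C) → ℝ} (h : ∀ ρ, f ρ ≤ g ρ) : S.av I ω f ≤ S.av I ω g := by
  unfold Sys.av
  exact Finset.sum_le_sum fun ρ _ => mul_le_mul_of_nonneg_left (h ρ)
    (Finset.prod_nonneg fun i _ => S.w_nonneg ω (ρ i))

theorem Sys.abs_av_le {f : (I → S.C) → ℝ} {M : ℝ} (h : ∀ ρ, |f ρ| ≤ M) : |S.av I ω f| ≤ M := by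
  rw [abs_le]
  constructor
  · rw [← Sys.av_const S (I := I) ω (-M)]
    exact Sys.av_mono S ω fun ρ => (abs_le.1 (h ρ)).1
  · rw [← Sys.av_const S (I := I) ω M]
    exact Sys.av_mono S ω fun ρ => (abs_le.1 (h ρ)).2

end SKC.EF
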