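import Pool.Agent.H.MP_08eaf3_pr.EF.Av

/-!
# Gibbs averages over replicas: change of the index set, products, resampling
-/

set_option autoImplicit false

open MeasureTheory Filter

namespace SKC.EF

variable (S : Sys) {I J : Type} [Fintype I] [Fintype J] (ω : S.Ω)

theorem Sys.av_reindex (e : I ≃ J) (f : (I → S.C) → ℝ) :
    S.av J ω (fun ρ => f (fun i => ρ (e i))) = S.av I ω f := by
  classical
  unfold Sys.av
  refine Fintype.sum_equiv (Equiv.arrowCongr e.symm (Equiv.refl S.C)) _ _ fun ρ => ?_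
  have h1 : (∏ i, S.w ω (ρ (e i))) = ∏ j, S.w ω (ρ j) := Equiv.prod_comp e (fun j => S.w ω (ρ j))
  rw [← h1]
  rfl

/-- integrate the last replica first -/
theorem Sys.av_option (f : (Option I → S.C) → ℝ) :
    S.av (Option I) ω f = S.av I ω (fun ρ => ∑ c, S.w ω c * f (ext ρ c)) := by
  classical
  unfold Sys.av
  have h1 : ∑ ρ : Option I → S.C, (∏ i, S.w ω (ρ i)) * f ρ =
      ∑ p : S.C × (I → S.C), (∏ i, S.w ω (p.2 i)) * (S.w ω p.1 * f (ext p.2 p.1)) := by
    refine Fintype.sum_equiv (Equiv.piOptionEquivProd (β := fun _ : Option I => S.C)) _ _ fun ρ => ?_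
    have h2 : ext (fun i => ρ (some i)) (ρ none) = ρ := by
      funext o
      cases o <;> rfl
    change _ = (∏ i, S.w ω (ρ (some i))) * (S.w ω (ρ none) * f (ext (fun i => ρ (some i)) (ρ none)))
    rw [h2, Fintype.prod_option]
    ring
  refine (Eq.trans ?_ h1).trans ?_
  · refine Finset.sum_congr ?_ fun _ _ => rfl
    ext; simp
  · rw [Fintype.sum_prod_type, Finset.sum_comm]
    refine Finset.sum_congr ?_ fun ρ _ => ?_
    · ext; simp
    · rw [Finset.mul_sum]

/-- product rule for disjoint sets of replicas -/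
theorem Sys.av_prod (f : (I → S.C) → ℝ) (g : (J → S.C) → ℝ) :
    S.av (I ⊕ J) ω (fun ρ => f (fun i => ρ (Sum.inl i)) * g (fun j => ρ (Sum.inr j))) = S.av I ω f * S.av J ω g := by
  classical
  have h1 : ∑ ρ : I ⊕ J → S.C, (∏ i, S.w ω (ρ i)) *
        (f (fun i => ρ (Sum.inl i)) * g (fun j => ρ (Sum.inr j))) =
      ∑ p : (I → S.C) × (J → S.C), (∏ i, S.w ω (p.1 i)) * f p.1 * ((∏ j, S.w ω (p.2 j)) * g p.2) := by
    refine Fintype.sum_equiv (Equiv.sumArrowEquivProdArrow I J S.C) _ _ fun ρ => ?_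
    rw [Fintype.prod_sum_type]
    change _ = (∏ i, S.w ω (ρ (Sum.inl i))) * f (fun i => ρ (Sum.inl i)) *
      ((∏ j, S.w ω (ρ (Sum.inr j))) * g (fun j => ρ (Sum.inr j)))
    ring
  unfold Sys.av
  rw [Finset.sum_mul_sum]
  rw [Fintype.sum_prod_type] at h1
  refine Eq.trans ?_ (h1.trans ?_)
  · refine Finset.sum_congr ?_ fun _ _ => rfl
    ext; simp
  · refine Finset.sum_congr ?_ fun _ _ => Finset.sum_congr ?_ fun _ _ => rfl
    · ext; simp
    · ext; simp

/-- marginals: functions of fewer replicas (`J ≃ range j ⊕ complement`, `av_reindex`, `av_prod` with `g = 1`). -/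
theorem Sys.av_marg (j : I → J) (hj : Function.Injective j) (f : (I → S.C) → ℝ) :
    S.av J ω (fun ρ => f (fun i => ρ (j i))) = S.av I ω f := by
  classical
  let e : I ⊕ ((Set.range j)ᶜ : Set J) ≃ J :=
    (Equiv.sumCongr (Equiv.ofInjective j hj) (Equiv.refl _)).trans (Equiv.Set.sumCompl (Set.range j))
  have he : ∀ i, e (Sum.inl i) = j i := fun i => rfl
  have h1 := S.av_reindex ω e (fun σ => f (fun i => σ (Sum.inl i)) * (fun _ => (1 : ℝ)) (fun k => σ (Sum.inr k)))
  have h2 := S.av_prod ω (I := I) (J := ((Set.range j)ᶜ : Set J)) f (fun _ => (1 : ℝ))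
  rw [h2, S.av_const, mul_one] at h1
  simp only [he, mul_one] at h1
  exact h1

open Classical in
/-- resampling replica `i0` does not change the average -/
theorem Sys.av_update (i0 : I) (f : (I → S.C) → ℝ) :
    S.av I ω f = S.av I ω (fun ρ => ∑ c, S.w ω c * f (Function.update ρ i0 c)) := by
  have hW : ∀ ρ : I → S.C, ∏ i, S.w ω (ρ i) = S.w ω (ρ i0) * ∏ i ∈ Finset.univ.erase i0, S.w ω (ρ i) :=
    fun ρ => (Finset.mul_prod_erase _ _ (Finset.mem_univ i0)).symm
  have hWu : ∀ (ρ : I → S.C) (c : S.C), ∏ i ∈ Finset.univ.erase i0, S.w ω (Function.update ρ i0 c i) =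
      ∏ i ∈ Finset.univ.erase i0, S.w ω (ρ i) := by
    intro ρ c
    refine Finset.prod_congr rfl fun i hi => ?_
    rw [Function.update_of_ne (Finset.ne_of_mem_erase hi)]
  have hinv : Function.Involutive (fun p : (I → S.C) × S.C => (Function.update p.1 i0 p.2, p.1 i0)) := by
    rintro ⟨ρ, c⟩
    simp
  have h1 : ∑ p : (I → S.C) × S.C, (∏ i, S.w ω (p.1 i)) * (S.w ω p.2 * f (Function.update p.1 i0 p.2)) =
      ∑ p : (I → S.C) × S.C, (∏ i, S.w ω (p.1 i)) * (S.w ω p.2 * f p.1) := by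
    refine Fintype.sum_equiv hinv.toPerm _ _ ?_
    rintro ⟨ρ, c⟩
    change (∏ i, S.w ω (ρ i)) * (S.w ω c * f (Function.update ρ i0 c)) =
      (∏ i, S.w ω (Function.update ρ i0 c i)) * (S.w ω (ρ i0) * f (Function.update ρ i0 c))
    rw [hW ρ, hW (Function.update ρ i0 c), hWu, Function.update_self]
    ring
  rw [Fintype.sum_prod_type, Fintype.sum_prod_type] at h1
  simp only [← Finset.mul_sum, ← Finset.sum_mul, S.w_sum ω, one_mul] at h1
  unfold Sys.av
  exact h1.symm

theorem Sys.measurable_av {f : S.Ω → (I → S.C) → ℝ} (h : ∀ ρ, Measurable fun ω => f ω ρ) :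
    Measurable fun ω => S.av I ω (f ω) := by
  unfold Sys.av
  refine Finset.measurable_fun_sum _ fun ρ _ => ?_
  exact (Finset.measurable_fun_prod _ fun i _ => S.w_meas (ρ i)).mul (h ρ)

end SKC.EF
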