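import Pool.Agent.H.MP_08eaf3_pr.Sys

/-!
# The output of the parts E and F
-/

set_option autoImplicit false

open MeasureTheory ProbabilityTheory Filter Topology Matrix

namespace SKC.EF

/-- everything that the parts E and F deliver about a family with Ghirlanda-Guerra identities: `T` = traces of the
support of the limit overlap matrix, `Q t` = the matrix of trace `t`, `μ` = law of the trace -/
structure OrdData (F : SKC.Fam) where
  T : Set ℝ
  Q : ℝ → Matrix (Fin 2) (Fin 2) ℝ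
  μ : Measure ℝ
  prob : IsProbabilityMeasure μ
  comp : IsCompact T
  ne : T.Nonempty
  sub : T ⊆ Set.Icc 0 2
  supp1 : μ Tᶜ = 0
  supp2 : ∀ t ∈ T, ∀ ε : ℝ, 0 < ε → 0 < μ (Set.Ioo (t - ε) (t + ε))
  Qcont : Continuous Q
  psd : ∀ t ∈ T, (Q t).PosSemidef
  tr : ∀ t ∈ T, Matrix.trace (Q t) = t
  leD : ∀ t ∈ T, (mat 1 1 F.u - Q t).PosSemidef
  mono : ∀ s ∈ T, ∀ t ∈ T, s ≤ t → (Q t - Q s).PosSemidef
  /-- law of the overlap matrix of two replicas -/
  law2 : ∀ ψ : Matrix (Fin 2) (Fin 2) ℝ → ℝ, Continuous ψ →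
    F.E (n := 2) (fun _ r => ψ (ovM (r 0) (r 1))) = ∫ x, ψ (Q x) ∂μ
  /-- ultrametricity of the traces of the overlap matrices of three replicas -/
  ultra3 : ∀ ε : ℝ, 0 < ε → F.E (n := 3) (fun _ r => if Matrix.trace (ovM (r 0) (r 2)) + ε <
    min (Matrix.trace (ovM (r 0) (r 1))) (Matrix.trace (ovM (r 1) (r 2))) then (1 : ℝ) else 0) = 0
  /-- tree events have positive limit probability -/
  trees : ∀ s ∈ T, ∀ t ∈ T, s ≤ t → ∀ n k : ℕ, 0 < n → 0 < k → ∀ ε : ℝ, 0 < ε →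
    0 < F.E (n := n * k) (fun _ ρ => if ∀ (p p' : Fin n × Fin k) (c c' : Fin 2),
      |ovM (ρ (finProdFinEquiv p)) (ρ (finProdFinEquiv p')) c c' -
        (if p = p' then mat 1 1 F.u else if p.1 = p'.1 then Q t else Q s) c c'| ≤ ε then 1 else 0)

end SKC.EF
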