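import Pool.Agent.H.MP_08eaf3_pr.EF.PKDef

/-!
# Overlap matrices: bounds, symmetry, Gram property
-/

set_option autoImplicit false

open MeasureTheory Filter

namespace SKC.EF

theorem ConvB_abs_sg (b : Bool) : |sg b| = 1 := by
  cases b <;> simp [sg]

/-- `|ov| ≤ 1`, symmetry, Gram property: `∑ x_l x_l' R(ρ_l,ρ_l') = (1/N) ∑_i (∑_{l,c} x_{l,c} ρ_l(i,c))²` -/
theorem ov_abs_le {N : ℕ} (ρ ρ' : Cfg (Fin 2) N) (i j : Fin 2) : |ov ρ ρ' i j| ≤ 1 := by
  unfold ov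
  rw [abs_div, Nat.abs_cast]
  refine div_le_one_of_le₀ ?_ (Nat.cast_nonneg N)
  refine (Finset.abs_sum_le_sum_abs _ _).trans ?_
  have h1 : ∀ s : Fin N, |sg (ρ s i) * sg (ρ' s j)| ≤ 1 := by
    intro s
    rw [abs_mul, ConvB_abs_sg, ConvB_abs_sg, mul_one]
  refine (Finset.sum_le_sum (fun s _ => h1 s)).trans ?_
  simp

theorem ov_symm {N : ℕ} (ρ ρ' : Cfg (Fin 2) N) (i j : Fin 2) : ov ρ ρ' i j = ov ρ' ρ j i := by
  unfold ov
  congr 1
  exact Finset.sum_congr rfl (fun s _ => mul_comm _ _)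

theorem ov_psd {N : ℕ} (I : Type) [Fintype I] (ρ : I → Cfg (Fin 2) N) (x : I → Fin 2 → ℝ) :
    0 ≤ ∑ l, ∑ l', ∑ i, ∑ j, x l i * x l' j * ov (ρ l) (ρ l') i j := by
  have h1 : (∑ l, ∑ l', ∑ i, ∑ j, x l i * x l' j * ov (ρ l) (ρ l') i j)
      = (∑ s : Fin N, (∑ l, ∑ i, x l i * sg (ρ l s i)) ^ 2) / N := by
    have h2 : ∀ s : Fin N, (∑ l, ∑ i, x l i * sg (ρ l s i)) ^ 2
        = ∑ l, ∑ l', ∑ i, ∑ j, x l i * x l' j * (sg (ρ l s i) * sg (ρ l' s j)) := by
      intro s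
      rw [sq, Finset.sum_mul_sum]
      refine Finset.sum_congr rfl (fun l _ => Finset.sum_congr rfl (fun l' _ => ?_))
      rw [Finset.sum_mul_sum]
      refine Finset.sum_congr rfl (fun i _ => Finset.sum_congr rfl (fun j _ => ?_))
      ring
    have h3 : ∀ l l' i j, x l i * x l' j * ov (ρ l) (ρ l') i j
        = (∑ s : Fin N, x l i * x l' j * (sg (ρ l s i) * sg (ρ l' s j))) / N := by
      intro l l' i j
      unfold ov
      rw [← Finset.mul_sum]
      ring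
    simp_rw [h2, h3, ← Finset.sum_div]
    congr 1
    symm
    refine Finset.sum_comm.trans (Finset.sum_congr rfl (fun l _ => ?_))
    refine Finset.sum_comm.trans (Finset.sum_congr rfl (fun l' _ => ?_))
    refine Finset.sum_comm.trans (Finset.sum_congr rfl (fun i _ => ?_))
    exact Finset.sum_comm
  rw [h1]
  exact div_nonneg (Finset.sum_nonneg (fun s _ => sq_nonneg _)) (Nat.cast_nonneg N)

end SKC.EF
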