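import Pool.Agent.H.MP_08eaf3_pr.EF.ConvA
import Pool.Agent.H.MP_08eaf3_pr.EF.ConvB
import Pool.Agent.H.MP_08eaf3_pr.Sys.Ul1
import Pool.Agent.H.MP_08eaf3_pr.Sys.Ov

/-!
# The overlap kernel of a family is a `PK`
-/

set_option autoImplicit false

open MeasureTheory Filter

namespace SKC.EF

/-- for `N > 0` the matrix of self-overlaps is close to `mat 1 1 u` iff its entry `01` is close to `u` -/
theorem Conv_iff {N : ℕ} (hN : 0 < N) (ρ : Cfg (Fin 2) N) (u ε : ℝ) (hε : 0 < ε) :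
    (¬ ∀ i j, |ov ρ ρ i j - mat 1 1 u i j| ≤ ε) ↔ ε < |ovM ρ ρ 0 1 - u| := by
  have h0 : ov ρ ρ 0 0 = 1 := ovM_self hN ρ 0
  have h1 : ov ρ ρ 1 1 = 1 := ovM_self hN ρ 1
  have h2 : ov ρ ρ 1 0 = ov ρ ρ 0 1 := ovM_swap ρ ρ 1 0
  have e : ovM ρ ρ 0 1 = ov ρ ρ 0 1 := rfl
  rw [e, ← not_le, not_iff_not]
  constructor
  · intro h
    exact h 0 1
  · intro h i j
    have m00 : mat 1 1 u 0 0 = 1 := rfl
    have m01 : mat 1 1 u 0 1 = u := rfl
    have m10 : mat 1 1 u 1 0 = u := rfl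
    have m11 : mat 1 1 u 1 1 = 1 := rfl
    fin_cases i <;> fin_cases j
    · show |ov ρ ρ 0 0 - mat 1 1 u 0 0| ≤ ε
      rw [h0, m00, sub_self, abs_zero]
      exact hε.le
    · show |ov ρ ρ 0 1 - mat 1 1 u 0 1| ≤ ε
      rw [m01]
      exact h
    · show |ov ρ ρ 1 0 - mat 1 1 u 1 0| ≤ ε
      rw [h2, m10]
      exact h
    · show |ov ρ ρ 1 1 - mat 1 1 u 1 1| ≤ ε
      rw [h1, m11, sub_self, abs_zero]
      exact hε.le

/-- for `N ≥ 1` the diagonal entries are `1`; `N → ∞` along the ultrafilter; the off-diagonal one by `IsGG.self` -/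
theorem diag_toR (F : SKC.Fam) (hF : F.IsGG) (ε : ℝ) (hε : 0 < ε) :
    (toR F).Pr (Fin 1) (fun n ρ => ¬ ∀ i j, |RK F n (ρ 0) (ρ 0) i j - mat 1 1 F.u i j| ≤ ε) = 0 := by
  classical
  unfold RFam.Pr
  rw [L_toR F (n := 1)]
  unfold SKC.Fam.E
  apply ul_eq
  refine (hF.self ε hε).congr' ?_
  have hev : ∀ᶠ i in (F.U : Filter F.I), 0 < F.Nn i := hF.hN.eventually_gt_atTop 0
  filter_upwards [hev] with i hi
  congr 1
  funext r
  have key := Conv_iff hi (r 0) F.u ε hε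
  by_cases h : ε < |ovM (r 0) (r 0) 0 1 - F.u|
  · rw [if_pos h, if_pos]
    exact key.mpr h
  · rw [if_neg h, if_neg]
    exact fun h' => h (key.mp h')

theorem PK_toR (F : SKC.Fam) (hF : F.IsGG) : PK (toR F) (RK F) F.u where
  bd := fun _ c c' i j => ov_abs_le c c' i j
  symm := fun _ c c' i j => ov_symm c c' i j
  psd := fun _ I _ ρ x => ov_psd I ρ x
  diag := diag_toR F hF
  gg := GG_toR F hF

end SKC.EF
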