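import Pool.Agent.H.MP_08eaf3_pr.EF.PKDef

/-!
# From `SKC.Fam` to `RFam`: limit functional and Ghirlanda-Guerra identities
-/

set_option autoImplicit false

open MeasureTheory Filter

namespace SKC.EF

/-- a replica system as a `Sys` -/
noncomputable def toSys {N : ℕ} (S : RS N) : Sys where
  Ω := S.X
  C := Cfg (Fin 2) N
  mΩ := S.ms
  P := S.mu
  prob := S.pr
  w := S.G
  w_nonneg := S.nonneg
  w_sum := S.sum_one
  w_meas := S.meas

/-- a family as an `RFam` -/
noncomputable def toR (F : SKC.Fam) : RFam where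
  ι := F.I
  U := F.U
  S := fun i => toSys (F.S i)

/-- the overlap kernel -/
noncomputable def RK (F : SKC.Fam) : Ker (toR F) Mt := fun _ c c' => ov c c'

theorem ConvA_univ {α : Type} (i1 i2 : Fintype α) : @Finset.univ α i1 = @Finset.univ α i2 := by
  rw [Subsingleton.elim i1 i2]

/-- the averages agree -/
theorem ConvA_ex {N n : ℕ} (S : RS N) (f : (Fin n → Cfg (Fin 2) N) → ℝ) :
    (toSys S).ex (Fin n) (fun _ => f) = S.av f := by
  refine integral_congr_ae (Filter.Eventually.of_forall fun ω => ?_)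
  exact Finset.sum_congr (ConvA_univ _ _) (fun _ _ => rfl)

/-- both sides are the same integral of the same finite sum (only the instances of the finite type `Fin n → Cfg` may differ) -/
theorem L_toR (F : SKC.Fam) {n : ℕ} (f : ∀ i, (Fin n → Cfg (Fin 2) (F.Nn i)) → ℝ) :
    (toR F).L (Fin n) f = F.E f := by
  have h : (fun i => (toSys (F.S i)).ex (Fin n) (fun _ => f i)) = fun i => (F.S i).av (f i) := by
    funext i
    exact ConvA_ex (F.S i) (f i)
  show limUnder (F.U : Filter F.I) (fun i => (toSys (F.S i)).ex (Fin n) (fun _ => f i)) =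
    limUnder (F.U : Filter F.I) (fun i => (F.S i).av (f i))
  rw [h]

/-- convergence of the averages of bounded functions -/
theorem ConvA_tendsto (F : SKC.Fam) {n : ℕ} (f : ∀ i, (Fin n → Cfg (Fin 2) (F.Nn i)) → ℝ) (M : ℝ)
    (hf : ∀ i r, |f i r| ≤ M) :
    Tendsto (fun i => (F.S i).av (f i)) (F.U : Filter F.I) (nhds ((toR F).L (Fin n) f)) := by
  have h1 : Tendsto (fun i => (toSys (F.S i)).ex (Fin n) (fun _ => f i)) (F.U : Filter F.I)
      (nhds ((toR F).L (Fin n) f)) :=
    (toR F).tendsto_L (I := Fin n) (F := f) (M := M) hf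
  have h : (fun i => (toSys (F.S i)).ex (Fin n) (fun _ => f i)) = fun i => (F.S i).av (f i) := by
    funext i
    exact ConvA_ex (F.S i) (f i)
  rwa [h] at h1

theorem ConvA_ov_le {N : ℕ} (ρ ρ' : Cfg (Fin 2) N) (c c' : Fin 2) : |ov ρ ρ' c c'| ≤ 1 := by
  unfold ov
  rw [abs_div, Nat.abs_cast]
  refine div_le_one_of_le₀ ?_ (Nat.cast_nonneg _)
  refine (Finset.abs_sum_le_sum_abs _ _).trans ?_
  have h1 : ∀ a b : Bool, |sg a * sg b| ≤ 1 := by
    intro a b
    cases a <;> cases b <;> simp [sg]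
  calc ∑ i, |sg (ρ i c) * sg (ρ' i c')| ≤ ∑ _i : Fin N, (1 : ℝ) := Finset.sum_le_sum fun i _ => h1 _ _
    _ = N := by simp

/-- a continuous function of the overlap is bounded -/
theorem ConvA_bd (ψ : ℝ × ℝ × ℝ → ℝ) (hψ : Continuous ψ) :
    ∃ B : ℝ, ∀ (N : ℕ) (ρ ρ' : Cfg (Fin 2) N), |ψ (tv (ov ρ ρ'))| ≤ B := by
  obtain ⟨B, hB⟩ := (isCompact_closedBall (0 : ℝ × ℝ × ℝ) 2).exists_bound_of_continuousOn
    hψ.continuousOn
  refine ⟨B, fun N ρ ρ' => hB _ ?_⟩
  rw [mem_closedBall_zero_iff]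
  have h1 := ConvA_ov_le ρ ρ'
  unfold tv
  rw [Prod.norm_def, Prod.norm_def]
  refine max_le ?_ (max_le ?_ ?_)
  · exact (h1 0 0).trans one_le_two
  · exact (h1 1 1).trans one_le_two
  · refine (norm_add_le _ _).trans ?_
    have h2 : ‖ov ρ ρ' 0 1‖ ≤ 1 := h1 0 1
    have h3 : ‖ov ρ ρ' 1 0‖ ≤ 1 := h1 1 0
    linarith

/-- from `IsGG.gg` (functions bounded by `1`, index types `Fin n`) to `GG`: scale by `M` (`M = 0` trivial), reindex with `I ≃ Fin (card I)`
(`Fintype.equivFin`) and `Option I ≃ Fin (card I + 1)` by `RFam.L_marg`; the limit of `gg` is the limit of each term. -/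
theorem GG_toR (F : SKC.Fam) (hF : F.IsGG) (ψ : ℝ × ℝ × ℝ → ℝ) (hψ : Continuous ψ) :
    GG (toR F) (fun n c c' => ψ (tv (RK F n c c'))) := by
  intro I _ i0 G M hG
  obtain ⟨B, hB⟩ := ConvA_bd ψ hψ
  set K : Ker (toR F) ℝ := fun n c c' => ψ (tv (RK F n c c')) with hK
  have hKB : ∀ n c c', |K n c c'| ≤ B := fun n c c' => hB _ c c'
  have hB0 : 0 ≤ B := (abs_nonneg _).trans (hB 0 (fun _ _ => true) (fun _ _ => true))
  set n := Fintype.card I with hn
  set e : I ≃ Fin n := Fintype.equivFin I with he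
  set c : ℝ := (|M| + 1)⁻¹ with hc
  have hc0 : 0 < c := by positivity
  have hM1 : ∀ i r, |G i r| ≤ |M| + 1 := fun i r => (hG i r).trans ((le_abs_self M).trans (by linarith))
  -- the test function on `Fin n`
  let f : ∀ i, (Fin n → Cfg (Fin 2) (F.Nn i)) → ℝ := fun i r => c * G i (fun j => r (e j))
  have hf : ∀ i r, |f i r| ≤ 1 := by
    intro i r
    show |c * G i (fun j => r (e j))| ≤ 1
    rw [abs_mul, abs_of_pos hc0]
    calc c * |G i (fun j => r (e j))| ≤ c * (|M| + 1) := mul_le_mul_of_nonneg_left (hM1 _ _) hc0.le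
      _ = 1 := inv_mul_cancel₀ (by positivity)
  have h0 := hF.gg n (e i0) f hf ψ hψ
  -- limits of the terms
  let f1 : ∀ i, (Fin (n + 1) → Cfg (Fin 2) (F.Nn i)) → ℝ := fun i r =>
    f i (fun j => r j.castSucc) * ψ (Tv (ovM (r (e i0).castSucc) (r (Fin.last n))))
  let f2 : ∀ i, (Fin 2 → Cfg (Fin 2) (F.Nn i)) → ℝ := fun i r => ψ (Tv (ovM (r 0) (r 1)))
  let f3 : Fin n → ∀ i, (Fin n → Cfg (Fin 2) (F.Nn i)) → ℝ := fun j i r =>
    f i r * ψ (Tv (ovM (r (e i0)) (r j)))
  have hψB : ∀ (N : ℕ) (ρ ρ' : Cfg (Fin 2) N), |ψ (Tv (ovM ρ ρ'))| ≤ B := hB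
  have t1 := ConvA_tendsto F f1 (1 * B) (fun i r => by
    show |f i (fun j => r j.castSucc) * ψ (Tv (ovM (r (e i0).castSucc) (r (Fin.last n))))| ≤ 1 * B
    rw [abs_mul]
    exact mul_le_mul (hf i (fun j => r j.castSucc)) (hψB _ _ _) (abs_nonneg _) zero_le_one)
  have t2 := ConvA_tendsto F f2 B (fun i r => hψB _ _ _)
  have t0 := ConvA_tendsto F f 1 hf
  have t3 := fun j => ConvA_tendsto F (f3 j) (1 * B) (fun i r => by
    show |f i r * ψ (Tv (ovM (r (e i0)) (r j)))| ≤ 1 * B
    rw [abs_mul]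
    exact mul_le_mul (hf i r) (hψB _ _ _) (abs_nonneg _) zero_le_one)
  have t4 : Tendsto (fun i => (F.S i).gg (f i) (e i0) ψ) F.U
      (nhds ((n : ℝ) * (toR F).L (Fin (n + 1)) f1 - (toR F).L (Fin n) f * (toR F).L (Fin 2) f2
        - ∑ j ∈ Finset.univ.erase (e i0), (toR F).L (Fin n) (f3 j))) :=
    ((t1.const_mul (n : ℝ)).sub (t0.mul t2)).sub (tendsto_finsetSum _ fun j _ => t3 j)
  have key := tendsto_nhds_unique t4 h0
  -- transport
  have s0 : (toR F).L (Fin n) f = c * (toR F).L I G := by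
    rw [← (toR F).L_marg (fun j => e j) e.injective G]
    exact (toR F).L_smul c (F := fun i (r : Fin n → Cfg (Fin 2) (F.Nn i)) => G i (fun j => r (e j)))
      (M := |M| + 1) (fun i r => hM1 _ _)
  have s1 : (toR F).L (Fin (n + 1)) f1 = c * (toR F).L (Option I) (G.up * K.at (some i0) none) := by
    let e' : Option I → Fin (n + 1) := fun o => o.elim (Fin.last n) (fun j => (e j).castSucc)
    have he' : Function.Injective e' := by
      intro a b hab
      cases a with
      | none =>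
        cases b with
        | none => rfl
        | some b => exact absurd hab.symm (Fin.castSucc_lt_last (e b)).ne
      | some a =>
        cases b with
        | none => exact absurd hab (Fin.castSucc_lt_last (e a)).ne
        | some b =>
          have h1 : (e a).castSucc = (e b).castSucc := hab
          rw [Fin.castSucc_inj] at h1
          rw [e.injective h1]
    rw [← (toR F).L_marg e' he' (G.up * K.at (some i0) none)]
    refine Eq.trans ?_ ((toR F).L_smul c (F := fun i (r : Fin (n + 1) → Cfg (Fin 2) (F.Nn i)) =>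
      (G.up * K.at (some i0) none : Obs (toR F) (Option I)) i (fun o => r (e' o)))
      (M := (|M| + 1) * B) (fun i r => by
        show |G i (fun j => r (e' (some j))) * K i (r (e' (some i0))) (r (e' none))| ≤ (|M| + 1) * B
        rw [abs_mul]
        exact mul_le_mul (hM1 _ _) (hKB _ _ _) (abs_nonneg _) (by positivity)))
    refine congrArg ((toR F).L (Fin (n + 1))) ?_
    funext i r
    show c * G i (fun j => r (e j).castSucc) * ψ (Tv (ovM (r (e i0).castSucc) (r (Fin.last n)))) =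
      c * (G i (fun j => r (e j).castSucc) * ψ (Tv (ovM (r (e i0).castSucc) (r (Fin.last n)))))
    rw [mul_assoc]
  have s2 : (toR F).L (Fin 2) f2 = (toR F).L (Fin 2) (K.at 0 1) := rfl
  have s3 : ∀ i : I, (toR F).L (Fin n) (f3 (e i)) = c * (toR F).L I (G * K.at i0 i) := by
    intro i
    rw [← (toR F).L_marg (fun j => e j) e.injective (G * K.at i0 i)]
    refine Eq.trans ?_ ((toR F).L_smul c (F := fun k (r : Fin n → Cfg (Fin 2) (F.Nn k)) =>
      (G * K.at i0 i : Obs (toR F) I) k (fun j => r (e j)))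
      (M := (|M| + 1) * B) (fun k r => by
        show |G k (fun j => r (e j)) * K k (r (e i0)) (r (e i))| ≤ (|M| + 1) * B
        rw [abs_mul]
        exact mul_le_mul (hM1 _ _) (hKB _ _ _) (abs_nonneg _) (by positivity)))
    refine congrArg ((toR F).L (Fin n)) ?_
    funext k r
    show c * G k (fun j => r (e j)) * ψ (Tv (ovM (r (e i0)) (r (e i)))) =
      c * (G k (fun j => r (e j)) * ψ (Tv (ovM (r (e i0)) (r (e i)))))
    rw [mul_assoc]
  have s4 : ∑ j ∈ Finset.univ.erase (e i0), (toR F).L (Fin n) (f3 j) =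
      c * ∑ i ∈ (@Finset.erase I (Classical.decEq I) Finset.univ i0), (toR F).L I (G * K.at i0 i) := by
    rw [Finset.mul_sum]
    symm
    refine Finset.sum_equiv e (fun i => ?_) (fun i _ => (s3 i).symm)
    simp
  rw [s0, s1, s2, s4] at key
  have hc1 : c ≠ 0 := hc0.ne'
  have h5 : c * ((n : ℝ) * (toR F).L (Option I) (G.up * K.at (some i0) none)) =
      c * ((toR F).L I G * (toR F).L (Fin 2) (K.at 0 1) +
        ∑ i ∈ (@Finset.erase I (Classical.decEq I) Finset.univ i0), (toR F).L I (G * K.at i0 i)) := by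
    linear_combination key
  have h6 := mul_left_cancel₀ hc1 h5
  exact h6

end SKC.EF
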