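import Pool.Agent.H.MP_08eaf3_pr.EF.TiltD

/-!
# Part E3: the key estimate
-/

set_option autoImplicit false

open MeasureTheory Filter

namespace SKC.EF

variable (S : Sys) {I : Type} [Fintype I] (i0 : I) (K : S.C → S.C → ℝ)

/-- lower bound for `Z`. -/
theorem TiltE_Z_ge (hK : ∀ c c', 0 ≤ K c c' ∧ K c c' ≤ 1) {t : ℝ} (ω : S.Ω) (SS : Finset S.C)
    (c : S.C) :
    (Real.exp t - 1) * (∑ c' ∈ SS, S.w ω c' - ∑ c' ∈ SS with K c c' < 1, S.w ω c') ≤ S.Z K t ω c := by
  have hsplit := Finset.sum_filter_add_sum_filter_not SS (fun c' => K c c' < 1) (fun c' => S.w ω c')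
  have h1 : ∑ c' ∈ SS, S.w ω c' - ∑ c' ∈ SS with K c c' < 1, S.w ω c'
      = ∑ c' ∈ SS with ¬ K c c' < 1, S.w ω c' := by linarith
  rw [h1, Finset.mul_sum]
  unfold Sys.Z
  have h2 : ∑ c' ∈ SS with ¬ K c c' < 1, (Real.exp t - 1) * S.w ω c'
      ≤ ∑ c' ∈ SS with ¬ K c c' < 1, S.w ω c' * Real.exp (t * K c c') := by
    apply Finset.sum_le_sum
    intro c' hc'
    have hc2 : K c c' = 1 := le_antisymm (hK c c').2 (not_lt.mp (Finset.mem_filter.mp hc').2)
    rw [hc2, mul_one]
    have := S.w_nonneg ω c'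
    nlinarith
  refine h2.trans ?_
  apply Finset.sum_le_sum_of_subset_of_nonneg (Finset.subset_univ _)
  intro c' _ _
  exact mul_nonneg (S.w_nonneg ω c') (Real.exp_pos _).le

/-- one-replica inequality. `w` = total weight of the set `SS`, `x c` = weight of the `c'` in `SS` with `K c c' < 1`.
For `c` in `SS`: `Z(c) ≥ max(1, (e^t-1)(w - x c))`. If `w ≤ e^{-t}` the left side is `≤ w ≤ e^{-t} ≤ 2/(e^t-1)`; if `w > e^{-t}`
then `1/Z ≤ 2/((e^t-1)w) + 2 x c/w` and `1/w < e^t`. -/
theorem Sys.sum_div_Z_le (hK : ∀ c c', 0 ≤ K c c' ∧ K c c' ≤ 1) {t : ℝ} (ht : 0 < t) (ω : S.Ω) (SS : Finset S.C) :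
    ∑ c ∈ SS, S.w ω c / S.Z K t ω c
      ≤ 2 / (Real.exp t - 1)
        + 2 * Real.exp t * ∑ c ∈ SS, S.w ω c * ∑ c' ∈ SS with K c c' < 1, S.w ω c' := by
  have hE : 1 < Real.exp t := Real.one_lt_exp_iff.mpr ht
  have hE1 : 0 < Real.exp t - 1 := by linarith
  have hE0 : 0 < Real.exp t := Real.exp_pos t
  have hw : ∀ c, 0 ≤ S.w ω c := fun c => S.w_nonneg ω c
  have hZ1 : ∀ c, 1 ≤ S.Z K t ω c := fun c => S.one_le_Z K (fun a b => (hK a b).1) ht.le ω c
  have hx0 : ∀ c, 0 ≤ ∑ c' ∈ SS with K c c' < 1, S.w ω c' := fun c => Finset.sum_nonneg (fun c' _ => hw c')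
  have hR : 0 ≤ ∑ c ∈ SS, S.w ω c * ∑ c' ∈ SS with K c c' < 1, S.w ω c' :=
    Finset.sum_nonneg (fun c _ => mul_nonneg (hw c) (hx0 c))
  set W : ℝ := ∑ c ∈ SS, S.w ω c with hWdef
  rcases le_or_gt W (Real.exp (-t)) with hW | hW
  · have h1 : ∑ c ∈ SS, S.w ω c / S.Z K t ω c ≤ W := by
      apply Finset.sum_le_sum
      intro c _
      exact div_le_self (hw c) (hZ1 c)
    have h2 : Real.exp (-t) ≤ 2 / (Real.exp t - 1) := by
      rw [Real.exp_neg, le_div_iff₀ hE1, inv_mul_le_iff₀ hE0]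
      linarith
    have h3 : 0 ≤ 2 * Real.exp t * ∑ c ∈ SS, S.w ω c * ∑ c' ∈ SS with K c c' < 1, S.w ω c' := by positivity
    linarith
  · have hW0 : 0 < W := (Real.exp_pos _).trans hW
    have hpt : ∀ c ∈ SS, S.w ω c / S.Z K t ω c
        ≤ S.w ω c * (2 / ((Real.exp t - 1) * W)) + 2 / W * (S.w ω c * ∑ c' ∈ SS with K c c' < 1, S.w ω c') := by
      intro c _
      have hZ0 : 0 < S.Z K t ω c := lt_of_lt_of_le one_pos (hZ1 c)
      have hZge := TiltE_Z_ge S K hK (t := t) ω SS c
      rw [← hWdef] at hZge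
      have key : 1 / S.Z K t ω c ≤ 2 / ((Real.exp t - 1) * W) + 2 / W * ∑ c' ∈ SS with K c c' < 1, S.w ω c' := by
        rcases le_or_gt (W / 2) (∑ c' ∈ SS with K c c' < 1, S.w ω c') with hx | hx
        · have h1 : 1 / S.Z K t ω c ≤ 1 := by
            rw [div_le_one hZ0]; exact hZ1 c
          have h2 : 1 ≤ 2 / W * ∑ c' ∈ SS with K c c' < 1, S.w ω c' := by
            rw [div_mul_eq_mul_div, le_div_iff₀ hW0]
            linarith
          have h3 : 0 ≤ 2 / ((Real.exp t - 1) * W) := by positivity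
          linarith
        · have h1 : (Real.exp t - 1) * W / 2 ≤ S.Z K t ω c := by
            refine le_trans ?_ hZge
            have : W / 2 ≤ W - ∑ c' ∈ SS with K c c' < 1, S.w ω c' := by linarith
            calc (Real.exp t - 1) * W / 2 = (Real.exp t - 1) * (W / 2) := by ring
              _ ≤ _ := mul_le_mul_of_nonneg_left this hE1.le
          have h2 : 1 / S.Z K t ω c ≤ 2 / ((Real.exp t - 1) * W) := by
            rw [div_le_div_iff₀ hZ0 (mul_pos hE1 hW0)]
            linarith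
          have h3 : 0 ≤ 2 / W * ∑ c' ∈ SS with K c c' < 1, S.w ω c' := mul_nonneg (by positivity) (hx0 c)
          linarith
      calc S.w ω c / S.Z K t ω c = S.w ω c * (1 / S.Z K t ω c) := by ring
        _ ≤ S.w ω c * (2 / ((Real.exp t - 1) * W) + 2 / W * ∑ c' ∈ SS with K c c' < 1, S.w ω c') :=
          mul_le_mul_of_nonneg_left key (hw c)
        _ = _ := by ring
    have hsum := Finset.sum_le_sum hpt
    rw [Finset.sum_add_distrib, ← Finset.sum_mul, ← Finset.mul_sum, ← hWdef] at hsum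
    have e1 : W * (2 / ((Real.exp t - 1) * W)) = 2 / (Real.exp t - 1) := by
      field_simp
    have e2 : 2 / W ≤ 2 * Real.exp t := by
      rw [div_le_iff₀ hW0]
      have : 1 ≤ Real.exp t * W := by
        have := mul_le_mul_of_nonneg_left hW.le hE0.le
        rwa [← Real.exp_add, add_neg_cancel, Real.exp_zero] at this
      linarith
    have e3 := mul_le_mul_of_nonneg_right e2 hR
    linarith

open Classical in
/-- pointwise form of E3 -/
theorem TiltE_av_le (hK : ∀ c c', 0 ≤ K c c' ∧ K c c' ≤ 1) {γ t : ℝ} (ht : 0 < t)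
    (G : (I → S.C) → Prop) (B : (Option I → S.C) → Prop)
    (h0 : ∀ ρ, G ρ → ∀ l, l ≠ i0 → K (ρ i0) (ρ l) = 0)
    (hB : ∀ ρ c, G ρ → G (Function.update ρ i0 c) → K (ρ i0) c < 1 → B (ext ρ c)) (ω : S.Ω) :
    S.av I ω (S.tint i0 K γ t (fun ρ => if G ρ then 1 else 0) ω)
      ≤ Real.exp (t * γ) * (2 / (Real.exp t - 1)
        + 2 * Real.exp t * S.av (Option I) ω (fun ρ => if B ρ then 1 else 0)) := by
  have hw : ∀ c, 0 ≤ S.w ω c := fun c => S.w_nonneg ω c
  have hZ1 : ∀ c, 1 ≤ S.Z K t ω c := fun c => S.one_le_Z K (fun a b => (hK a b).1) ht.le ω c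
  have step1 : S.av I ω (S.tint i0 K γ t (fun ρ => if G ρ then 1 else 0) ω)
      ≤ S.av I ω (fun ρ => Real.exp (t * γ) * (if G ρ then 1 / S.Z K t ω (ρ i0) else 0)) := by
    apply Sys.av_mono
    intro ρ
    unfold Sys.tint
    by_cases hG : G ρ
    · simp only [hG, if_true, one_mul]
      have hs : ∑ l ∈ Finset.univ.erase i0, K (ρ i0) (ρ l) = 0 := by
        apply Finset.sum_eq_zero
        intro l hl
        exact h0 ρ hG l (Finset.ne_of_mem_erase hl)
      rw [hs, zero_add, mul_one_div]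
      have hZ := hZ1 (ρ i0)
      have hZ0 : 0 < S.Z K t ω (ρ i0) := lt_of_lt_of_le one_pos hZ
      apply div_le_div_of_nonneg_left (Real.exp_pos _).le hZ0
      have : Nonempty I := ⟨i0⟩
      have hcard : Fintype.card I ≠ 0 := Fintype.card_ne_zero
      exact le_self_pow₀ hZ hcard
    · simp [hG]
  refine step1.trans ?_
  rw [Sys.av_smul]
  apply mul_le_mul_of_nonneg_left _ (Real.exp_pos _).le
  rw [Sys.av_update S ω i0, Sys.av_option S ω, Sys.av_update S ω i0 (fun ρ => ∑ c, S.w ω c * (if B (ext ρ c) then (1:ℝ) else 0))]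
  have e : 2 / (Real.exp t - 1) + 2 * Real.exp t * S.av I ω (fun ρ => ∑ c, S.w ω c *
        (fun ρ => ∑ c, S.w ω c * (if B (ext ρ c) then (1:ℝ) else 0)) (Function.update ρ i0 c))
      = S.av I ω (fun ρ => 2 / (Real.exp t - 1) + 2 * Real.exp t * ∑ c, S.w ω c *
        (fun ρ => ∑ c, S.w ω c * (if B (ext ρ c) then (1:ℝ) else 0)) (Function.update ρ i0 c)) := by
    rw [Sys.av_add S ω (fun _ => 2 / (Real.exp t - 1)), Sys.av_const, Sys.av_smul]
  rw [e]
  apply Sys.av_mono
  intro ρ
  have hmain := S.sum_div_Z_le K hK ht ω (Finset.univ.filter (fun c => G (Function.update ρ i0 c)))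
  have l1 : ∑ c, S.w ω c * (if G (Function.update ρ i0 c) then 1 / S.Z K t ω ((Function.update ρ i0 c) i0) else 0)
      = ∑ c ∈ Finset.univ.filter (fun c => G (Function.update ρ i0 c)), S.w ω c / S.Z K t ω c := by
    rw [Finset.sum_filter]
    apply Finset.sum_congr rfl
    intro c _
    by_cases hG : G (Function.update ρ i0 c)
    · simp only [hG, if_true, Function.update_self]
      ring
    · simp [hG]
  refine (le_of_eq l1).trans (hmain.trans ?_)
  have l2 : ∑ c ∈ Finset.univ.filter (fun c => G (Function.update ρ i0 c)), S.w ω c *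
      ∑ c' ∈ (Finset.univ.filter (fun c => G (Function.update ρ i0 c))) with K c c' < 1, S.w ω c'
      ≤ ∑ c, S.w ω c * ∑ c', S.w ω c' * (if B (ext (Function.update ρ i0 c) c') then (1:ℝ) else 0) := by
    refine le_trans (Finset.sum_le_sum (g := fun c => S.w ω c * ∑ c', S.w ω c' *
      (if B (ext (Function.update ρ i0 c) c') then (1:ℝ) else 0)) ?_) ?_
    · intro c hc
      have hGc : G (Function.update ρ i0 c) := (Finset.mem_filter.mp hc).2
      apply mul_le_mul_of_nonneg_left _ (hw c)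
      refine le_trans (Finset.sum_le_sum (g := fun c' => S.w ω c' *
        (if B (ext (Function.update ρ i0 c) c') then (1:ℝ) else 0)) ?_) ?_
      · intro c' hc'
        have h1 := Finset.mem_filter.mp hc'
        have hGc' : G (Function.update ρ i0 c') := (Finset.mem_filter.mp h1.1).2
        have hb : B (ext (Function.update ρ i0 c) c') := by
          apply hB (Function.update ρ i0 c) c' hGc
          · rw [Function.update_idem]; exact hGc'
          · rw [Function.update_self]; exact h1.2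
        simp [hb]
      · apply Finset.sum_le_sum_of_subset_of_nonneg (Finset.subset_univ _)
        intro c' _ _
        apply mul_nonneg (hw c')
        split_ifs <;> norm_num
    · apply Finset.sum_le_sum_of_subset_of_nonneg (Finset.subset_univ _)
      intro c _ _
      apply mul_nonneg (hw c)
      apply Finset.sum_nonneg
      intro c' _
      apply mul_nonneg (hw c')
      split_ifs <;> norm_num
  have hE0 : 0 ≤ 2 * Real.exp t := by positivity
  have := mul_le_mul_of_nonneg_left l2 hE0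
  linarith

open Classical in
/-- E3, finite level. `G` = event of the replicas `I`, `B` = bad event of the replicas `Option I`. On `G` the tilt only acts
through the denominator; if `ρ` and `ρ` with `ρ_{i0}` replaced by `c` are in `G` then `K(ρ_{i0}, c) = 1` or the extended tuple is bad.
(`tint ≤ exp(tγ) 1_G / Z`, resample replica `i0` by `Sys.av_update`, apply `sum_div_Z_le` with
`SS = {c : update ρ i0 c ∈ G}`, integrate.) -/
theorem Sys.tex_ind_le (hK : ∀ c c', 0 ≤ K c c' ∧ K c c' ≤ 1) {γ t : ℝ} (ht : 0 < t) (hγ : 0 ≤ γ) (hγ1 : γ ≤ 1)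
    (G : (I → S.C) → Prop) (B : (Option I → S.C) → Prop)
    (h0 : ∀ ρ, G ρ → ∀ l, l ≠ i0 → K (ρ i0) (ρ l) = 0)
    (hB : ∀ ρ c, G ρ → G (Function.update ρ i0 c) → K (ρ i0) c < 1 → B (ext ρ c)) :
    S.tex I i0 K γ t (fun ρ => if G ρ then 1 else 0)
      ≤ Real.exp (t * γ) * (2 / (Real.exp t - 1)
        + 2 * Real.exp t * S.ex (Option I) (fun _ ρ => if B ρ then 1 else 0)) := by
  have hf : ∀ ρ : I → S.C, |(if G ρ then (1:ℝ) else 0)| ≤ 1 := by
    intro ρ; split_ifs <;> norm_num
  have hn1 := (S.nice_tint i0 K hK hγ hγ1 t hf).integrable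
  have hn2 := (S.nice_ind B).integrable
  unfold Sys.tex
  unfold Sys.ex
  have hint : Integrable (fun ω => Real.exp (t * γ) * (2 / (Real.exp t - 1)
        + 2 * Real.exp t * S.av (Option I) ω (fun ρ => if B ρ then 1 else 0))) S.P :=
    ((integrable_const _).add (hn2.const_mul _)).const_mul _
  have hmono := integral_mono hn1 hint (fun ω => TiltE_av_le S i0 K hK ht G B h0 hB ω)
  refine hmono.trans (le_of_eq ?_)
  rw [integral_const_mul, integral_add (integrable_const _) (hn2.const_mul _), integral_const_mul]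
  simp

end SKC.EF
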