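import Pool.Agent.H.MP_08eaf3_pr.EF.SuppB
import Pool.Agent.H.MP_08eaf3_pr.EF.TiltE

/-!
# Part E3: duplication of a replica in the support
-/

set_option autoImplicit false

open MeasureTheory Filter

namespace SKC.EF

/-- Ghirlanda-Guerra identities for all continuous `[0,1]`-valued functions of the kernel -/
def GGC (A : RFam) (K : Ker A ℝ) : Prop :=
  ∀ φ : ℝ → ℝ, Continuous φ → (∀ x, 0 ≤ φ x ∧ φ x ≤ 1) → GG A (fun n c c' => φ (K n c c'))

/-- the event of a near duplicate of replica `i0` -/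
def DupEv {A : RFam} (K : Ker A ℝ) {I : Type} (a : I → I → ℝ) (i0 : I) (s ε : ℝ) :
    ∀ n, (Option I → (A.S n).C) → Prop := fun n ρ =>
  (∀ l l', |K n (ρ (some l)) (ρ (some l')) - a l l'| ≤ ε) ∧
  (∀ l, l ≠ i0 → |K n (ρ none) (ρ (some l)) - a i0 l| ≤ ε) ∧
  |K n (ρ none) (ρ none) - a i0 i0| ≤ ε ∧ K n (ρ (some i0)) (ρ none) ≤ s + ε

variable {A : RFam} {I : Type} [Fintype I]

/-- the cut-off function -/
noncomputable def Dup_phi (s ε : ℝ) (x : ℝ) : ℝ := max 0 (min 1 ((x - (s + ε / 2)) / (ε / 2)))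

theorem Dup_phi_cont (s ε : ℝ) : Continuous (Dup_phi s ε) := by
  unfold Dup_phi
  fun_prop

theorem Dup_phi_mem (s ε x : ℝ) : 0 ≤ Dup_phi s ε x ∧ Dup_phi s ε x ≤ 1 :=
  ⟨le_max_left _ _, max_le zero_le_one (min_le_left _ _)⟩

theorem Dup_phi_zero {s ε x : ℝ} (hε : 0 < ε) (h : x ≤ s + ε / 2) : Dup_phi s ε x = 0 := by
  unfold Dup_phi
  refine max_eq_left (le_trans (min_le_right _ _) ?_)
  exact div_nonpos_of_nonpos_of_nonneg (by linarith) (by positivity)

theorem Dup_phi_lt {s ε x : ℝ} (hε : 0 < ε) (h : Dup_phi s ε x < 1) : x ≤ s + ε := by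
  by_contra hcon
  push Not at hcon
  have h1 : (1 : ℝ) ≤ (x - (s + ε / 2)) / (ε / 2) := by
    rw [le_div_iff₀ (by positivity)]
    linarith
  unfold Dup_phi at h
  rw [min_eq_left h1] at h
  exact absurd (le_max_right (0 : ℝ) 1) (not_le.2 h)

theorem Dup_tendsto {γ : ℝ} (h1 : γ < 1) :
    Tendsto (fun t : ℝ => Real.exp (t * γ) * (2 / (Real.exp t - 1))) atTop (nhds 0) := by
  have h2 : Tendsto (fun t : ℝ => 4 * Real.exp (-((1 - γ) * t))) atTop (nhds 0) := by
    have h3 : Tendsto (fun t : ℝ => (1 - γ) * t) atTop atTop :=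
      tendsto_id.const_mul_atTop (by linarith)
    have h4 := (Real.tendsto_exp_neg_atTop_nhds_zero.comp h3).const_mul 4
    simpa using h4
  refine squeeze_zero' (g := fun t : ℝ => 4 * Real.exp (-((1 - γ) * t))) ?_ ?_ h2
  · filter_upwards [eventually_gt_atTop (0 : ℝ)] with t ht
    have h5 : 0 < Real.exp t - 1 := by
      have := Real.one_lt_exp_iff.2 ht
      linarith
    positivity
  · filter_upwards [eventually_ge_atTop (1 : ℝ)] with t ht
    have h5 : 2 ≤ Real.exp t := by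
      have := Real.add_one_le_exp t
      linarith
    have h6 : 0 < Real.exp t - 1 := by linarith
    have h7 : 2 / (Real.exp t - 1) ≤ 4 * Real.exp (-t) := by
      rw [div_le_iff₀ h6, Real.exp_neg]
      have h8 : 0 < Real.exp t := Real.exp_pos t
      have h9 : 4 * (Real.exp t)⁻¹ * (Real.exp t - 1) = 4 - 4 * (Real.exp t)⁻¹ := by
        field_simp
      rw [h9]
      have h10 : (Real.exp t)⁻¹ ≤ 1 / 2 := by
        rw [inv_le_comm₀ h8 (by norm_num)]
        linarith
      linarith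
    calc Real.exp (t * γ) * (2 / (Real.exp t - 1)) ≤ Real.exp (t * γ) * (4 * Real.exp (-t)) :=
          mul_le_mul_of_nonneg_left h7 (Real.exp_pos _).le
      _ = 4 * Real.exp (-((1 - γ) * t)) := by
          rw [show -((1 - γ) * t) = t * γ + -t by ring, Real.exp_add]
          ring

/-- the average of the cut-off kernel is smaller than one -/
theorem Dup_gamma_lt {K : Ker A ℝ} {a : I → I → ℝ} (ha : Supp A K I a)
    (i0 l1 : I) (hl : l1 ≠ i0) (s : ℝ) (hs : ∀ l, l ≠ i0 → a i0 l ≤ s) (ε : ℝ) (hε : 0 < ε) :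
    A.L (Fin 2) (Ker.at (A := A) (fun n c c' => Dup_phi s ε (K n c c')) 0 1) < 1 := by
  classical
  set K' : Ker A ℝ := fun n c c' => Dup_phi s ε (K n c c') with hK'
  have hinj : Function.Injective (fun i : Fin 2 => if i = 0 then i0 else l1) := by
    intro i j hij
    fin_cases i <;> fin_cases j <;> simp_all
  have h1 := (ha.marg _ hinj) (ε / 4) (by positivity)
  have hB : Obs.Bd (A := A) (K'.at (0 : Fin 2) 1) 1 := by
    intro n ρ
    have := Dup_phi_mem s ε (K n (ρ 0) (ρ 1))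
    show |Dup_phi s ε (K n (ρ 0) (ρ 1))| ≤ 1
    rw [abs_of_nonneg this.1]
    exact this.2
  have hc : Obs.Bd (A := A) (I := Fin 2) (fun _ _ => (1 : ℝ)) 1 := fun n ρ => by simp
  have h2 := A.L_sub hc hB
  rw [A.L_const] at h2
  have hB2 : Obs.Bd (A := A) (I := Fin 2) ((fun _ _ => (1 : ℝ)) - K'.at (0 : Fin 2) 1) 1 := by
    intro n ρ
    have := Dup_phi_mem s ε (K n (ρ 0) (ρ 1))
    show |1 - Dup_phi s ε (K n (ρ 0) (ρ 1))| ≤ 1
    rw [abs_of_nonneg (by linarith [this.2])]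
    linarith [this.1]
  have h3 := A.le_L_of_le_on (a := 1) hB2
    (fun n ρ => by
      have := Dup_phi_mem s ε (K n (ρ 0) (ρ 1))
      show 0 ≤ 1 - Dup_phi s ε (K n (ρ 0) (ρ 1))
      linarith [this.2])
    (fun n ρ => ∀ l l' : Fin 2, dist (K n (ρ l) (ρ l'))
      (a ((fun i : Fin 2 => if i = 0 then i0 else l1) l) ((fun i : Fin 2 => if i = 0 then i0 else l1) l')) ≤ ε / 4)
    (fun n ρ h => by
      have h4 := h 0 1
      simp only [if_true, if_false, one_ne_zero] at h4
      rw [Real.dist_eq] at h4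
      have h5 := (abs_le.1 h4).2
      have h6 := hs l1 hl
      show 1 ≤ 1 - Dup_phi s ε (K n (ρ 0) (ρ 1))
      rw [Dup_phi_zero hε (by linarith)]
      simp) zero_le_one
  rw [h2] at h3
  linarith

/-- E3. `φ = 0` on `x ≤ s + ε/2`, `= 1` on `x ≥ s + ε`; `G` = all overlaps of the replicas `I` within `ε/4` of `a`.
If the probability of `DupEv` were `0`, then `Pr G = texL t 1_G ≤ exp(tγ) 2/(exp t - 1)` for all `t > 0` by `RFam.texL_eq`, `Sys.tex_ind_le`;
`γ = L φ(K_01) < 1` because `a i0 l1 ≤ s`; so `Pr G = 0`, contradicting `Supp`. -/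
theorem Supp.dup_pos {K : Ker A ℝ} {M : ℝ} (hK : IsGram A K M) (hG : GGC A K) {a : I → I → ℝ} (ha : Supp A K I a)
    (i0 l1 : I) (hl : l1 ≠ i0) (s : ℝ) (hs : ∀ l, l ≠ i0 → a i0 l ≤ s) (ε : ℝ) (hε : 0 < ε) :
    0 < A.Pr (Option I) (DupEv K a i0 s ε) := by
  classical
  by_contra hcon
  have hB0 : A.Pr (Option I) (DupEv K a i0 s ε) = 0 :=
    le_antisymm (not_lt.1 hcon) (A.Pr_nonneg _)
  set K' : Ker A ℝ := fun n c c' => Dup_phi s ε (K n c c') with hK'
  have hGG : GG A K' := hG _ (Dup_phi_cont s ε) (Dup_phi_mem s ε)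
  have hb : ∀ n c c', 0 ≤ K' n c c' ∧ K' n c c' ≤ 1 := fun n c c' => Dup_phi_mem s ε _
  set γ : ℝ := A.L (Fin 2) (K'.at 0 1) with hγ
  have hγ1 : γ < 1 := Dup_gamma_lt ha i0 l1 hl s hs ε hε
  have hγ0 : 0 ≤ γ := by
    refine A.L_nonneg (M := 1) ?_ ?_
    · intro n ρ
      have := hb n (ρ 0) (ρ 1)
      show |K' n (ρ 0) (ρ 1)| ≤ 1
      rw [abs_of_nonneg this.1]
      exact this.2
    · intro n ρ
      exact (hb n (ρ 0) (ρ 1)).1
  obtain ⟨G, hGd, hGpos⟩ : ∃ G : ∀ n, (I → (A.S n).C) → Prop,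
      (∀ n ρ, G n ρ → ∀ l l', |K n (ρ l) (ρ l') - a l l'| ≤ ε / 4) ∧ 0 < A.Pr I G :=
    ⟨fun n ρ => ∀ l l', dist (K n (ρ l) (ρ l')) (a l l') ≤ ε / 4, fun n ρ h => h, ha (ε / 4) (by positivity)⟩
  have hFB : Obs.Bd (A := A) (I := I) (fun n ρ => if G n ρ then 1 else 0) 1 := by
    intro n ρ
    show |(if G n ρ then (1 : ℝ) else 0)| ≤ 1
    split_ifs <;> simp
  have hFB2 : Obs.Bd (A := A) (I := Option I) (fun n ρ => if DupEv K a i0 s ε n ρ then 1 else 0) 1 := by
    intro n ρ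
    show |(if DupEv K a i0 s ε n ρ then (1 : ℝ) else 0)| ≤ 1
    split_ifs <;> simp
  have key : ∀ t : ℝ, 0 < t → A.Pr I G ≤ Real.exp (t * γ) * (2 / (Real.exp t - 1)) := by
    intro t ht
    have h1 : ∀ n, (A.S n).tex I i0 (K' n) γ t (fun ρ => if G n ρ then 1 else 0)
        ≤ Real.exp (t * γ) * (2 / (Real.exp t - 1)
          + 2 * Real.exp t * (A.S n).ex (Option I) (fun _ ρ => if DupEv K a i0 s ε n ρ then 1 else 0)) := by
      intro n
      refine (A.S n).tex_ind_le i0 (K' n) (hb n) ht hγ0 hγ1.le (G n) (DupEv K a i0 s ε n) ?_ ?_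
      · intro ρ hρ l hl
        have h2 := hGd n _ hρ i0 l
        have h3 := (abs_le.1 h2).2
        have h4 := hs l hl
        exact Dup_phi_zero hε (by linarith)
      · intro ρ c h2 h3 h4
        refine ⟨fun l l' => ?_, fun l hl => ?_, ?_, ?_⟩
        · have := hGd n _ h2 l l'
          exact this.trans (by linarith)
        · have := hGd n _ h3 i0 l
          rw [Function.update_self, Function.update_of_ne hl] at this
          exact this.trans (by linarith)
        · have := hGd n _ h3 i0 i0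
          rw [Function.update_self] at this
          exact this.trans (by linarith)
        · exact Dup_phi_lt hε h4
    have h2 := A.tendsto_texL i0 K' hb hγ0 hγ1.le t hFB
    have h3 := A.tendsto_L hFB2
    have h4 : A.L (Option I) (fun n ρ => if DupEv K a i0 s ε n ρ then 1 else 0) = 0 := hB0
    rw [h4] at h3
    have h5 : Tendsto (fun n => Real.exp (t * γ) * (2 / (Real.exp t - 1)
          + 2 * Real.exp t * (A.S n).ex (Option I) (fun _ ρ => if DupEv K a i0 s ε n ρ then 1 else 0)))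
        (A.U : Filter A.ι) (nhds (Real.exp (t * γ) * (2 / (Real.exp t - 1) + 2 * Real.exp t * 0))) :=
      ((h3.const_mul (2 * Real.exp t)).const_add (2 / (Real.exp t - 1))).const_mul (Real.exp (t * γ))
    rw [mul_zero, add_zero] at h5
    have h6 := le_of_tendsto_of_tendsto' h2 h5 h1
    have h7 := A.texL_eq K' hb hGG ht.le i0 hFB
    rw [h7] at h6
    exact h6
  have hlim := ge_of_tendsto (Dup_tendsto hγ1) (by
    filter_upwards [eventually_gt_atTop (0 : ℝ)] with t ht
    exact key t ht)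
  linarith

/-- the limit version (`Supp.exists_mem_all`) -/
theorem Supp.dup {K : Ker A ℝ} {M : ℝ} (hK : IsGram A K M) (hG : GGC A K) {a : I → I → ℝ} (ha : Supp A K I a)
    (i0 l1 : I) (hl : l1 ≠ i0) (s : ℝ) (hs : ∀ l, l ≠ i0 → a i0 l ≤ s) :
    ∃ a' : Option I → Option I → ℝ, Supp A K (Option I) a' ∧ (∀ l l', a' (some l) (some l') = a l l') ∧
      (∀ l, l ≠ i0 → a' none (some l) = a i0 l) ∧ a' none none = a i0 i0 ∧ a' (some i0) none ≤ s := by
  set X : ℝ → Set (Option I → Option I → ℝ) := fun ε => {b |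
    (∀ l l', |b (some l) (some l') - a l l'| ≤ ε) ∧ (∀ l, l ≠ i0 → |b none (some l) - a i0 l| ≤ ε) ∧
    |b none none - a i0 i0| ≤ ε ∧ b (some i0) none ≤ s + ε} with hX
  have hcont : ∀ o o' : Option I, Continuous fun b : Option I → Option I → ℝ => b o o' := fun o o' =>
    (continuous_apply o').comp (continuous_apply o)
  have hcl : ∀ ε, IsClosed (X ε) := by
    intro ε
    have e : X ε = (⋂ l, ⋂ l', {b | |b (some l) (some l') - a l l'| ≤ ε}) ∩
        ((⋂ l, ⋂ (_ : l ≠ i0), {b | |b none (some l) - a i0 l| ≤ ε}) ∩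
        ({b | |b none none - a i0 i0| ≤ ε} ∩ {b | b (some i0) none ≤ s + ε})) := by
      ext b
      simp [hX]
    rw [e]
    refine (isClosed_iInter fun l => isClosed_iInter fun l' => ?_).inter
      ((isClosed_iInter fun l => isClosed_iInter fun _ => ?_).inter (IsClosed.inter ?_ ?_))
    · exact isClosed_le ((hcont _ _).sub continuous_const).abs continuous_const
    · exact isClosed_le ((hcont _ _).sub continuous_const).abs continuous_const
    · exact isClosed_le ((hcont _ _).sub continuous_const).abs continuous_const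
    · exact isClosed_le (hcont _ _) continuous_const
  obtain ⟨a', h1, h2⟩ := Supp.exists_mem_all (A := A) (I := Option I) (T := K) (isCompact_Icc (a := -M) (b := M))
    (fun n c c' => abs_le.1 (hK.abs_le n c c')) (X := X) (fun ε _ => hcl ε)
    (fun ε ε' _ hεε' b hb => ⟨fun l l' => (hb.1 l l').trans hεε', fun l hl => (hb.2.1 l hl).trans hεε',
      hb.2.2.1.trans hεε', hb.2.2.2.trans (by linarith)⟩)
    (fun ε hε => lt_of_lt_of_le (Supp.dup_pos hK hG ha i0 l1 hl s hs ε hε) (A.Pr_mono fun n ρ h => h))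
  have hz : ∀ x : ℝ, (∀ ε : ℝ, 0 < ε → |x| ≤ ε) → x = 0 := by
    intro x hx
    have : |x| ≤ 0 := le_of_forall_pos_le_add fun ε hε => by simpa using hx ε hε
    exact abs_eq_zero.1 (le_antisymm this (abs_nonneg x))
  refine ⟨a', h1, fun l l' => ?_, fun l hl => ?_, ?_, ?_⟩
  · exact sub_eq_zero.1 (hz _ fun ε hε => (h2 ε hε).1 l l')
  · exact sub_eq_zero.1 (hz _ fun ε hε => (h2 ε hε).2.1 l hl)
  · exact sub_eq_zero.1 (hz _ fun ε hε => (h2 ε hε).2.2.1)
  · exact le_of_forall_pos_le_add fun ε hε => (h2 ε hε).2.2.2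

end SKC.EF
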