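import Pool.Agent.H.MP_08eaf3_pr.EF.SuppB
import Pool.Agent.H.MP_08eaf3_pr.EF.TiltE
import Pool.Agent.H.MP_08eaf3_pr.EF.Dup

/-!
# Part E3, general form: duplication of a replica in the support of a rich kernel
`R` = kernel with values in a metric space, `κ ∘ R` = scalar kernel with Ghirlanda-Guerra identities. Same proof as `Supp.dup_pos`, `Supp.dup`.
-/

set_option autoImplicit false

open MeasureTheory Filter

namespace SKC.EF

/-- the event of a near duplicate of replica `i0` for the kernel `R` -/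
def DupEvG {A : RFam} {E : Type} [MetricSpace E] (R : Ker A E) (κ : E → ℝ) {I : Type} (a : I → I → E) (i0 : I) (s ε : ℝ) :
    ∀ n, (Option I → (A.S n).C) → Prop := fun n ρ =>
  (∀ l l', dist (R n (ρ (some l)) (ρ (some l'))) (a l l') ≤ ε) ∧
  (∀ l, l ≠ i0 → dist (R n (ρ none) (ρ (some l))) (a i0 l) ≤ ε) ∧
  (∀ l, l ≠ i0 → dist (R n (ρ (some l)) (ρ none)) (a l i0) ≤ ε) ∧
  dist (R n (ρ none) (ρ none)) (a i0 i0) ≤ ε ∧ κ (R n (ρ (some i0)) (ρ none)) ≤ s + ε

variable {A : RFam} {I : Type} [Fintype I] {E : Type} [MetricSpace E]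

/-- uniform continuity of `κ` at the finitely many points `a i0 l` -/
theorem DupG_delta {κ : E → ℝ} (hκ : Continuous κ) (a : I → I → E) (i0 : I) {ε : ℝ} (hε : 0 < ε) :
    ∃ δ : ℝ, 0 < δ ∧ δ ≤ ε ∧ ∀ l, ∀ x : E, dist x (a i0 l) ≤ δ → |κ x - κ (a i0 l)| ≤ ε / 4 := by
  have h1 : ∀ l : I, ∀ᶠ δ in nhdsWithin (0 : ℝ) (Set.Ioi 0), ∀ x : E, dist x (a i0 l) ≤ δ →
      |κ x - κ (a i0 l)| ≤ ε / 4 := by
    intro l
    obtain ⟨δ, hδ, hd⟩ := Metric.continuous_iff.1 hκ (a i0 l) (ε / 4) (by positivity)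
    filter_upwards [Ioo_mem_nhdsGT hδ] with δ' hδ' x hx
    have := (hd x (hx.trans_lt hδ'.2)).le
    rwa [Real.dist_eq] at this
  have h2 : ∀ᶠ δ in nhdsWithin (0 : ℝ) (Set.Ioi 0), ∀ l : I, ∀ x : E, dist x (a i0 l) ≤ δ →
      |κ x - κ (a i0 l)| ≤ ε / 4 := eventually_all.2 h1
  obtain ⟨δ, hδ, hδ0⟩ := (h2.and (Ioo_mem_nhdsGT hε)).exists
  exact ⟨δ, hδ0.1, hδ0.2.le, hδ⟩

/-- E3. Choose `δ ≤ ε` such that `dist x (a i0 l) ≤ δ` implies `|κ x - κ (a i0 l)| ≤ ε/4` for all `l` (finitely many points).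
`φ = 0` on `x ≤ s + ε/2`, `= 1` on `x ≥ s + ε`; `G` = all entries of the array of the replicas `I` within `δ` of `a`.
If the probability of `DupEvG` were `0`, then `Pr G = texL t 1_G ≤ exp(tγ) 2/(exp t - 1)` for all `t > 0` by `RFam.texL_eq`, `Sys.tex_ind_le`
(kernel `φ ∘ κ ∘ R`, `B = DupEvG`); `γ = L φ(K_01) < 1` because `κ (a i0 l1) ≤ s`; so `Pr G = 0`, contradicting `Supp`. -/
theorem Supp.dup_pos_gen {R : Ker A E} {κ : E → ℝ} (hκ : Continuous κ)
    (hG : ∀ φ : ℝ → ℝ, Continuous φ → (∀ x, 0 ≤ φ x ∧ φ x ≤ 1) → GG A (fun n c c' => φ (κ (R n c c'))))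
    {a : I → I → E} (ha : Supp A R I a)
    (i0 l1 : I) (hl : l1 ≠ i0) (s : ℝ) (hs : ∀ l, l ≠ i0 → κ (a i0 l) ≤ s) (ε : ℝ) (hε : 0 < ε) :
    0 < A.Pr (Option I) (DupEvG R κ a i0 s ε) := by
  classical
  by_contra hcon
  have hB0 : A.Pr (Option I) (DupEvG R κ a i0 s ε) = 0 :=
    le_antisymm (not_lt.1 hcon) (A.Pr_nonneg _)
  set K' : Ker A ℝ := fun n c c' => Dup_phi s ε (κ (R n c c')) with hK'
  have hGG : GG A K' := hG _ (Dup_phi_cont s ε) (Dup_phi_mem s ε)
  have hb : ∀ n c c', 0 ≤ K' n c c' ∧ K' n c c' ≤ 1 := fun n c c' => Dup_phi_mem s ε _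
  set γ : ℝ := A.L (Fin 2) (K'.at 0 1) with hγ
  have hγ1 : γ < 1 := Dup_gamma_lt (ha.map hκ) i0 l1 hl s hs ε hε
  have hγ0 : 0 ≤ γ := by
    refine A.L_nonneg (M := 1) ?_ ?_
    · intro n ρ
      have := hb n (ρ 0) (ρ 1)
      show |K' n (ρ 0) (ρ 1)| ≤ 1
      rw [abs_of_nonneg this.1]
      exact this.2
    · intro n ρ
      exact (hb n (ρ 0) (ρ 1)).1
  obtain ⟨δ, hδ0, hδε, hδ⟩ := DupG_delta hκ a i0 hε
  obtain ⟨G, hGd, hGpos⟩ : ∃ G : ∀ n, (I → (A.S n).C) → Prop,
      (∀ n ρ, G n ρ → ∀ l l', dist (R n (ρ l) (ρ l')) (a l l') ≤ δ) ∧ 0 < A.Pr I G :=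
    ⟨fun n ρ => ∀ l l', dist (R n (ρ l) (ρ l')) (a l l') ≤ δ, fun n ρ h => h, ha δ hδ0⟩
  have hFB : Obs.Bd (A := A) (I := I) (fun n ρ => if G n ρ then 1 else 0) 1 := by
    intro n ρ
    show |(if G n ρ then (1 : ℝ) else 0)| ≤ 1
    split_ifs <;> simp
  have hFB2 : Obs.Bd (A := A) (I := Option I) (fun n ρ => if DupEvG R κ a i0 s ε n ρ then 1 else 0) 1 := by
    intro n ρ
    show |(if DupEvG R κ a i0 s ε n ρ then (1 : ℝ) else 0)| ≤ 1
    split_ifs <;> simp
  have key : ∀ t : ℝ, 0 < t → A.Pr I G ≤ Real.exp (t * γ) * (2 / (Real.exp t - 1)) := by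
    intro t ht
    have h1 : ∀ n, (A.S n).tex I i0 (K' n) γ t (fun ρ => if G n ρ then 1 else 0)
        ≤ Real.exp (t * γ) * (2 / (Real.exp t - 1)
          + 2 * Real.exp t * (A.S n).ex (Option I) (fun _ ρ => if DupEvG R κ a i0 s ε n ρ then 1 else 0)) := by
      intro n
      refine (A.S n).tex_ind_le i0 (K' n) (hb n) ht hγ0 hγ1.le (G n) (DupEvG R κ a i0 s ε n) ?_ ?_
      · intro ρ hρ l hl
        have h2 := hδ l _ (hGd n _ hρ i0 l)
        have h3 := (abs_le.1 h2).2
        have h4 := hs l hl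
        exact Dup_phi_zero hε (by linarith)
      · intro ρ c h2 h3 h4
        refine ⟨fun l l' => ?_, fun l hl => ?_, fun l hl => ?_, ?_, ?_⟩
        · exact (hGd n _ h2 l l').trans hδε
        · have := hGd n _ h3 i0 l
          rw [Function.update_self, Function.update_of_ne hl] at this
          exact this.trans hδε
        · have := hGd n _ h3 l i0
          rw [Function.update_self, Function.update_of_ne hl] at this
          exact this.trans hδε
        · have := hGd n _ h3 i0 i0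
          rw [Function.update_self] at this
          exact this.trans hδε
        · exact Dup_phi_lt hε h4
    have h2 := A.tendsto_texL i0 K' hb hγ0 hγ1.le t hFB
    have h3 := A.tendsto_L hFB2
    have h4 : A.L (Option I) (fun n ρ => if DupEvG R κ a i0 s ε n ρ then 1 else 0) = 0 := hB0
    rw [h4] at h3
    have h5 : Tendsto (fun n => Real.exp (t * γ) * (2 / (Real.exp t - 1)
          + 2 * Real.exp t * (A.S n).ex (Option I) (fun _ ρ => if DupEvG R κ a i0 s ε n ρ then 1 else 0)))
        (A.U : Filter A.ι) (nhds (Real.exp (t * γ) * (2 / (Real.exp t - 1) + 2 * Real.exp t * 0))) :=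
      ((h3.const_mul (2 * Real.exp t)).const_add (2 / (Real.exp t - 1))).const_mul (Real.exp (t * γ))
    rw [mul_zero, add_zero] at h5
    have h6 := le_of_tendsto_of_tendsto' h2 h5 h1
    have h7 := A.texL_eq K' hb hGG ht.le i0 hFB
    rw [h7] at h6
    exact h6
  have hlim := ge_of_tendsto (Dup_tendsto hγ1) (by
    filter_upwards [eventually_gt_atTop (0 : ℝ)] with t ht
    exact key t ht)
  linarith

/-- the limit version (`Supp.exists_mem_all`) -/
theorem Supp.dup_gen {R : Ker A E} {𝒦 : Set E} (h𝒦 : IsCompact 𝒦) (hR : ∀ n c c', R n c c' ∈ 𝒦)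
    {κ : E → ℝ} (hκ : Continuous κ)
    (hG : ∀ φ : ℝ → ℝ, Continuous φ → (∀ x, 0 ≤ φ x ∧ φ x ≤ 1) → GG A (fun n c c' => φ (κ (R n c c'))))
    {a : I → I → E} (ha : Supp A R I a)
    (i0 l1 : I) (hl : l1 ≠ i0) (s : ℝ) (hs : ∀ l, l ≠ i0 → κ (a i0 l) ≤ s) :
    ∃ a' : Option I → Option I → E, Supp A R (Option I) a' ∧ (∀ l l', a' (some l) (some l') = a l l') ∧
      (∀ l, l ≠ i0 → a' none (some l) = a i0 l) ∧ (∀ l, l ≠ i0 → a' (some l) none = a l i0) ∧
      a' none none = a i0 i0 ∧ κ (a' (some i0) none) ≤ s := by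
  set X : ℝ → Set (Option I → Option I → E) := fun ε => {b |
    (∀ l l', dist (b (some l) (some l')) (a l l') ≤ ε) ∧ (∀ l, l ≠ i0 → dist (b none (some l)) (a i0 l) ≤ ε) ∧
    (∀ l, l ≠ i0 → dist (b (some l) none) (a l i0) ≤ ε) ∧
    dist (b none none) (a i0 i0) ≤ ε ∧ κ (b (some i0) none) ≤ s + ε} with hX
  have hcont : ∀ o o' : Option I, Continuous fun b : Option I → Option I → E => b o o' := fun o o' =>
    (continuous_apply o').comp (continuous_apply o)
  have hcl : ∀ ε, IsClosed (X ε) := by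
    intro ε
    have e : X ε = (⋂ l, ⋂ l', {b | dist (b (some l) (some l')) (a l l') ≤ ε}) ∩
        ((⋂ l, ⋂ (_ : l ≠ i0), {b | dist (b none (some l)) (a i0 l) ≤ ε}) ∩
        ((⋂ l, ⋂ (_ : l ≠ i0), {b | dist (b (some l) none) (a l i0) ≤ ε}) ∩
        ({b | dist (b none none) (a i0 i0) ≤ ε} ∩ {b | κ (b (some i0) none) ≤ s + ε}))) := by
      ext b
      simp [hX]
    rw [e]
    refine (isClosed_iInter fun l => isClosed_iInter fun l' => ?_).inter
      ((isClosed_iInter fun l => isClosed_iInter fun _ => ?_).inter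
      ((isClosed_iInter fun l => isClosed_iInter fun _ => ?_).inter (IsClosed.inter ?_ ?_)))
    · exact isClosed_le ((hcont _ _).dist continuous_const) continuous_const
    · exact isClosed_le ((hcont _ _).dist continuous_const) continuous_const
    · exact isClosed_le ((hcont _ _).dist continuous_const) continuous_const
    · exact isClosed_le ((hcont _ _).dist continuous_const) continuous_const
    · exact isClosed_le (hκ.comp (hcont _ _)) continuous_const
  obtain ⟨a', h1, h2⟩ := Supp.exists_mem_all (A := A) (I := Option I) (T := R) h𝒦 hR (X := X) (fun ε _ => hcl ε)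
    (fun ε ε' _ hεε' b hb => ⟨fun l l' => (hb.1 l l').trans hεε', fun l hl => (hb.2.1 l hl).trans hεε',
      fun l hl => (hb.2.2.1 l hl).trans hεε', hb.2.2.2.1.trans hεε', hb.2.2.2.2.trans (by linarith)⟩)
    (fun ε hε => lt_of_lt_of_le (Supp.dup_pos_gen hκ hG ha i0 l1 hl s hs ε hε) (A.Pr_mono fun n ρ h => h))
  refine ⟨a', h1, fun l l' => ?_, fun l hl => ?_, fun l hl => ?_, ?_, ?_⟩
  · exact eq_of_forall_dist_le fun ε hε => (h2 ε hε).1 l l'
  · exact eq_of_forall_dist_le fun ε hε => (h2 ε hε).2.1 l hl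
  · exact eq_of_forall_dist_le fun ε hε => (h2 ε hε).2.2.1 l hl
  · exact eq_of_forall_dist_le fun ε hε => (h2 ε hε).2.2.2.1
  · exact le_of_forall_pos_le_add fun ε hε => (h2 ε hε).2.2.2.2

/-- the scalar overlap of a support point is symmetric -/
theorem DupG_symm {J : Type} [Fintype J] {R : Ker A E} {κ : E → ℝ} (hκ : Continuous κ)
    (hsym : ∀ n c c', κ (R n c c') = κ (R n c' c)) {b : J → J → E} (hb : Supp A R J b) (x y : J) :
    κ (b x y) = κ (b y x) := by
  have hcont : ∀ o o' : J, Continuous fun b : J → J → E => b o o' := fun o o' =>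
    (continuous_apply o').comp (continuous_apply o)
  exact hb.mem' (X := {b : J → J → E | κ (b x y) = κ (b y x)})
    (isClosed_eq (hκ.comp (hcont x y)) (hκ.comp (hcont y x))) fun n ρ => hsym n _ _

/-- the new duplicate `none` gets the number `0` -/
def DupG_re {I : Type} {k : ℕ} : I ⊕ Fin (k + 1) → Option (I ⊕ Fin k) :=
  Sum.elim (fun l => some (Sum.inl l)) (fun j => Fin.cases none (fun j => some (Sum.inr j)) j)

theorem DupG_re_inj {I : Type} {k : ℕ} : Function.Injective (DupG_re : I ⊕ Fin (k + 1) → Option (I ⊕ Fin k)) := by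
  rintro (x | x) (y | y) h
  · have h' : (some (Sum.inl x) : Option (I ⊕ Fin k)) = some (Sum.inl y) := h
    rw [Sum.inl_injective (Option.some_injective _ h')]
  · induction y using Fin.cases with
    | zero =>
      have h' : (some (Sum.inl x) : Option (I ⊕ Fin k)) = none := h
      exact absurd h' (by simp)
    | succ y =>
      have h' : (some (Sum.inl x) : Option (I ⊕ Fin k)) = some (Sum.inr y) := h
      exact absurd (Option.some_injective _ h') (by simp)
  · induction x using Fin.cases with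
    | zero =>
      have h' : none = (some (Sum.inl y) : Option (I ⊕ Fin k)) := h
      exact absurd h' (by simp)
    | succ x =>
      have h' : (some (Sum.inr x) : Option (I ⊕ Fin k)) = some (Sum.inl y) := h
      exact absurd (Option.some_injective _ h') (by simp)
  · induction x using Fin.cases with
    | zero =>
      induction y using Fin.cases with
      | zero => rfl
      | succ y =>
        have h' : none = (some (Sum.inr y) : Option (I ⊕ Fin k)) := h
        exact absurd h' (by simp)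
    | succ x =>
      induction y using Fin.cases with
      | zero =>
        have h' : (some (Sum.inr x) : Option (I ⊕ Fin k)) = none := h
        exact absurd h' (by simp)
      | succ y =>
        have h' : (some (Sum.inr x) : Option (I ⊕ Fin k)) = some (Sum.inr y) := h
        rw [Sum.inr_injective (Option.some_injective _ h')]

/-- `k` duplicates (induction on `k`, always duplicating `inl i0`; `Option (I ⊕ Fin k) ≃ I ⊕ Fin (k+1)`; `hsym` is used for the
scalar overlap of the old duplicates with `inl i0`) -/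
theorem Supp.dupn_gen {R : Ker A E} {𝒦 : Set E} (h𝒦 : IsCompact 𝒦) (hR : ∀ n c c', R n c c' ∈ 𝒦)
    {κ : E → ℝ} (hκ : Continuous κ)
    (hG : ∀ φ : ℝ → ℝ, Continuous φ → (∀ x, 0 ≤ φ x ∧ φ x ≤ 1) → GG A (fun n c c' => φ (κ (R n c c'))))
    (hsym : ∀ n c c', κ (R n c c') = κ (R n c' c))
    {a : I → I → E} (ha : Supp A R I a)
    (i0 l1 : I) (hl : l1 ≠ i0) (s : ℝ) (hs : ∀ l, l ≠ i0 → κ (a i0 l) ≤ s) (k : ℕ) :
    ∃ a' : (I ⊕ Fin k) → (I ⊕ Fin k) → E, Supp A R (I ⊕ Fin k) a' ∧
      (∀ l l', a' (Sum.inl l) (Sum.inl l') = a l l') ∧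
      (∀ j l, l ≠ i0 → a' (Sum.inr j) (Sum.inl l) = a i0 l ∧ a' (Sum.inl l) (Sum.inr j) = a l i0) ∧
      (∀ j, a' (Sum.inr j) (Sum.inr j) = a i0 i0) ∧
      (∀ j, κ (a' (Sum.inr j) (Sum.inl i0)) ≤ s) ∧ (∀ j j', j ≠ j' → κ (a' (Sum.inr j) (Sum.inr j')) ≤ s) := by
  classical
  induction k with
  | zero =>
    have hf : Function.Injective (Sum.elim id Fin.elim0 : I ⊕ Fin 0 → I) := by
      rintro (x | x) (y | y) h
      · exact congrArg Sum.inl h
      · exact y.elim0
      · exact x.elim0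
      · exact x.elim0
    exact ⟨fun x y => a (Sum.elim id Fin.elim0 x) (Sum.elim id Fin.elim0 y), ha.marg _ hf, fun l l' => rfl,
      fun j => j.elim0, fun j => j.elim0, fun j => j.elim0, fun j => j.elim0⟩
  | succ k ih =>
    obtain ⟨a1, h1, h2, h3, h4, h5, h6⟩ := ih
    have hs1 : ∀ x y : I ⊕ Fin k, κ (a1 x y) = κ (a1 y x) := fun x y =>
      DupG_symm hκ hsym h1 x y
    obtain ⟨a2, g1, g2, g3, g4, g5, g6⟩ := Supp.dup_gen h𝒦 hR hκ hG h1 (Sum.inl i0) (Sum.inl l1)
      (fun h => hl (Sum.inl_injective h)) s (by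
        rintro (l | j) h
        · rw [h2]
          exact hs l fun h' => h (congrArg Sum.inl h')
        · rw [hs1]
          exact h5 j)
    have hs2 : ∀ x y : Option (I ⊕ Fin k), κ (a2 x y) = κ (a2 y x) := fun x y =>
      DupG_symm hκ hsym g1 x y
    have hne : ∀ l, l ≠ i0 → (Sum.inl l : I ⊕ Fin k) ≠ Sum.inl i0 := fun l h h' => h (Sum.inl_injective h')
    refine ⟨fun x y => a2 (DupG_re x) (DupG_re y), g1.marg _ DupG_re_inj, fun l l' => ?_, fun j l hl' => ?_, fun j => ?_,
      fun j => ?_, fun j j' hj => ?_⟩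
    · show a2 (some (Sum.inl l)) (some (Sum.inl l')) = a l l'
      rw [g2, h2]
    · induction j using Fin.cases with
      | zero =>
        refine ⟨?_, ?_⟩
        · show a2 none (some (Sum.inl l)) = a i0 l
          rw [g3 _ (hne l hl'), h2]
        · show a2 (some (Sum.inl l)) none = a l i0
          rw [g4 _ (hne l hl'), h2]
      | succ j =>
        refine ⟨?_, ?_⟩
        · show a2 (some (Sum.inr j)) (some (Sum.inl l)) = a i0 l
          rw [g2, (h3 j l hl').1]
        · show a2 (some (Sum.inl l)) (some (Sum.inr j)) = a l i0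
          rw [g2, (h3 j l hl').2]
    · induction j using Fin.cases with
      | zero =>
        show a2 none none = a i0 i0
        rw [g5, h2]
      | succ j =>
        show a2 (some (Sum.inr j)) (some (Sum.inr j)) = a i0 i0
        rw [g2, h4]
    · induction j using Fin.cases with
      | zero =>
        show κ (a2 none (some (Sum.inl i0))) ≤ s
        rw [hs2]
        exact g6
      | succ j =>
        show κ (a2 (some (Sum.inr j)) (some (Sum.inl i0))) ≤ s
        rw [g2]
        exact h5 j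
    · induction j using Fin.cases with
      | zero =>
        induction j' using Fin.cases with
        | zero => exact absurd rfl hj
        | succ j' =>
          show κ (a2 none (some (Sum.inr j'))) ≤ s
          rw [g3 _ Sum.inr_ne_inl, hs1]
          exact h5 j'
      | succ j =>
        induction j' using Fin.cases with
        | zero =>
          show κ (a2 (some (Sum.inr j)) none) ≤ s
          rw [g4 _ Sum.inr_ne_inl]
          exact h5 j
        | succ j' =>
          show κ (a2 (some (Sum.inr j)) (some (Sum.inr j'))) ≤ s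
          rw [g2]
          exact h6 j j' fun h => hj (congrArg Fin.succ h)

end SKC.EF
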