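import Pool.Agent.H.MP_08eaf3_pr.EF.AvB

/-!
# Averages over disorder and replicas
-/

set_option autoImplicit false

open MeasureTheory Filter

namespace SKC.EF

variable (S : Sys) {I J : Type} [Fintype I] [Fintype J]

/-- bounded by `M` and measurable in the disorder -/
def Sys.Nice (f : S.Ω → (I → S.C) → ℝ) (M : ℝ) : Prop :=
  (∀ ω ρ, |f ω ρ| ≤ M) ∧ ∀ ρ, Measurable fun ω => f ω ρ

variable {S}

theorem Sys.Nice.integrable {f : S.Ω → (I → S.C) → ℝ} {M : ℝ} (h : S.Nice f M) :
    Integrable (fun ω => S.av I ω (f ω)) S.P := by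
  refine Integrable.of_bound (Sys.measurable_av S h.2).aestronglyMeasurable M ?_
  refine Filter.Eventually.of_forall ?_
  intro ω
  rw [Real.norm_eq_abs]
  exact Sys.abs_av_le S ω (h.1 ω)

variable (S)

theorem Sys.ex_const (a : ℝ) : S.ex I (fun _ _ => a) = a := by
  unfold Sys.ex
  simp only [Sys.av_const]
  simp

theorem Sys.ex_add {f g : S.Ω → (I → S.C) → ℝ} {M M' : ℝ} (hf : S.Nice f M) (hg : S.Nice g M') :
    S.ex I (fun ω ρ => f ω ρ + g ω ρ) = S.ex I f + S.ex I g := by
  unfold Sys.ex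
  rw [← integral_add hf.integrable hg.integrable]
  refine integral_congr_ae (Filter.Eventually.of_forall ?_)
  intro ω
  exact Sys.av_add S ω (f ω) (g ω)

theorem Sys.ex_sub {f g : S.Ω → (I → S.C) → ℝ} {M M' : ℝ} (hf : S.Nice f M) (hg : S.Nice g M') :
    S.ex I (fun ω ρ => f ω ρ - g ω ρ) = S.ex I f - S.ex I g := by
  unfold Sys.ex
  rw [← integral_sub hf.integrable hg.integrable]
  refine integral_congr_ae (Filter.Eventually.of_forall ?_)
  intro ω
  exact Sys.av_sub S ω (f ω) (g ω)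

theorem Sys.ex_smul (a : ℝ) (f : S.Ω → (I → S.C) → ℝ) :
    S.ex I (fun ω ρ => a * f ω ρ) = a * S.ex I f := by
  unfold Sys.ex
  rw [← integral_const_mul]
  refine integral_congr_ae (Filter.Eventually.of_forall ?_)
  intro ω
  exact Sys.av_smul S ω a (f ω)

theorem Sys.ex_mono {f g : S.Ω → (I → S.C) → ℝ} {M M' : ℝ} (hf : S.Nice f M) (hg : S.Nice g M')
    (h : ∀ ω ρ, f ω ρ ≤ g ω ρ) : S.ex I f ≤ S.ex I g := by
  unfold Sys.ex
  exact integral_mono hf.integrable hg.integrable fun ω => Sys.av_mono S ω (h ω)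

theorem Sys.abs_ex_le {f : S.Ω → (I → S.C) → ℝ} {M : ℝ} (hf : S.Nice f M) : |S.ex I f| ≤ M := by
  unfold Sys.ex
  have h1 : ‖∫ ω, S.av I ω (f ω) ∂S.P‖ ≤ M * S.P.real Set.univ := by
    refine norm_integral_le_of_norm_le_const (Filter.Eventually.of_forall ?_)
    intro ω
    rw [Real.norm_eq_abs]
    exact Sys.abs_av_le S ω (hf.1 ω)
  rw [Real.norm_eq_abs] at h1
  simpa using h1

theorem Sys.ex_option (f : S.Ω → (Option I → S.C) → ℝ) :
    S.ex (Option I) f = S.ex I (fun ω ρ => ∑ c, S.w ω c * f ω (ext ρ c)) := by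
  unfold Sys.ex
  refine integral_congr_ae (Filter.Eventually.of_forall ?_)
  intro ω
  exact Sys.av_option S ω (f ω)

theorem Sys.ex_marg (j : I → J) (hj : Function.Injective j) (f : S.Ω → (I → S.C) → ℝ) :
    S.ex J (fun ω ρ => f ω (fun i => ρ (j i))) = S.ex I f := by
  unfold Sys.ex
  refine integral_congr_ae (Filter.Eventually.of_forall ?_)
  intro ω
  exact Sys.av_marg S ω j hj (f ω)

open Classical in
theorem Sys.ex_update (i0 : I) (f : S.Ω → (I → S.C) → ℝ) :
    S.ex I f = S.ex I (fun ω ρ => ∑ c, S.w ω c * f ω (Function.update ρ i0 c)) := by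
  unfold Sys.ex
  refine integral_congr_ae (Filter.Eventually.of_forall ?_)
  intro ω
  exact Sys.av_update S ω i0 (f ω)

/-- resampling inside an extended tuple: the new replica and replica `i0` are both drawn from `w ω` given the others -/
theorem Sys.nice_ind (S : Sys) (E : (I → S.C) → Prop) [DecidablePred E] :
    S.Nice (fun _ ρ => if E ρ then (1 : ℝ) else 0) 1 := by
  refine ⟨?_, fun _ => measurable_const⟩
  intro _ ρ
  by_cases h : E ρ
  · simp [h]
  · simp [h]

end SKC.EF
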