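import Pool.Agent.H.MP_08eaf3_pr.EF.FSup

/-!
# Part F: attaching a new replica at a support matrix
-/

set_option autoImplicit false

open MeasureTheory Filter

namespace SKC.EF

variable {A : RFam} {R : Ker A Mt} {u : ℝ} {I : Type} [Fintype I]

theorem FAtt_cont_tv : Continuous tv := by
  have h : ∀ i j : Fin 2, Continuous fun M : Mt => M i j := fun i j => continuous_apply_apply i j
  exact (h 0 0).prodMk ((h 1 1).prodMk ((h 0 1).add (h 1 0)))

/-- the closed conditions -/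
def FAtt_X (a : I → I → Mt) (i0 : I) (M : Mt) (ε : ℝ) : Set (Option I → Option I → Mt) :=
  {b | (∀ l l', dist (b (some l) (some l')) (a l l') ≤ ε) ∧ dist (tv (b (some i0) none)) (tv M) ≤ ε}

omit [Fintype I] in
theorem FAtt_closed (a : I → I → Mt) (i0 : I) (M : Mt) (ε : ℝ) : IsClosed (FAtt_X a i0 M ε) := by
  have h : ∀ i j : Option I, Continuous fun b : Option I → Option I → Mt => b i j :=
    fun i j => continuous_apply_apply i j
  unfold FAtt_X
  rw [Set.ofPred_and]
  refine IsClosed.inter ?_ ?_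
  · simp only [Set.ofPred_forall]
    exact isClosed_iInter fun l => isClosed_iInter fun l' =>
      isClosed_le ((h _ _).dist continuous_const) continuous_const
  · exact isClosed_le ((FAtt_cont_tv.comp (h _ _)).dist continuous_const) continuous_const

/-- the bump -/
noncomputable def FAtt_psi (M : Mt) (ε : ℝ) (x : ℝ × ℝ × ℝ) : ℝ := max 0 (ε - dist x (tv M))

theorem FAtt_psi_cont (M : Mt) (ε : ℝ) : Continuous (FAtt_psi M ε) :=
  continuous_const.max (continuous_const.sub (continuous_id.dist continuous_const))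

theorem FAtt_psi_nonneg (M : Mt) (ε : ℝ) (x : ℝ × ℝ × ℝ) : 0 ≤ FAtt_psi M ε x := le_max_left _ _

theorem FAtt_psi_le (M : Mt) {ε : ℝ} (hε : 0 ≤ ε) (x : ℝ × ℝ × ℝ) : FAtt_psi M ε x ≤ ε :=
  max_le hε (by linarith [dist_nonneg (x := x) (y := tv M)])

theorem FAtt_psi_self (M : Mt) {ε : ℝ} (hε : 0 ≤ ε) : FAtt_psi M ε (tv M) = ε := by
  unfold FAtt_psi
  rw [dist_self, sub_zero, max_eq_right hε]

theorem FAtt_psi_zero (M : Mt) {ε : ℝ} {x : ℝ × ℝ × ℝ} (h : ¬ dist x (tv M) ≤ ε) :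
    FAtt_psi M ε x = 0 := by
  push Not at h
  unfold FAtt_psi
  exact max_eq_left (by linarith)

theorem FAtt_pos (h : PK A R u) {a : I → I → Mt} (ha : Supp A R I a) (i0 : I) {M : Mt}
    (hM : M ∈ TT A R) {ε : ℝ} (hε : 0 < ε) :
    0 < A.Pr (Option I) (fun _ ρ => R.arr ρ ∈ FAtt_X a i0 M ε) := by
  classical
  obtain ⟨b, hb, hbM⟩ := hM
  obtain ⟨K, hK⟩ : ∃ K : Ker A ℝ, K = fun n c c' => FAtt_psi M ε (tv (R n c c')) := ⟨_, rfl⟩
  have hKa : ∀ n c c', |K n c c'| ≤ ε := by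
    intro n c c'
    rw [hK, abs_of_nonneg (FAtt_psi_nonneg _ _ _)]
    exact FAtt_psi_le _ hε.le _
  have hK0 : ∀ n c c', 0 ≤ K n c c' := by
    intro n c c'
    rw [hK]
    exact FAtt_psi_nonneg _ _ _
  obtain ⟨F, hF⟩ : ∃ F : Obs A I, F = fun n ρ =>
      if (∀ l l', dist (R n (ρ l) (ρ l')) (a l l') ≤ ε) then (1 : ℝ) else 0 := ⟨_, rfl⟩
  have hFb : F.Bd 1 := by
    intro n ρ
    rw [hF]
    by_cases h1 : ∀ l l', dist (R n (ρ l) (ρ l')) (a l l') ≤ ε
    · simp [h1]
    · simp [h1]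
  have hF0 : ∀ n ρ, 0 ≤ F n ρ := by
    intro n ρ
    rw [hF]
    by_cases h1 : ∀ l l', dist (R n (ρ l) (ρ l')) (a l l') ≤ ε
    · simp [h1]
    · simp [h1]
  have hFL : 0 < A.L I F := by
    have h1 := ha ε hε
    unfold RFam.Pr at h1
    refine lt_of_lt_of_eq h1 ?_
    rw [hF]
    congr 1
    funext n ρ
    by_cases h2 : ∀ l l', dist (R n (ρ l) (ρ l')) (a l l') ≤ ε
    · exact (if_pos h2).trans (if_pos h2).symm
    · exact (if_neg h2).trans (if_neg h2).symm
  have hG := h.gg (FAtt_psi M ε) (FAtt_psi_cont M ε) I i0 F 1 hFb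
  rw [← hK] at hG
  have hP : 0 < A.L (Fin 2) (K.at 0 1) := by
    have h1 := L_pos_supp (A := A) (T := R) (I := Fin 2) isCompact_box h.mem_box
      (Φ := fun c => FAtt_psi M ε (tv (c 0 1)))
      ((FAtt_psi_cont M ε).comp (FAtt_cont_tv.comp (continuous_apply_apply 0 1)))
      (fun c => FAtt_psi_nonneg _ _ _) hb (by
        show 0 < FAtt_psi M ε (tv (b 0 1))
        rw [hbM, FAtt_psi_self _ hε.le]
        exact hε)
    rw [hK]
    exact h1
  have hS : 0 ≤ ∑ l ∈ Finset.univ.erase i0, A.L I (F * K.at i0 l) := by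
    refine Finset.sum_nonneg fun l _ => A.L_nonneg (M := 1 * ε) ?_ ?_
    · intro n ρ
      show |F n ρ * K n (ρ i0) (ρ l)| ≤ 1 * ε
      rw [abs_mul]
      exact mul_le_mul (hFb n ρ) (hKa n _ _) (abs_nonneg _) zero_le_one
    · intro n ρ
      exact mul_nonneg (hF0 n ρ) (hK0 n _ _)
  have hcard : 0 < (Fintype.card I : ℝ) := by
    have : 0 < Fintype.card I := Fintype.card_pos_iff.2 ⟨i0⟩
    exact_mod_cast this
  have hL : 0 < A.L (Option I) (F.up * K.at (some i0) none) := by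
    have h1 : 0 < (Fintype.card I : ℝ) * A.L (Option I) (F.up * K.at (some i0) none) := by
      rw [hG]
      have := mul_pos hFL hP
      linarith
    exact (mul_pos_iff_of_pos_left hcard).1 h1
  have hbd : Obs.Bd (A := A) (I := Option I) (F.up * K.at (some i0) none) (1 * ε) := by
    intro n ρ
    show |F n (fun i => ρ (some i)) * K n (ρ (some i0)) (ρ none)| ≤ 1 * ε
    rw [abs_mul]
    exact mul_le_mul (hFb n _) (hKa n _ _) (abs_nonneg _) zero_le_one
  have hv := A.abs_L_le_of_vanish hbd (fun _ ρ => R.arr ρ ∈ FAtt_X a i0 M ε) (by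
    intro n ρ hn
    show F n (fun i => ρ (some i)) * K n (ρ (some i0)) (ρ none) = 0
    by_cases h1 : ∀ l l', dist (R n (ρ (some l)) (ρ (some l'))) (a l l') ≤ ε
    · have h2 : ¬ dist (tv (R n (ρ (some i0)) (ρ none))) (tv M) ≤ ε := fun h3 => hn ⟨h1, h3⟩
      have h3 : K n (ρ (some i0)) (ρ none) = 0 := by
        rw [hK]
        exact FAtt_psi_zero M h2
      rw [h3, mul_zero]
    · have h3 : F n (fun i => ρ (some i)) = 0 := by
        rw [hF]
        exact if_neg h1
      rw [h3, zero_mul])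
  rw [abs_of_pos hL] at hv
  have h4 : 0 < 1 * ε * A.Pr (Option I) (fun _ ρ => R.arr ρ ∈ FAtt_X a i0 M ε) := lt_of_lt_of_le hL hv
  rw [one_mul] at h4
  exact (mul_pos_iff_of_pos_left hε).1 h4

/-- attaching a new replica: `E[1_G ψ(tv R(ρ_{i0}, new))] ≥ Pr(G) L(ψ(tv R_01)) / card I > 0` by the Ghirlanda-Guerra identity with `ψ` a bump
at `tv M`, `G` = the array of the replicas `I` is close to `a`; then `Supp.exists_mem_all`. -/
theorem PK.att (h : PK A R u) {a : I → I → Mt} (ha : Supp A R I a) (i0 : I) {M : Mt} (hM : M ∈ TT A R) :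
    ∃ a' : Option I → Option I → Mt, Supp A R (Option I) a' ∧ (∀ l l', a' (some l) (some l') = a l l') ∧
      tv (a' (some i0) none) = tv M := by
  obtain ⟨a', h1, h2⟩ := Supp.exists_mem_all (A := A) (T := R) (I := Option I) isCompact_box
    h.mem_box (X := FAtt_X a i0 M) (fun ε _ => FAtt_closed a i0 M ε)
    (fun ε ε' _ hle b hb => ⟨fun l l' => (hb.1 l l').trans hle, hb.2.trans hle⟩)
    (fun ε hε => FAtt_pos h ha i0 hM hε)
  refine ⟨a', h1, fun l l' => ?_, ?_⟩
  · refine dist_le_zero.1 (le_of_forall_pos_le_add fun ε hε => ?_)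
    rw [zero_add]
    exact (h2 ε hε).1 l l'
  · refine dist_le_zero.1 (le_of_forall_pos_le_add fun ε hε => ?_)
    rw [zero_add]
    exact (h2 ε hε).2

end SKC.EF
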