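import Pool.Agent.H.MP_08eaf3_pr.EF.FSym

/-!
# Part F: the section of the trace
-/

set_option autoImplicit false

open MeasureTheory Filter

namespace SKC.EF

variable {A : RFam} {R : Ker A Mt} {u : ℝ} {I : Type} [Fintype I]

/-- an element of the support is determined by its trace -/
theorem PK.ext_tr (h : PK A R u) {M M' : Mt} (hM : M ∈ TT A R) (hM' : M' ∈ TT A R) (ht : tr2 M = tr2 M') : M = M' := by
  have h1 := h.tv_eq hM hM' ht
  have h2 := h.sym hM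
  have h3 := h.sym hM'
  simp only [tv, Prod.mk.injEq] at h1
  obtain ⟨a1, a2, a3⟩ := h1
  funext i j
  fin_cases i <;> fin_cases j
  · exact a1
  · show M 0 1 = M' 0 1
    linarith
  · show M 1 0 = M' 1 0
    linarith
  · exact a2

theorem FSec_le (h : PK A R u) {M M' : Mt} (hM : M ∈ TT A R) (hM' : M' ∈ TT A R)
    (ht : tr2 M ≤ tr2 M') (i j : Fin 2) : |M' i j - M i j| ≤ tr2 M' - tr2 M := by
  have s1 := h.sym hM
  have s2 := h.sym hM'
  have q1 := h.mono hM hM' ht ![1, 0]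
  have q2 := h.mono hM hM' ht ![0, 1]
  have q3 := h.mono hM hM' ht ![1, 1]
  have q4 := h.mono hM hM' ht ![1, -1]
  simp only [qf, Matrix.cons_val_zero, Matrix.cons_val_one] at q1 q2 q3 q4
  simp only [tr2] at ht ⊢
  rw [abs_le]
  fin_cases i <;> fin_cases j
  · show -(M' 0 0 + M' 1 1 - (M 0 0 + M 1 1)) ≤ M' 0 0 - M 0 0 ∧
      M' 0 0 - M 0 0 ≤ M' 0 0 + M' 1 1 - (M 0 0 + M 1 1)
    constructor <;> linarith
  · show -(M' 0 0 + M' 1 1 - (M 0 0 + M 1 1)) ≤ M' 0 1 - M 0 1 ∧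
      M' 0 1 - M 0 1 ≤ M' 0 0 + M' 1 1 - (M 0 0 + M 1 1)
    constructor <;> linarith
  · show -(M' 0 0 + M' 1 1 - (M 0 0 + M 1 1)) ≤ M' 1 0 - M 1 0 ∧
      M' 1 0 - M 1 0 ≤ M' 0 0 + M' 1 1 - (M 0 0 + M 1 1)
    constructor <;> linarith
  · show -(M' 0 0 + M' 1 1 - (M 0 0 + M 1 1)) ≤ M' 1 1 - M 1 1 ∧
      M' 1 1 - M 1 1 ≤ M' 0 0 + M' 1 1 - (M 0 0 + M 1 1)
    constructor <;> linarith

/-- entries are 1-Lipschitz functions of the trace: by `PK.mono` with `v = (1,0), (0,1), (1,1), (1,-1)` -/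
theorem PK.abs_sub_le (h : PK A R u) {M M' : Mt} (hM : M ∈ TT A R) (hM' : M' ∈ TT A R) (i j : Fin 2) :
    |M i j - M' i j| ≤ |tr2 M - tr2 M'| := by
  rcases le_total (tr2 M) (tr2 M') with ht | ht
  · rw [abs_sub_comm (tr2 M), abs_of_nonneg (sub_nonneg.mpr ht), abs_sub_comm]
    exact FSec_le h hM hM' ht i j
  · rw [abs_of_nonneg (sub_nonneg.mpr ht)]
    exact FSec_le h hM' hM ht i j

/-- the section of the trace, extended continuously (`LipschitzOnWith.extend_real` for each entry) -/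
theorem PK.exists_Q (h : PK A R u) : ∃ Q : ℝ → Matrix (Fin 2) (Fin 2) ℝ, Continuous Q ∧ ∀ M ∈ TT A R, Q (tr2 M) = M := by
  have h1 : ∀ t : ℝ, ∃ M : Mt, t ∈ tr2 '' (TT A R) → M ∈ TT A R ∧ tr2 M = t := by
    intro t
    by_cases ht : t ∈ tr2 '' (TT A R)
    · obtain ⟨M, hM, hMt⟩ := ht
      exact ⟨M, fun _ => ⟨hM, hMt⟩⟩
    · exact ⟨0, fun h' => absurd h' ht⟩
  choose F hF using h1
  have h2 : ∀ i j : Fin 2, LipschitzOnWith 1 (fun t => F t i j) (tr2 '' (TT A R)) := by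
    intro i j
    refine LipschitzOnWith.of_dist_le_mul (fun t ht t' ht' => ?_)
    obtain ⟨a1, a2⟩ := hF t ht
    obtain ⟨b1, b2⟩ := hF t' ht'
    have h3 := h.abs_sub_le a1 b1 i j
    rw [a2, b2] at h3
    rw [Real.dist_eq, Real.dist_eq, NNReal.coe_one, one_mul]
    exact h3
  have h3 : ∀ i j : Fin 2, ∃ g : ℝ → ℝ, LipschitzWith 1 g ∧
      Set.EqOn (fun t => F t i j) g (tr2 '' (TT A R)) := fun i j => (h2 i j).extend_real
  choose g hg1 hg2 using h3
  refine ⟨fun t => fun i j => g i j t, ?_, ?_⟩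
  · exact continuous_matrix (fun i j => (hg1 i j).continuous)
  · intro M hM
    have hm : tr2 M ∈ tr2 '' (TT A R) := ⟨M, hM, rfl⟩
    obtain ⟨a1, a2⟩ := hF (tr2 M) hm
    have h4 := h.ext_tr a1 hM a2
    funext i j
    show g i j (tr2 M) = M i j
    rw [← hg2 i j hm]
    show F (tr2 M) i j = M i j
    rw [h4]

end SKC.EF
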