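import Pool.Agent.H.MP_08eaf3_pr.EF.FMu
import Pool.Agent.H.MP_08eaf3_pr.EF.FSec

/-!
# Law of the overlap matrix of two replicas, ultrametricity for three replicas
-/

set_option autoImplicit false

open MeasureTheory Filter

namespace SKC.EF

variable {A : RFam} {R : Ker A Mt} {u : ℝ}

/-- On the support `R_01 = Q (tr R_01)`, so `ψ(R_01)` can be replaced by `φ(tr R_01)`, `φ = ψ ∘ Q` (`L_congr_supp` for `I = Fin 2`, `𝒦 = box`,
`mem_TT`), and `hμ` applies. -/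
theorem PK.law2 (h : PK A R u) {μ : Measure ℝ} [IsProbabilityMeasure μ]
    (hμ : ∀ φ : ℝ → ℝ, Continuous φ → A.L (Fin 2) (fun n ρ => φ (tr2 (R n (ρ 0) (ρ 1)))) = ∫ x, φ x ∂μ)
    {Q : ℝ → Matrix (Fin 2) (Fin 2) ℝ} (hQ : Continuous Q) (hQT : ∀ M ∈ TT A R, Q (tr2 M) = M)
    (ψ : Matrix (Fin 2) (Fin 2) ℝ → ℝ) (hψ : Continuous ψ) :
    A.L (Fin 2) (fun n ρ => ψ (R n (ρ 0) (ρ 1))) = ∫ x, ψ (Q x) ∂μ := by
  have htr : Continuous (fun a : Fin 2 → Fin 2 → Mt => tr2 (a 0 1)) := by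
    unfold tr2
    fun_prop
  have hc1 : Continuous (fun a : Fin 2 → Fin 2 → Mt => ψ (a 0 1)) :=
    hψ.comp ((continuous_apply (1 : Fin 2)).comp (continuous_apply (0 : Fin 2)))
  have hc2 : Continuous (fun a : Fin 2 → Fin 2 → Mt => ψ (Q (tr2 (a 0 1)))) := hψ.comp (hQ.comp htr)
  have key := L_congr_supp (A := A) (I := Fin 2) (T := R) isCompact_box (fun k c c' => h.mem_box k c c')
    (Φ := fun a => ψ (a 0 1)) (Ψ := fun a => ψ (Q (tr2 (a 0 1)))) hc1 hc2 (fun a ha => by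
      show ψ (a 0 1) = ψ (Q (tr2 (a 0 1)))
      rw [hQT _ (mem_TT ha (by decide))])
  exact key.trans (hμ (fun x => ψ (Q x)) (hψ.comp hQ))

/-- The closed condition `tr a02 + ε ≤ min (tr a01) (tr a12)` contains no support point (`PK.ultra_tr` for `i = 1`, `j = 0`, `k = 2` and symmetry), so it
has probability `0` by `Supp.exists_mem`. -/
theorem PK.ultra3 (h : PK A R u) (ε : ℝ) (hε : 0 < ε) :
    A.Pr (Fin 3) (fun n ρ => tr2 (R n (ρ 0) (ρ 2)) + ε < min (tr2 (R n (ρ 0) (ρ 1))) (tr2 (R n (ρ 1) (ρ 2)))) = 0 := by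
  by_contra hne
  have hpos : 0 < A.Pr (Fin 3) (fun n ρ => tr2 (R n (ρ 0) (ρ 2)) + ε < min (tr2 (R n (ρ 0) (ρ 1))) (tr2 (R n (ρ 1) (ρ 2)))) :=
    lt_of_le_of_ne (A.Pr_nonneg _) (Ne.symm hne)
  have htr : ∀ i j : Fin 3, Continuous (fun a : Fin 3 → Fin 3 → Mt => tr2 (a i j)) := by
    intro i j
    unfold tr2
    fun_prop
  have hcl : IsClosed {a : Fin 3 → Fin 3 → Mt | tr2 (a 0 2) + ε ≤ min (tr2 (a 0 1)) (tr2 (a 1 2))} :=
    isClosed_le ((htr 0 2).add continuous_const) ((htr 0 1).min (htr 1 2))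
  obtain ⟨a, haX, ha⟩ := Supp.exists_mem (A := A) (I := Fin 3) (T := R) isCompact_box (fun k c c' => h.mem_box k c c') hcl
    (lt_of_lt_of_le hpos (A.Pr_mono (fun n ρ hx => le_of_lt hx)))
  have h1 := h.ultra_tr ha (i := 1) (j := 0) (k := 2) (by decide) (by decide) (by decide)
  have h2 : tr2 (a 1 0) = tr2 (a 0 1) := by
    unfold tr2
    rw [h.supp_symm ha 1 0 0 0, h.supp_symm ha 1 0 1 1]
  rw [h2] at h1
  have h3 : tr2 (a 0 2) + ε ≤ min (tr2 (a 0 1)) (tr2 (a 1 2)) := haX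
  linarith

end SKC.EF
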