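import Pool.Agent.H.MP_08eaf3_pr.EF.LimB

/-!
# The law of a bounded scalar kernel (Riesz-Markov)
-/

set_option autoImplicit false

open MeasureTheory Filter

namespace SKC.EF

/-- the value of the kernel as a point of the compact interval -/
def FMu0_pt (A : RFam) (τ : Ker A ℝ) (hb : ∀ n c c', |τ n c c'| ≤ 2) (n : A.ι) (c c' : (A.S n).C) :
    Set.Icc (-2 : ℝ) 2 :=
  ⟨τ n c c', abs_le.1 (hb n c c')⟩

theorem FMu0_bd (A : RFam) (τ : Ker A ℝ) (hb : ∀ n c c', |τ n c c'| ≤ 2)
    (f : C(Set.Icc (-2 : ℝ) 2, ℝ)) :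
    Obs.Bd (A := A) (I := Fin 2) (fun n ρ => f (FMu0_pt A τ hb n (ρ 0) (ρ 1))) ‖f‖ := by
  intro n ρ
  exact f.norm_coe_le_norm _

/-- the functional on continuous functions on the interval -/
noncomputable def FMu0_lam (A : RFam) (τ : Ker A ℝ) (hb : ∀ n c c', |τ n c c'| ≤ 2) :
    CompactlySupportedContinuousMap (Set.Icc (-2 : ℝ) 2) ℝ →ₗ[ℝ] ℝ where
  toFun f := A.L (Fin 2) (fun n ρ => f (FMu0_pt A τ hb n (ρ 0) (ρ 1)))
  map_add' f g := by
    have h := A.L_add (FMu0_bd A τ hb f.toContinuousMap) (FMu0_bd A τ hb g.toContinuousMap)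
    exact h
  map_smul' a f := by
    have h := A.L_smul a (FMu0_bd A τ hb f.toContinuousMap)
    exact h

/-- the positive functional -/
noncomputable def FMu0_pos (A : RFam) (τ : Ker A ℝ) (hb : ∀ n c c', |τ n c c'| ≤ 2) :
    CompactlySupportedContinuousMap (Set.Icc (-2 : ℝ) 2) ℝ →ₚ[ℝ] ℝ :=
  PositiveLinearMap.mk₀ (FMu0_lam A τ hb) (by
    intro f hf
    refine A.L_nonneg (FMu0_bd A τ hb f.toContinuousMap) ?_
    intro n ρ
    exact hf _)

/-- Riesz-Markov: the functional `φ ↦ L φ(τ_01)` on compactly supported continuous functions is given by a measure (`RealRMK.rieszMeasure`);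
it is a probability measure on `[-2,2]`, so the formula holds for all continuous functions (multiply by a cutoff that is `1` on `[-3,3]`). -/
theorem exists_mu (A : RFam) (τ : Ker A ℝ) (hb : ∀ n c c', |τ n c c'| ≤ 2) :
    ∃ μ : Measure ℝ, IsProbabilityMeasure μ ∧ μ (Set.Icc (-2) 2)ᶜ = 0 ∧
      ∀ φ : ℝ → ℝ, Continuous φ → A.L (Fin 2) (fun n ρ => φ (τ n (ρ 0) (ρ 1))) = ∫ x, φ x ∂μ := by
  classical
  set ν : Measure (Set.Icc (-2 : ℝ) 2) := RealRMK.rieszMeasure (FMu0_pos A τ hb) with hν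
  have key : ∀ f : C(Set.Icc (-2 : ℝ) 2, ℝ),
      ∫ x, f x ∂ν = A.L (Fin 2) (fun n ρ => f (FMu0_pt A τ hb n (ρ 0) (ρ 1))) := by
    intro f
    exact RealRMK.integral_rieszMeasure (FMu0_pos A τ hb)
      (CompactlySupportedContinuousMap.continuousMapEquiv f)
  have h1 : ν.real Set.univ = 1 := by
    have h := key (ContinuousMap.const _ 1)
    have h2 : A.L (Fin 2) (fun n ρ => (ContinuousMap.const (Set.Icc (-2 : ℝ) 2) (1 : ℝ))
        (FMu0_pt A τ hb n (ρ 0) (ρ 1))) = 1 := A.L_const 1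
    rw [h2] at h
    simpa using h
  have hfin : IsFiniteMeasure ν := by
    refine ⟨?_⟩
    by_contra hc
    have h3 : ν Set.univ = ⊤ := by
      simpa using hc
    rw [Measure.real, h3] at h1
    simp at h1
  have hprob : IsProbabilityMeasure ν := by
    refine ⟨?_⟩
    have h3 : ν Set.univ ≠ ⊤ := measure_ne_top _ _
    rw [Measure.real] at h1
    rw [← ENNReal.ofReal_toReal h3, h1, ENNReal.ofReal_one]
  refine ⟨ν.map Subtype.val, Measure.isProbabilityMeasure_map measurable_subtype_coe.aemeasurable,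
    ?_, ?_⟩
  · rw [Measure.map_apply measurable_subtype_coe measurableSet_Icc.compl]
    have : (Subtype.val ⁻¹' (Set.Icc (-2 : ℝ) 2)ᶜ : Set (Set.Icc (-2 : ℝ) 2)) = ∅ := by
      ext x
      simp only [Set.mem_preimage, Set.mem_compl_iff, Set.mem_empty_iff_false, iff_false, not_not]
      exact x.2
    rw [this, measure_empty]
  · intro φ hφ
    rw [integral_map measurable_subtype_coe.aemeasurable hφ.aestronglyMeasurable]
    exact (key ⟨fun x => φ x.1, hφ.comp continuous_subtype_val⟩).symm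

end SKC.EF
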