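import Pool.Agent.H.MP_08eaf3_pr.EF.FOrd
import Pool.Agent.H.MP_08eaf3_pr.EF.FMu0

/-!
# The law of the trace of the overlap
-/

set_option autoImplicit false

open MeasureTheory Filter

namespace SKC.EF

variable {A : RFam} {R : Ker A Mt} {u : ℝ}

theorem FMu_cont_tr2 : Continuous tr2 := by
  unfold tr2
  fun_prop

theorem FMu_cont_arr : Continuous (fun a : Fin 2 → Fin 2 → Mt => tr2 (a 0 1)) :=
  FMu_cont_tr2.comp ((continuous_apply 1).comp (continuous_apply 0))

/-- the measure lives on the set of traces of the support: every point outside has a neighbourhood of measure zero, since a bump function there vanishes on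
the support (`L_congr_supp`). -/
theorem PK.mu_compl (h : PK A R u) {μ : Measure ℝ} [IsProbabilityMeasure μ]
    (hμ : ∀ φ : ℝ → ℝ, Continuous φ → A.L (Fin 2) (fun n ρ => φ (tr2 (R n (ρ 0) (ρ 1)))) = ∫ x, φ x ∂μ) :
    μ (tr2 '' TT A R)ᶜ = 0 := by
  classical
  set S : Set ℝ := tr2 '' TT A R with hS
  have hSc : IsClosed S := (h.isCompact_TT.image FMu_cont_tr2).isClosed
  have hSn : S.Nonempty := h.TT_nonempty.image _
  set φ : ℝ → ℝ := fun x => min 1 (Metric.infDist x S) with hφ
  have hφc : Continuous φ := continuous_const.min (Metric.continuous_infDist_pt S)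
  have hφ0 : ∀ x, 0 ≤ φ x := fun x => le_min zero_le_one Metric.infDist_nonneg
  have hφ1 : ∀ x, φ x ≤ 1 := fun x => min_le_left _ _
  have hL : A.L (Fin 2) (fun n ρ => φ (tr2 (R n (ρ 0) (ρ 1)))) = 0 := by
    have h1 := L_congr_supp (A := A) (I := Fin 2) (T := R) isCompact_box h.mem_box
      (Φ := fun a => φ (tr2 (a 0 1))) (Ψ := fun _ => 0) (hφc.comp FMu_cont_arr) continuous_const
      (by
        intro a ha
        have h2 : tr2 (a 0 1) ∈ S := ⟨a 0 1, mem_TT ha (by decide), rfl⟩
        show min 1 (Metric.infDist (tr2 (a 0 1)) S) = 0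
        rw [Metric.infDist_zero_of_mem h2]
        exact min_eq_right zero_le_one)
    have h3 : A.L (Fin 2) (fun _ _ => (0 : ℝ)) = 0 := A.L_const 0
    exact h1.trans h3
  rw [hμ φ hφc] at hL
  have hint : Integrable φ μ := by
    refine Integrable.mono' (g := fun _ => (1 : ℝ)) (integrable_const 1)
      hφc.aestronglyMeasurable ?_
    filter_upwards with x
    rw [Real.norm_eq_abs, abs_of_nonneg (hφ0 x)]
    exact hφ1 x
  have h0 : φ =ᵐ[μ] 0 := (integral_eq_zero_iff_of_nonneg hφ0 hint).1 hL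
  refine measure_mono_null ?_ h0
  intro x hx
  simp only [Set.mem_compl_iff, Set.mem_setOf_eq]
  intro h4
  have h5 : 0 < Metric.infDist x S := (hSc.notMem_iff_infDist_pos hSn).1 hx
  have h6 : 0 < φ x := lt_min one_pos h5
  have h7 : φ x = 0 := h4
  linarith

/-- every trace of the support is in the support of the measure (`L_pos_supp`) -/
theorem PK.mu_pos (h : PK A R u) {μ : Measure ℝ} [IsProbabilityMeasure μ]
    (hμ : ∀ φ : ℝ → ℝ, Continuous φ → A.L (Fin 2) (fun n ρ => φ (tr2 (R n (ρ 0) (ρ 1)))) = ∫ x, φ x ∂μ)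
    {t : ℝ} (ht : t ∈ tr2 '' TT A R) (ε : ℝ) (hε : 0 < ε) : 0 < μ (Set.Ioo (t - ε) (t + ε)) := by
  classical
  obtain ⟨M, ⟨a, ha, rfl⟩, rfl⟩ := ht
  set t : ℝ := tr2 (a 0 1) with ht
  set φ : ℝ → ℝ := fun x => max 0 (ε - |x - t|) with hφ
  have hφc : Continuous φ := by
    have : Continuous (fun x : ℝ => ε - |x - t|) := by fun_prop
    exact continuous_const.max this
  have hφ0 : ∀ x, 0 ≤ φ x := fun x => le_max_left _ _
  have hL : 0 < A.L (Fin 2) (fun n ρ => φ (tr2 (R n (ρ 0) (ρ 1)))) := by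
    refine L_pos_supp (A := A) (I := Fin 2) (T := R) isCompact_box h.mem_box
      (Φ := fun a => φ (tr2 (a 0 1))) (hφc.comp FMu_cont_arr) (fun a => hφ0 _) ha ?_
    show 0 < max 0 (ε - |t - t|)
    rw [sub_self, abs_zero, sub_zero]
    exact lt_max_of_lt_right hε
  rw [hμ φ hφc] at hL
  by_contra hcon
  have h0 : μ (Set.Ioo (t - ε) (t + ε)) = 0 := by
    simpa using hcon
  have h1 : φ =ᵐ[μ] 0 := by
    refine measure_mono_null ?_ h0
    intro x hx
    simp only [Set.mem_compl_iff, Set.mem_setOf_eq] at hx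
    by_contra h2
    apply hx
    show max 0 (ε - |x - t|) = 0
    refine max_eq_left ?_
    have h3 : ¬ |x - t| < ε := by
      intro h4
      rw [abs_lt] at h4
      exact h2 ⟨by linarith [h4.1], by linarith [h4.2]⟩
    linarith [not_lt.1 h3]
  rw [integral_congr_ae h1] at hL
  simp at hL

end SKC.EF
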