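import Pool.Agent.H.MP_08eaf3_pr.EF.FOrdB

/-!
# Part F1: the support of the overlap matrix is totally ordered
-/

set_option autoImplicit false

open MeasureTheory Filter

namespace SKC.EF

variable {A : RFam} {R : Ker A Mt} {u : ℝ} {I : Type} [Fintype I]

/-- if `M' ≤ M` and the trace of `M` is at most the trace of `M'` then the symmetric parts agree -/
theorem FOrd_eq {M M' : Mt} (h : ∀ v, qf v M' ≤ qf v M) (ht : tr2 M ≤ tr2 M') : tv M = tv M' := by
  have h1 := h ![1, 0]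
  have h2 := h ![0, 1]
  have h3 := h ![1, 1]
  have h4 := h ![1, -1]
  simp only [qf, Matrix.cons_val_zero, Matrix.cons_val_one] at h1 h2 h3 h4
  unfold tr2 at ht
  unfold tv
  refine Prod.ext ?_ (Prod.ext ?_ ?_)
  · show M 0 0 = M' 0 0
    linarith
  · show M 1 1 = M' 1 1
    linarith
  · show M 0 1 + M 1 0 = M' 0 1 + M' 1 0
    linarith

theorem FOrd_qf_of_tv {M M' : Mt} (h : tv M = tv M') (v : Fin 2 → ℝ) : qf v M = qf v M' := by
  have h1 : M 0 0 = M' 0 0 := congrArg Prod.fst h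
  have h2 : M 1 1 = M' 1 1 := congrArg (fun p => p.2.1) h
  have h3 : M 0 1 + M 1 0 = M' 0 1 + M' 1 0 := congrArg (fun p => p.2.2) h
  unfold qf
  rw [h1, h2, h3]

theorem PK.mono (h : PK A R u) {M M' : Mt} (hM : M ∈ TT A R) (hM' : M' ∈ TT A R) (ht : tr2 M ≤ tr2 M') (v : Fin 2 → ℝ) :
    qf v M ≤ qf v M' := by
  rcases h.total hM hM' with h1 | h1
  · exact h1 v
  · exact (FOrd_qf_of_tv (FOrd_eq h1 ht) v).le

theorem PK.tv_eq (h : PK A R u) {M M' : Mt} (hM : M ∈ TT A R) (hM' : M' ∈ TT A R) (ht : tr2 M = tr2 M') :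
    tv M = tv M' := by
  rcases h.total hM hM' with h1 | h1
  · exact (FOrd_eq h1 ht.ge).symm
  · exact FOrd_eq h1 ht.le

theorem PK.tr_nonneg (h : PK A R u) {M : Mt} (hM : M ∈ TT A R) : 0 ≤ tr2 M := by
  have h1 := h.qf_nonneg hM ![1, 0]
  have h2 := h.qf_nonneg hM ![0, 1]
  simp only [qf, Matrix.cons_val_zero, Matrix.cons_val_one] at h1 h2
  unfold tr2
  linarith

theorem PK.tr_le (h : PK A R u) {M : Mt} (hM : M ∈ TT A R) : tr2 M ≤ 2 := by
  have h1 := h.qf_le hM ![1, 0]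
  have h2 := h.qf_le hM ![0, 1]
  simp [qf, mat] at h1 h2
  unfold tr2
  linarith

end SKC.EF
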