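import Pool.Agent.H.MP_08eaf3_pr.EF.Dup

/-!
# Parts E1, E4: positivity and ultrametricity
-/

set_option autoImplicit false

open MeasureTheory Filter

namespace SKC.EF

variable {A : RFam} {I : Type} [Fintype I]

theorem Ultra_off {k : ℕ} (b : Fin k → Fin k → ℝ) (M s : ℝ) (hd : ∀ j, b j j ≤ M)
    (ho : ∀ j j', j ≠ j' → b j j' ≤ s) : ∑ j, ∑ j', b j j' ≤ k * (k * s + (M - s)) := by
  have h1 : ∀ j j', b j j' ≤ s + (if j = j' then M - s else 0) := by
    intro j j'
    by_cases h : j = j'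
    · subst h
      rw [if_pos rfl]
      linarith [hd j]
    · rw [if_neg h]
      linarith [ho j j' h]
  calc ∑ j, ∑ j', b j j' ≤ ∑ j : Fin k, ∑ j' : Fin k, (s + (if j = j' then M - s else 0)) :=
        Finset.sum_le_sum fun j _ => Finset.sum_le_sum fun j' _ => h1 j j'
    _ = k * (k * s + (M - s)) := by
        have h2 : ∀ j : Fin k, ∑ j' : Fin k, (s + (if j = j' then M - s else 0))
            = k * s + (M - s) := by
          intro j
          rw [Finset.sum_add_distrib]
          simp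
        rw [Finset.sum_congr rfl (fun j _ => h2 j)]
        rw [Finset.sum_const, Finset.card_univ, Fintype.card_fin, nsmul_eq_mul]

/-- the reindexing map -/
def Ultra_e (I : Type) (k : ℕ) : I ⊕ Fin (k + 1) → Option (I ⊕ Fin k)
  | Sum.inl i => some (Sum.inl i)
  | Sum.inr j => Fin.lastCases (motive := fun _ => Option (I ⊕ Fin k)) none
      (fun j => some (Sum.inr j)) j

theorem Ultra_e_inl (I : Type) (k : ℕ) (i : I) :
    Ultra_e I k (Sum.inl i) = some (Sum.inl i) := rfl

theorem Ultra_e_last (I : Type) (k : ℕ) : Ultra_e I k (Sum.inr (Fin.last k)) = none := by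
  unfold Ultra_e
  simp

theorem Ultra_e_cast (I : Type) (k : ℕ) (j : Fin k) :
    Ultra_e I k (Sum.inr j.castSucc) = some (Sum.inr j) := by
  unfold Ultra_e
  simp

theorem Ultra_e_inj (I : Type) (k : ℕ) : Function.Injective (Ultra_e I k) := by
  rintro (i | j) (i' | j') h
  · rw [Ultra_e_inl, Ultra_e_inl] at h
    simpa using h
  · exfalso
    induction j' using Fin.lastCases with
    | last => rw [Ultra_e_inl, Ultra_e_last] at h; cases h
    | cast j' => rw [Ultra_e_inl, Ultra_e_cast] at h; simp at h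
  · exfalso
    induction j using Fin.lastCases with
    | last => rw [Ultra_e_inl, Ultra_e_last] at h; cases h
    | cast j => rw [Ultra_e_inl, Ultra_e_cast] at h; simp at h
  · induction j using Fin.lastCases with
    | last =>
      induction j' using Fin.lastCases with
      | last => rfl
      | cast j' => rw [Ultra_e_last, Ultra_e_cast] at h; cases h
    | cast j =>
      induction j' using Fin.lastCases with
      | last => rw [Ultra_e_last, Ultra_e_cast] at h; cases h
      | cast j' =>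
        rw [Ultra_e_cast, Ultra_e_cast] at h
        have h2 : j = j' := by simpa using h
        rw [h2]

/-- `k` duplicates (induction on `k`, always duplicating `inl i0`; `Option (I ⊕ Fin k) ≃ I ⊕ Fin (k+1)`) -/
theorem Supp.dupn {K : Ker A ℝ} {M : ℝ} (hK : IsGram A K M) (hG : GGC A K) {a : I → I → ℝ} (ha : Supp A K I a)
    (i0 l1 : I) (hl : l1 ≠ i0) (s : ℝ) (hs : ∀ l, l ≠ i0 → a i0 l ≤ s) (k : ℕ) :
    ∃ a' : (I ⊕ Fin k) → (I ⊕ Fin k) → ℝ, Supp A K (I ⊕ Fin k) a' ∧
      (∀ l l', a' (Sum.inl l) (Sum.inl l') = a l l') ∧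
      (∀ j l, l ≠ i0 → a' (Sum.inr j) (Sum.inl l) = a i0 l) ∧
      (∀ j, a' (Sum.inr j) (Sum.inl i0) ≤ s) ∧ (∀ j j', j ≠ j' → a' (Sum.inr j) (Sum.inr j') ≤ s) := by
  induction k with
  | zero =>
    refine ⟨fun p q => a ((Equiv.sumEmpty I (Fin 0)) p) ((Equiv.sumEmpty I (Fin 0)) q),
      ha.marg _ (Equiv.injective _), ?_, ?_, ?_, ?_⟩
    · intro l l'
      simp
    · intro j
      exact j.elim0
    · intro j
      exact j.elim0
    · intro j
      exact j.elim0
  | succ k ih =>
    obtain ⟨a', h1, h2, h3, h4, h5⟩ := ih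
    have sy := (Supp.gram hK h1).1
    have hs' : ∀ l, l ≠ (Sum.inl i0 : I ⊕ Fin k) → a' (Sum.inl i0) l ≤ s := by
      rintro (l | j) hl'
      · rw [h2]
        exact hs l (fun h => hl' (by rw [h]))
      · rw [sy]
        exact h4 j
    obtain ⟨b, g1, g2, g3, g4, g5⟩ := Supp.dup hK hG h1 (Sum.inl i0) (Sum.inl l1)
      (fun h => hl (Sum.inl_injective h)) s hs'
    have sb := (Supp.gram hK g1).1
    refine ⟨fun p q => b (Ultra_e I k p) (Ultra_e I k q), g1.marg _ (Ultra_e_inj I k),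
      ?_, ?_, ?_, ?_⟩
    · intro l l'
      show b (Ultra_e I k (Sum.inl l)) (Ultra_e I k (Sum.inl l')) = a l l'
      rw [Ultra_e_inl, Ultra_e_inl, g2, h2]
    · intro j l hl'
      show b (Ultra_e I k (Sum.inr j)) (Ultra_e I k (Sum.inl l)) = a i0 l
      rw [Ultra_e_inl]
      induction j using Fin.lastCases with
      | last =>
        rw [Ultra_e_last, g3 _ (fun h => hl' (Sum.inl_injective h)), h2]
      | cast j => rw [Ultra_e_cast, g2, h3 j l hl']
    · intro j
      show b (Ultra_e I k (Sum.inr j)) (Ultra_e I k (Sum.inl i0)) ≤ s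
      rw [Ultra_e_inl]
      induction j using Fin.lastCases with
      | last => rw [Ultra_e_last, sb]; exact g5
      | cast j => rw [Ultra_e_cast, g2]; exact h4 j
    · intro j j' hj
      show b (Ultra_e I k (Sum.inr j)) (Ultra_e I k (Sum.inr j')) ≤ s
      induction j using Fin.lastCases with
      | last =>
        induction j' using Fin.lastCases with
        | last => exact absurd rfl hj
        | cast j' =>
          rw [Ultra_e_last, Ultra_e_cast, g3 _ (by simp)]
          exact hs' _ (by simp)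
      | cast j =>
        induction j' using Fin.lastCases with
        | last =>
          rw [Ultra_e_last, Ultra_e_cast, sb, g3 _ (by simp)]
          exact hs' _ (by simp)
        | cast j' =>
          rw [Ultra_e_cast, Ultra_e_cast, g2]
          exact h5 j j' (fun h => hj (by rw [h]))

/-- E1 (positivity): `k` duplicates with pairwise overlaps `≤ -s < 0` contradict the Gram property for large `k`. -/
theorem supp_nonneg {K : Ker A ℝ} {M : ℝ} (hK : IsGram A K M) (hG : GGC A K) {a : Fin 2 → Fin 2 → ℝ}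
    (ha : Supp A K (Fin 2) a) : 0 ≤ a 0 1 := by
  by_contra hneg
  push Not at hneg
  obtain ⟨k0, hk0⟩ := exists_nat_gt ((M - a 0 1) / (-a 0 1))
  rw [div_lt_iff₀ (by linarith)] at hk0
  obtain ⟨b, g1, g2, g3, g4, g5⟩ := Supp.dupn hK hG ha 0 1 (by decide) (a 0 1) (by
    intro l hl
    fin_cases l
    · exact absurd rfl hl
    · exact le_rfl) (k0 + 1)
  obtain ⟨q1, q2, q3⟩ := Supp.gram hK g1
  have key := q3 (Sum.elim (fun _ => 0) (fun _ => 1))
  simp only [Fintype.sum_sum_type, Sum.elim_inl, Sum.elim_inr, zero_mul, mul_zero, one_mul,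
    Finset.sum_const_zero, zero_add] at key
  have h2 := Ultra_off (fun j j' => b (Sum.inr j) (Sum.inr j')) M (a 0 1) (fun j => q2 _)
    (fun j j' h => g5 j j' h)
  have h3 : ((k0 + 1 : ℕ) : ℝ) * (((k0 + 1 : ℕ) : ℝ) * a 0 1 + (M - a 0 1)) < 0 := by
    apply mul_neg_of_pos_of_neg
    · positivity
    · push_cast
      nlinarith
  linarith

theorem Ultra_aux {K : Ker A ℝ} {M : ℝ} (hK : IsGram A K M) (hG : GGC A K) {a : Fin 3 → Fin 3 → ℝ}
    (ha : Supp A K (Fin 3) a) (h1 : a 1 2 < a 0 1) (h2 : a 0 1 ≤ a 0 2) : False := by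
  obtain ⟨y1, y2, -⟩ := Supp.gram hK ha
  have hM' : 0 < max M 1 := lt_of_lt_of_le one_pos (le_max_right _ _)
  have hδ : 0 < (a 0 1 - a 1 2) ^ 2 / max M 1 := by
    have : 0 < a 0 1 - a 1 2 := by linarith
    positivity
  obtain ⟨k0, hk0⟩ := exists_nat_gt (2 * (M - a 0 2) / ((a 0 1 - a 1 2) ^ 2 / max M 1))
  rw [div_lt_iff₀ hδ] at hk0
  obtain ⟨b, b1, b2, b3, b4, b5⟩ := Supp.dupn hK hG ha 0 1 (by decide) (a 0 2) (by
    intro l hl
    fin_cases l
    · exact absurd rfl hl
    · exact h2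
    · exact le_rfl) (k0 + 1)
  obtain ⟨z1, -, -⟩ := Supp.gram hK b1
  obtain ⟨d, d1, d2, d3, d4, d5⟩ := Supp.dupn hK hG b1 (Sum.inl 2) (Sum.inl 1)
    (fun h => absurd (Sum.inl_injective h) (by decide)) (a 0 2) (by
      rintro (l | j) hl
      · rw [b2]
        fin_cases l
        · exact le_of_eq (y1 2 0)
        · show a 2 1 ≤ a 0 2
          rw [y1 2 1]
          linarith
        · exact absurd rfl hl
      · rw [z1, b3 j 2 (by decide)]) (k0 + 1)
  obtain ⟨w1, w2, w3⟩ := Supp.gram hK d1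
  -- the values needed
  have e11 : d (Sum.inl (Sum.inl 1)) (Sum.inl (Sum.inl 1)) ≤ M := w2 _
  have e01 : ∀ j, d (Sum.inl (Sum.inr j)) (Sum.inl (Sum.inl 1)) = a 0 1 := by
    intro j
    rw [d2, b3 j 1 (by decide)]
  have e10 : ∀ j, d (Sum.inl (Sum.inl 1)) (Sum.inl (Sum.inr j)) = a 0 1 := by
    intro j
    rw [w1, e01]
  have e21 : ∀ j, d (Sum.inr j) (Sum.inl (Sum.inl 1)) = a 1 2 := by
    intro j
    rw [d3 j (Sum.inl 1) (fun h => absurd (Sum.inl_injective h) (by decide)), b2, y1]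
  have e12 : ∀ j, d (Sum.inl (Sum.inl 1)) (Sum.inr j) = a 1 2 := by
    intro j
    rw [w1, e21]
  have e20 : ∀ j j', d (Sum.inr j) (Sum.inl (Sum.inr j')) = a 0 2 := by
    intro j j'
    rw [d3 j (Sum.inr j') (by simp), z1, b3 j' 2 (by decide)]
  have e02 : ∀ j j', d (Sum.inl (Sum.inr j')) (Sum.inr j) = a 0 2 := by
    intro j j'
    rw [w1, e20]
  have s0 := Ultra_off (fun j j' => d (Sum.inl (Sum.inr j)) (Sum.inl (Sum.inr j'))) M (a 0 2)
    (fun j => w2 _) (fun j j' h => by
      show d (Sum.inl (Sum.inr j)) (Sum.inl (Sum.inr j')) ≤ a 0 2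
      rw [d2]
      exact b5 j j' h)
  have s2 := Ultra_off (fun j j' => d (Sum.inr j) (Sum.inr j')) M (a 0 2)
    (fun j => w2 _) (fun j j' h => d5 j j' h)
  set k : ℝ := ((k0 + 1 : ℕ) : ℝ) with hk
  have hkpos : 0 < k := by
    rw [hk]
    positivity
  set y : ℝ := -(a 0 1 - a 1 2) / max M 1 with hy
  have key := w3 (Sum.elim (Sum.elim ![0, k * y, 0] (fun _ => 1)) (fun _ => -1))
  simp only [Fintype.sum_sum_type, Sum.elim_inl, Sum.elim_inr, Fin.sum_univ_three,
    Matrix.cons_val_zero, Matrix.cons_val_one, Matrix.cons_val_two, Matrix.head_cons,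
    Matrix.tail_cons, Matrix.cons_val, zero_mul, mul_zero, one_mul, mul_one, neg_mul, mul_neg,
    neg_neg, Finset.sum_const_zero, zero_add, add_zero, Finset.sum_neg_distrib,
    Finset.sum_add_distrib, e01, e10, e21, e12, e20, e02, Finset.sum_const, Finset.card_univ,
    Fintype.card_fin, nsmul_eq_mul] at key
  have hyM : y ^ 2 * M ≤ (a 0 1 - a 1 2) ^ 2 / max M 1 := by
    have e : y ^ 2 * max M 1 = (a 0 1 - a 1 2) ^ 2 / max M 1 := by
      rw [hy]
      field_simp
    calc y ^ 2 * M ≤ y ^ 2 * max M 1 := mul_le_mul_of_nonneg_left (le_max_left _ _) (sq_nonneg _)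
      _ = _ := e
  have hyc : y * (a 0 1 - a 1 2) = - ((a 0 1 - a 1 2) ^ 2 / max M 1) := by
    rw [hy]
    field_simp
  have hkk : k0 < k := by
    rw [hk]
    push_cast
    linarith
  set δ := (a 0 1 - a 1 2) ^ 2 / max M 1 with hδd
  have f1 : (k * y) ^ 2 * d (Sum.inl (Sum.inl 1)) (Sum.inl (Sum.inl 1)) ≤ k ^ 2 * δ := by
    calc (k * y) ^ 2 * d (Sum.inl (Sum.inl 1)) (Sum.inl (Sum.inl 1)) ≤ (k * y) ^ 2 * M :=
          mul_le_mul_of_nonneg_left e11 (sq_nonneg _)
      _ = k ^ 2 * (y ^ 2 * M) := by ring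
      _ ≤ k ^ 2 * δ := mul_le_mul_of_nonneg_left hyM (sq_nonneg _)
  have f2 : 2 * (M - a 0 2) < k * δ := by nlinarith
  have f3 : k * (2 * (M - a 0 2)) < k * (k * δ) := mul_lt_mul_of_pos_left f2 hkpos
  have f4 : k ^ 2 * (y * (a 0 1 - a 1 2)) = - (k ^ 2 * δ) := by
    rw [hyc]
    ring
  nlinarith [key, s0, s2, f1, f3, f4]

/-- E4 (ultrametricity). If `c = a 1 2 < a 0 1 = α ≤ β = a 0 2` (or with 1, 2 exchanged): duplicate replica `0` and replica `2` `k` times (row
maxima `β`), test the Gram property with `1/k` on the copies of `0`, `-1/k` on the copies of `2`, `y = -(α - c)/M'` on replica `1`: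
`0 ≤ C/k + 2y(α - c) + y² M'` (`M' = max M 1`). -/
theorem supp_ultra {K : Ker A ℝ} {M : ℝ} (hK : IsGram A K M) (hG : GGC A K) {a : Fin 3 → Fin 3 → ℝ}
    (ha : Supp A K (Fin 3) a) : min (a 0 1) (a 0 2) ≤ a 1 2 := by
  by_contra hcon
  push Not at hcon
  obtain ⟨c1, c2⟩ := lt_min_iff.mp hcon
  obtain ⟨y1, -, -⟩ := Supp.gram hK ha
  rcases le_total (a 0 1) (a 0 2) with h | h
  · exact Ultra_aux hK hG ha c1 h
  · have hinj : Function.Injective (![0, 2, 1] : Fin 3 → Fin 3) := by decide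
    have hm := ha.marg (![0, 2, 1] : Fin 3 → Fin 3) hinj
    refine Ultra_aux hK hG hm ?_ ?_
    · show a 2 1 < a 0 2
      rw [y1]
      exact c2
    · exact h

end SKC.EF
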