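import Pool.Agent.H.MP_08eaf3_pr.EF.FSup
import Pool.Agent.H.MP_08eaf3_pr.EF.Ultra

/-!
# Part F1: the quadratic forms of the overlap matrix are Gram kernels; positivity
-/

set_option autoImplicit false

open MeasureTheory Filter

namespace SKC.EF

variable {A : RFam} {R : Ker A Mt} {u : ℝ} {I : Type} [Fintype I]

/-- bound of the quadratic form on the box -/
theorem FOrdA_qf_le (v : Fin 2 → ℝ) (M : Mt) (hM : ∀ i j, |M i j| ≤ 1) : qf v M ≤ (|v 0| + |v 1|) ^ 2 := by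
  unfold qf
  have h00 : v 0 ^ 2 * M 0 0 ≤ v 0 ^ 2 := by
    have := (le_abs_self (M 0 0)).trans (hM 0 0)
    nlinarith [sq_nonneg (v 0)]
  have h11 : v 1 ^ 2 * M 1 1 ≤ v 1 ^ 2 := by
    have := (le_abs_self (M 1 1)).trans (hM 1 1)
    nlinarith [sq_nonneg (v 1)]
  have h01 : v 0 * v 1 * (M 0 1 + M 1 0) ≤ 2 * (|v 0| * |v 1|) := by
    refine (le_abs_self _).trans ?_
    rw [abs_mul, abs_mul]
    have h2 : |M 0 1 + M 1 0| ≤ 2 := by
      have := abs_add_le (M 0 1) (M 1 0)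
      have h3 := hM 0 1
      have h4 := hM 1 0
      linarith
    have := mul_le_mul_of_nonneg_left h2 (mul_nonneg (abs_nonneg (v 0)) (abs_nonneg (v 1)))
    linarith
  have e : (|v 0| + |v 1|) ^ 2 = v 0 ^ 2 + v 1 ^ 2 + 2 * (|v 0| * |v 1|) := by
    have h1 := sq_abs (v 0)
    have h2 := sq_abs (v 1)
    rw [← h1, ← h2]
    ring
  linarith

/-- positivity of the sums of the quadratic form -/
theorem FOrdA_psd (h : PK A R u) (v : Fin 2 → ℝ) (n : A.ι) (I : Type) [Fintype I] (ρ : I → (A.S n).C)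
    (x : I → ℝ) : 0 ≤ ∑ l, ∑ l', x l * x l' * qf v (R n (ρ l) (ρ l')) := by
  have h1 := h.psd n I ρ (fun l i => x l * v i)
  refine h1.trans (le_of_eq ?_)
  refine Finset.sum_congr rfl fun l _ => Finset.sum_congr rfl fun l' _ => ?_
  simp only [Fin.sum_univ_two]
  unfold qf
  ring

/-- `α q_v + β q_w` is a Gram kernel (`PK.psd` with `x l i = y l * v i`) -/
theorem PK.isGram (h : PK A R u) (v w : Fin 2 → ℝ) {α β : ℝ} (hα : 0 ≤ α) (hβ : 0 ≤ β) :
    IsGram A (fun n c c' => α * qf v (R n c c') + β * qf w (R n c c'))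
      (α * (|v 0| + |v 1|) ^ 2 + β * (|w 0| + |w 1|) ^ 2) := by
  refine ⟨?_, ?_, ?_⟩
  · intro n c c'
    have e : ∀ v : Fin 2 → ℝ, qf v (R n c c') = qf v (R n c' c) := by
      intro v
      unfold qf
      rw [h.symm n c c' 0 0, h.symm n c c' 1 1, h.symm n c c' 0 1, h.symm n c c' 1 0]
      ring
    simp only [e]
  · intro n c
    have h1 := mul_le_mul_of_nonneg_left (FOrdA_qf_le v (R n c c) (h.bd n c c)) hα
    have h2 := mul_le_mul_of_nonneg_left (FOrdA_qf_le w (R n c c) (h.bd n c c)) hβ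
    exact add_le_add h1 h2
  · intro n I _ ρ x
    have h1 := mul_nonneg hα (FOrdA_psd h v n I ρ x)
    have h2 := mul_nonneg hβ (FOrdA_psd h w n I ρ x)
    refine (add_nonneg h1 h2).trans (le_of_eq ?_)
    rw [Finset.mul_sum, Finset.mul_sum, ← Finset.sum_add_distrib]
    refine Finset.sum_congr rfl fun l _ => ?_
    rw [Finset.mul_sum, Finset.mul_sum, ← Finset.sum_add_distrib]
    refine Finset.sum_congr rfl fun l' _ => ?_
    ring

theorem PK.ggc (h : PK A R u) (v w : Fin 2 → ℝ) (α β : ℝ) :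
    GGC A (fun n c c' => α * qf v (R n c c') + β * qf w (R n c c')) := by
  intro φ hφ _
  exact h.gg (fun p => φ (α * (v 0 ^ 2 * p.1 + v 1 ^ 2 * p.2.1 + v 0 * v 1 * p.2.2)
    + β * (w 0 ^ 2 * p.1 + w 1 ^ 2 * p.2.1 + w 0 * w 1 * p.2.2)))
    (hφ.comp (by fun_prop))

theorem FOrdA_cont (v : Fin 2 → ℝ) : Continuous (qf v) := by
  unfold qf
  fun_prop

/-- positivity (`supp_nonneg`, `Supp.map`) -/
theorem PK.qf_nonneg (h : PK A R u) {M : Mt} (hM : M ∈ TT A R) (v : Fin 2 → ℝ) : 0 ≤ qf v M := by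
  obtain ⟨a, ha, rfl⟩ := hM
  have hg : Continuous (fun M : Mt => 1 * qf v M + 0 * qf v M) :=
    (continuous_const.mul (FOrdA_cont v)).add (continuous_const.mul (FOrdA_cont v))
  have h1 := supp_nonneg (h.isGram v v zero_le_one le_rfl) (h.ggc v v 1 0) (Supp.map hg ha)
  simpa using h1

/-- Gram property with `x = v` on replica 0 and `-v` on replica 1: `2 q_v(M) ≤ 2 q_v(D)` -/
theorem PK.qf_le (h : PK A R u) {M : Mt} (hM : M ∈ TT A R) (v : Fin 2 → ℝ) : qf v M ≤ qf v (mat 1 1 u) := by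
  obtain ⟨a, ha, rfl⟩ := hM
  have h1 := h.supp_psd ha (fun l i => if l = 0 then v i else - v i)
  have hs : ∀ i j, a 1 0 i j = a 0 1 j i := fun i j => h.supp_symm ha 1 0 i j
  have h0 : ∀ i j, a 0 0 i j = mat 1 1 u i j := fun i j => h.supp_diag ha 0 i j
  have h11 : ∀ i j, a 1 1 i j = mat 1 1 u i j := fun i j => h.supp_diag ha 1 i j
  simp only [Fin.sum_univ_two, hs, h0, h11, if_true, if_neg (show ¬ (1 : Fin 2) = 0 by decide)] at h1
  unfold qf
  nlinarith [h1]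

end SKC.EF
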