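import Pool.Agent.H.MP_08eaf3_pr.EF.FOrdA
import Pool.Agent.H.MP_08eaf3_pr.EF.FAtt

/-!
# Part F1: ultrametricity and total order
-/

set_option autoImplicit false

open MeasureTheory Filter

namespace SKC.EF

variable {A : RFam} {R : Ker A Mt} {u : ℝ} {I : Type} [Fintype I]

/-- ultrametricity of `α q_v + β q_w` for any three replicas (`supp_ultra`, `Supp.map`, `Supp.marg`) -/
theorem PK.ultra_comb (h : PK A R u) (v w : Fin 2 → ℝ) {α β : ℝ} (hα : 0 ≤ α) (hβ : 0 ≤ β)
    {a : I → I → Mt} (ha : Supp A R I a) {i j k : I} (hij : i ≠ j) (hik : i ≠ k) (hjk : j ≠ k) :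
    min (α * qf v (a i j) + β * qf w (a i j)) (α * qf v (a i k) + β * qf w (a i k))
      ≤ α * qf v (a j k) + β * qf w (a j k) := by
  have hinj : Function.Injective (![i, j, k] : Fin 3 → I) := by
    intro x y hxy
    fin_cases x <;> fin_cases y <;> simp_all
  have h1 := ha.marg (![i, j, k] : Fin 3 → I) hinj
  have hg : Continuous (fun M : Mt => α * qf v M + β * qf w M) := by
    unfold qf
    fun_prop
  have h2 := h1.map hg
  have h3 := supp_ultra (h.isGram v w hα hβ) (h.ggc v w α β) h2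
  simpa using h3

/-- ultrametricity of the trace (`v, w` = basis vectors) -/
theorem PK.ultra_tr (h : PK A R u) {a : I → I → Mt} (ha : Supp A R I a) {i j k : I}
    (hij : i ≠ j) (hik : i ≠ k) (hjk : j ≠ k) :
    min (tr2 (a i j)) (tr2 (a i k)) ≤ tr2 (a j k) := by
  have h1 := h.ultra_comb ![1, 0] ![0, 1] (α := 1) (β := 1) zero_le_one zero_le_one ha hij hik hjk
  have e : ∀ M : Mt, (1 : ℝ) * qf ![1, 0] M + 1 * qf ![0, 1] M = tr2 M := by
    intro M
    simp [qf, tr2]
  simpa only [e] using h1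

/-- total order. There are support arrays on `Option (Fin 2)` with `tv a(0,1) = tv M`, `tv a(0,none) = tv M'` (`PK.att`). If `q_v M > q_v M'` and
`q_w M < q_w M'`, take `α = 1/(q_v M - q_v M')`, `β = 1/(q_w M' - q_w M)`, `V = α q_v + β q_w`: with `z = a(1,none)`, ultrametricity of `q_v`, `q_w` gives
`q_v z = q_v M'`, `q_w z = q_w M`, so `V(z) = V(M) - 1 = V(M') - 1 < min (V M) (V M')`, a contradiction. -/
theorem PK.total (h : PK A R u) {M M' : Mt} (hM : M ∈ TT A R) (hM' : M' ∈ TT A R) :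
    (∀ v, qf v M ≤ qf v M') ∨ (∀ v, qf v M' ≤ qf v M) := by
  by_contra hcon
  rw [not_or] at hcon
  obtain ⟨hc1, hc2⟩ := hcon
  push Not at hc1 hc2
  obtain ⟨v, hv⟩ := hc1
  obtain ⟨w, hw⟩ := hc2
  obtain ⟨a, ha, haM⟩ := hM
  obtain ⟨b, hb, hbe, hbt⟩ := h.att ha 0 hM'
  have hqtv : ∀ (x : Fin 2 → ℝ) (P : Mt), qf x P = x 0 ^ 2 * (tv P).1 + x 1 ^ 2 * (tv P).2.1 + x 0 * x 1 * (tv P).2.2 :=
    fun x P => rfl
  have hsym : ∀ (x : Fin 2 → ℝ) (l l' : Option (Fin 2)), qf x (b l l') = qf x (b l' l) := by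
    intro x l l'
    unfold qf
    rw [h.supp_symm hb l l' 0 0, h.supp_symm hb l l' 1 1, h.supp_symm hb l l' 0 1, h.supp_symm hb l l' 1 0]
    ring
  have h01 : ∀ x : Fin 2 → ℝ, qf x (b (some 0) (some 1)) = qf x M := by
    intro x
    rw [hbe 0 1, haM]
  have h0n : ∀ x : Fin 2 → ℝ, qf x (b (some 0) none) = qf x M' := by
    intro x
    rw [hqtv, hbt, ← hqtv]
  have n01 : (some 0 : Option (Fin 2)) ≠ some 1 := by decide
  have n0n : (some 0 : Option (Fin 2)) ≠ none := by decide
  have n1n : (some 1 : Option (Fin 2)) ≠ none := by decide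
  -- one quadratic form
  have one : ∀ x : Fin 2 → ℝ, ∀ l l' l'' : Option (Fin 2), l ≠ l' → l ≠ l'' → l' ≠ l'' →
      min (qf x (b l l')) (qf x (b l l'')) ≤ qf x (b l' l'') := by
    intro x l l' l'' h1 h2 h3
    have := h.ultra_comb x x (α := 1) (β := 0) zero_le_one le_rfl hb h1 h2 h3
    simpa using this
  set z := b (some 1) none with hz
  -- q_v z = q_v M'
  have v1 : qf v M' ≤ qf v z := by
    have := one v (some 0) (some 1) none n01 n0n n1n
    rw [h01, h0n, min_eq_right hv.le] at this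
    exact this
  have v2 : qf v z ≤ qf v M' := by
    have := one v (some 1) (some 0) none n01.symm n1n n0n
    rw [hsym v (some 1) (some 0), h01, h0n] at this
    rcases min_le_iff.1 this with h' | h'
    · exact absurd h' (not_le.2 hv)
    · exact h'
  have w1 : qf w M ≤ qf w z := by
    have := one w (some 0) (some 1) none n01 n0n n1n
    rw [h01, h0n, min_eq_left hw.le] at this
    exact this
  have w2 : qf w z ≤ qf w M := by
    have := one w none (some 0) (some 1) n0n.symm n1n.symm n01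
    rw [hsym w none (some 0), h01, h0n, hsym w none (some 1)] at this
    rcases min_le_iff.1 this with h' | h'
    · exact absurd h' (not_le.2 hw)
    · exact h'
  have ev : qf v z = qf v M' := le_antisymm v2 v1
  have ew : qf w z = qf w M := le_antisymm w2 w1
  have dv : 0 < qf v M - qf v M' := sub_pos.2 hv
  have dw : 0 < qf w M' - qf w M := sub_pos.2 hw
  have key := h.ultra_comb v w (α := 1 / (qf v M - qf v M')) (β := 1 / (qf w M' - qf w M))
    (one_div_pos.2 dv).le (one_div_pos.2 dw).le hb n01 n0n n1n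
  rw [h01, h01, h0n, h0n, ← hz, ev, ew] at key
  have e1 : 1 / (qf v M - qf v M') * qf v M + 1 / (qf w M' - qf w M) * qf w M
      = 1 / (qf v M - qf v M') * qf v M' + 1 / (qf w M' - qf w M) * qf w M + 1 := by
    field_simp
    ring
  have e2 : 1 / (qf v M - qf v M') * qf v M' + 1 / (qf w M' - qf w M) * qf w M'
      = 1 / (qf v M - qf v M') * qf v M' + 1 / (qf w M' - qf w M) * qf w M + 1 := by
    field_simp
    ring
  rw [e1, e2, min_self] at key
  linarith

end SKC.EF
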