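import Pool.Agent.H.MP_08eaf3_pr.EF.PKDef

/-!
# Translation to positive semidefinite matrices
-/

set_option autoImplicit false

open MeasureTheory Filter

namespace SKC.EF

theorem psd_of_qf {P : Matrix (Fin 2) (Fin 2) ℝ} (hP : P 0 1 = P 1 0) (h : ∀ v, 0 ≤ qf v P) : P.PosSemidef := by
  rw [Matrix.posSemidef_iff_dotProduct_mulVec]
  refine ⟨?_, fun x => ?_⟩
  · ext i j
    rw [Matrix.conjTranspose_apply]
    fin_cases i <;> fin_cases j <;> simp [hP]
  · have h1 := h x
    unfold qf at h1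
    simp only [dotProduct, Matrix.mulVec, Fin.sum_univ_two, Pi.star_apply, star_trivial]
    linarith

/-- quadratic forms and positive semidefiniteness for symmetric 2x2 matrices -/
theorem psd_sub_of_qf {P P' : Matrix (Fin 2) (Fin 2) ℝ} (hP : P 0 1 = P 1 0) (hP' : P' 0 1 = P' 1 0)
    (h : ∀ v, qf v P ≤ qf v P') : (P' - P).PosSemidef := by
  refine psd_of_qf ?_ fun v => ?_
  · rw [Matrix.sub_apply, Matrix.sub_apply, hP, hP']
  · have h1 := h v
    unfold qf at h1 ⊢
    simp only [Matrix.sub_apply]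
    linarith

theorem trace_eq_tr2 (P : Matrix (Fin 2) (Fin 2) ℝ) : Matrix.trace P = tr2 P :=
  Matrix.trace_fin_two P

end SKC.EF
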