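import Pool.Agent.H.MP_08eaf3_pr.EF.SuppB

/-!
# Averages of continuous functions of the array only depend on the values on the support
-/

set_option autoImplicit false

open MeasureTheory Filter

namespace SKC.EF

variable {A : RFam} {I : Type} [Fintype I] {E : Type} [PseudoMetricSpace E]

/-- continuous functions of the array are bounded observables -/
theorem bd_of_cont {T : Ker A E} {𝒦 : Set E} (h𝒦 : IsCompact 𝒦) (hT : ∀ n c c', T n c c' ∈ 𝒦)
    {Φ : (I → I → E) → ℝ} (hΦ : Continuous Φ) :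
    ∃ M, Obs.Bd (A := A) (I := I) (fun _ ρ => Φ (T.arr ρ)) M := by
  have hC : IsCompact (Set.univ.pi fun _ : I => Set.univ.pi fun _ : I => 𝒦) :=
    isCompact_univ_pi fun _ => isCompact_univ_pi fun _ => h𝒦
  obtain ⟨M, hM⟩ := hC.exists_bound_of_continuousOn hΦ.continuousOn
  refine ⟨M, fun n ρ => ?_⟩
  have h1 := hM (T.arr ρ) fun l _ l' _ => hT n _ _
  rwa [Real.norm_eq_abs] at h1

/-- monotone version: for every `ε > 0` the closed set `{Φ ≥ Ψ + ε}` contains no support point, so it has probability `0`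
(`Supp.exists_mem`). -/
theorem L_le_supp {T : Ker A E} {𝒦 : Set E} (h𝒦 : IsCompact 𝒦) (hT : ∀ n c c', T n c c' ∈ 𝒦)
    {Φ Ψ : (I → I → E) → ℝ} (hΦ : Continuous Φ) (hΨ : Continuous Ψ) (h : ∀ a, Supp A T I a → Φ a ≤ Ψ a) :
    A.L I (fun _ ρ => Φ (T.arr ρ)) ≤ A.L I (fun _ ρ => Ψ (T.arr ρ)) := by
  refine le_of_forall_pos_le_add fun ε hε => ?_
  obtain ⟨MG, hMG⟩ := bd_of_cont (I := I) h𝒦 hT (hΦ.max hΨ)
  obtain ⟨MΦ, hMΦ⟩ := bd_of_cont (I := I) h𝒦 hT hΦ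
  obtain ⟨MΨ, hMΨ⟩ := bd_of_cont (I := I) h𝒦 hT hΨ
  have hX : IsClosed {a : I → I → E | Ψ a + ε ≤ Φ a} := isClosed_le (hΨ.add continuous_const) hΦ
  have hE : A.Pr I (fun _ ρ => T.arr ρ ∈ {a : I → I → E | Ψ a + ε ≤ Φ a}) = 0 := by
    refine le_antisymm ?_ (A.Pr_nonneg _)
    by_contra hcon
    push Not at hcon
    obtain ⟨a, haX, ha⟩ := Supp.exists_mem h𝒦 hT hX hcon
    have h1 : Ψ a + ε ≤ Φ a := haX
    have h2 := h a ha
    linarith
  have h1 := RFam.abs_L_sub_le A hMG hMΨ hε.le _ hE fun n ρ hρ => by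
    have h2 : Φ (T.arr ρ) < Ψ (T.arr ρ) + ε := not_le.1 hρ
    have h3 : Ψ (T.arr ρ) ≤ max (Φ (T.arr ρ)) (Ψ (T.arr ρ)) := le_max_right _ _
    have h4 : max (Φ (T.arr ρ)) (Ψ (T.arr ρ)) ≤ Ψ (T.arr ρ) + ε := max_le h2.le (by linarith)
    rw [abs_of_nonneg (by linarith)]
    linarith
  have h2 := A.L_mono hMΦ hMG fun n ρ => le_max_left _ _
  have h3 := (abs_le.1 h1).2
  linarith

theorem L_congr_supp {T : Ker A E} {𝒦 : Set E} (h𝒦 : IsCompact 𝒦) (hT : ∀ n c c', T n c c' ∈ 𝒦)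
    {Φ Ψ : (I → I → E) → ℝ} (hΦ : Continuous Φ) (hΨ : Continuous Ψ) (h : ∀ a, Supp A T I a → Φ a = Ψ a) :
    A.L I (fun _ ρ => Φ (T.arr ρ)) = A.L I (fun _ ρ => Ψ (T.arr ρ)) := by
  exact le_antisymm (L_le_supp h𝒦 hT hΦ hΨ fun a ha => (h a ha).le)
    (L_le_supp h𝒦 hT hΨ hΦ fun a ha => (h a ha).ge)

/-- a nonnegative continuous function that is positive at a support point has positive average
(`Supp` gives a ball of positive probability on which `Φ ≥ Φ(a)/2`, `RFam.le_L_of_le_on`). -/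
theorem L_pos_supp {T : Ker A E} {𝒦 : Set E} (h𝒦 : IsCompact 𝒦) (hT : ∀ n c c', T n c c' ∈ 𝒦)
    {Φ : (I → I → E) → ℝ} (hΦ : Continuous Φ) (h0 : ∀ a, 0 ≤ Φ a) {a : I → I → E} (ha : Supp A T I a) (hp : 0 < Φ a) :
    0 < A.L I (fun _ ρ => Φ (T.arr ρ)) := by
  obtain ⟨M, hM⟩ := bd_of_cont (I := I) h𝒦 hT hΦ
  have hO : IsOpen {b : I → I → E | Φ a / 2 < Φ b} := isOpen_lt continuous_const hΦ
  have haO : a ∈ {b : I → I → E | Φ a / 2 < Φ b} := by
    change Φ a / 2 < Φ a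
    linarith
  obtain ⟨ε, hε, hball⟩ := Metric.isOpen_iff.1 hO a haO
  have h1 := ha (ε / 2) (half_pos hε)
  have h2 := A.le_L_of_le_on (a := Φ a / 2) hM (fun n ρ => h0 _)
    (fun n ρ => ∀ l l', dist (T n (ρ l) (ρ l')) (a l l') ≤ ε / 2) (fun n ρ hρ => by
      have h3 : (T.arr ρ : I → I → E) ∈ Metric.ball a ε := by
        rw [Metric.mem_ball]
        refine lt_of_le_of_lt ?_ (half_lt_self hε)
        rw [dist_pi_le_iff (half_pos hε).le]
        intro l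
        rw [dist_pi_le_iff (half_pos hε).le]
        intro l'
        exact hρ l l'
      have h4 : Φ a / 2 < Φ (T.arr ρ) := hball h3
      exact h4.le) (half_pos hp).le
  exact (mul_pos (half_pos hp) h1).trans_le h2

end SKC.EF
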