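import Pool.Agent.H.MP_08eaf3_pr.EF.PKDef
import Pool.Agent.H.MP_08eaf3_pr.EF.SuppL

/-!
# Part F: support arrays of the overlap matrices, basic facts
-/

set_option autoImplicit false

open MeasureTheory Filter

namespace SKC.EF

theorem isCompact_box : IsCompact box := by
  have h1 : box = Set.pi Set.univ (fun _ : Fin 2 =>
      Set.pi Set.univ (fun _ : Fin 2 => Set.Icc (-1 : ℝ) 1)) := by
    ext M
    constructor
    · intro h i _ j _
      exact abs_le.1 (h i j)
    · intro h i j
      exact abs_le.2 (h i (Set.mem_univ i) j (Set.mem_univ j))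
  rw [h1]
  exact isCompact_univ_pi fun _ => isCompact_univ_pi fun _ => isCompact_Icc

variable {A : RFam} {R : Ker A Mt} {u : ℝ} {I : Type} [Fintype I]

theorem PK.mem_box (h : PK A R u) (n : A.ι) (c c' : (A.S n).C) : R n c c' ∈ box := by
  exact fun i j => h.bd n c c' i j

theorem FSup_cont (l l' : I) (i j : Fin 2) : Continuous fun b : I → I → Mt => b l l' i j := by
  fun_prop

/-- support arrays: symmetric, bounded, positive semidefinite (`Supp.mem'`) -/
theorem PK.supp_symm (h : PK A R u) {a : I → I → Mt} (ha : Supp A R I a) (l l' : I) (i j : Fin 2) :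
    a l l' i j = a l' l j i := by
  have hX : IsClosed {b : I → I → Mt | b l l' i j = b l' l j i} :=
    isClosed_eq (FSup_cont l l' i j) (FSup_cont l' l j i)
  exact ha.mem' hX fun n ρ => h.symm n (ρ l) (ρ l') i j

theorem PK.supp_bd (h : PK A R u) {a : I → I → Mt} (ha : Supp A R I a) (l l' : I) (i j : Fin 2) :
    |a l l' i j| ≤ 1 := by
  have hX : IsClosed {b : I → I → Mt | |b l l' i j| ≤ 1} :=
    isClosed_le (FSup_cont l l' i j).abs continuous_const
  exact ha.mem' hX fun n ρ => h.bd n (ρ l) (ρ l') i j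

theorem PK.supp_psd (h : PK A R u) {a : I → I → Mt} (ha : Supp A R I a) (x : I → Fin 2 → ℝ) :
    0 ≤ ∑ l, ∑ l', ∑ i, ∑ j, x l i * x l' j * a l l' i j := by
  have hc : Continuous fun b : I → I → Mt => ∑ l, ∑ l', ∑ i, ∑ j, x l i * x l' j * b l l' i j := by
    fun_prop
  have hX : IsClosed {b : I → I → Mt | 0 ≤ ∑ l, ∑ l', ∑ i, ∑ j, x l i * x l' j * b l l' i j} :=
    isClosed_le continuous_const hc
  exact ha.mem' hX fun n ρ => h.psd n I ρ x

theorem FSup_eq {x y : ℝ} (h : ∀ ε : ℝ, 0 < ε → |x - y| ≤ ε) : x = y := by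
  have h1 : |x - y| ≤ 0 := le_of_forall_pos_le_add fun ε hε => by
    rw [zero_add]
    exact h ε hε
  have h2 : |x - y| = 0 := le_antisymm h1 (abs_nonneg _)
  exact sub_eq_zero.1 (abs_eq_zero.1 h2)

/-- the diagonal (`PK.diag`, marginal on one replica by `RFam.Pr_marg`, `Supp.mem`) -/
theorem PK.supp_diag (h : PK A R u) {a : I → I → Mt} (ha : Supp A R I a) (l : I) (i j : Fin 2) :
    a l l i j = mat 1 1 u i j := by
  have hm : Supp A R (Fin 1) (fun _ _ => a l l) :=
    Supp.marg (fun _ : Fin 1 => l) (fun _ _ _ => Subsingleton.elim _ _) ha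
  refine FSup_eq fun ε hε => ?_
  have hX : IsClosed {b : Fin 1 → Fin 1 → Mt | ∀ i j, |b 0 0 i j - mat 1 1 u i j| ≤ ε} := by
    have e1 : {b : Fin 1 → Fin 1 → Mt | ∀ i j, |b 0 0 i j - mat 1 1 u i j| ≤ ε} =
        ⋂ i, ⋂ j, {b : Fin 1 → Fin 1 → Mt | |b 0 0 i j - mat 1 1 u i j| ≤ ε} := by
      ext b
      simp only [Set.mem_iInter, Set.mem_ofPred_eq]
    rw [e1]
    refine isClosed_iInter fun i => isClosed_iInter fun j => ?_
    exact isClosed_le (((FSup_cont 0 0 i j).sub continuous_const).abs) continuous_const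
  exact hm.mem hX (h.diag ε hε) i j

/-- `TT` is the image of the compact set of support arrays of two replicas -/
theorem PK.isCompact_TT (h : PK A R u) : IsCompact (TT A R) := by
  have h1 : TT A R = (fun a : Fin 2 → Fin 2 → Mt => a 0 1) '' {a | Supp A R (Fin 2) a} := rfl
  rw [h1]
  have h2 : IsCompact {a : Fin 2 → Fin 2 → Mt | Supp A R (Fin 2) a} := by
    have h3 : IsCompact (Set.pi Set.univ (fun _ : Fin 2 => Set.pi Set.univ (fun _ : Fin 2 => box))) :=
      isCompact_univ_pi fun _ => isCompact_univ_pi fun _ => isCompact_box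
    refine h3.of_isClosed_subset (Supp.isClosed R) ?_
    intro a ha l _ l' _ i j
    exact h.supp_bd ha l l' i j
  exact h2.image (by fun_prop)

theorem PK.TT_nonempty (h : PK A R u) : (TT A R).Nonempty := by
  have hp : 0 < A.Pr (Fin 2) (fun _ ρ => R.arr ρ ∈ (Set.univ : Set (Fin 2 → Fin 2 → Mt))) := by
    have e1 : A.Pr (Fin 2) (fun _ ρ => R.arr ρ ∈ (Set.univ : Set (Fin 2 → Fin 2 → Mt))) =
        A.L (Fin 2) (fun _ _ => (1 : ℝ)) := by
      unfold RFam.Pr
      congr 1
      funext n ρ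
      exact if_pos (Set.mem_univ _)
    rw [e1, A.L_const]
    exact one_pos
  obtain ⟨a, _, ha⟩ := Supp.exists_mem (T := R) isCompact_box h.mem_box isClosed_univ hp
  exact ⟨a 0 1, a, ha, rfl⟩

/-- entries of support arrays (`Supp.marg` with an injection `Fin 2 → I`) -/
theorem mem_TT {a : I → I → Mt} (ha : Supp A R I a) {l l' : I} (hl : l ≠ l') : a l l' ∈ TT A R := by
  have hj : Function.Injective (![l, l'] : Fin 2 → I) := by
    intro p q hpq
    fin_cases p <;> fin_cases q
    · rfl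
    · exact absurd hpq hl
    · exact absurd hpq hl.symm
    · rfl
  exact ⟨_, Supp.marg ![l, l'] hj ha, rfl⟩

end SKC.EF
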