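import Pool.Agent.H.MP_08eaf3_pr.EF.PKDef

/-!
# Part F4: the linear algebra of two groups of duplicates
-/

set_option autoImplicit false

open MeasureTheory Filter

namespace SKC.EF

/-- Cauchy-Schwarz from nonnegativity of a quadratic polynomial -/
theorem SymA_cs {a b c : ℝ} (h : ∀ t : ℝ, 0 ≤ a * (t * t) + 2 * b * t + c) : b ^ 2 ≤ a * c := by
  have h1 := discrim_le_zero h
  unfold discrim at h1
  nlinarith

/-- averages over the groups -/
noncomputable def SymA_b (k : ℕ) (b : (Fin 2 × Fin k) → (Fin 2 × Fin k) → Mt) (g g' i j : Fin 2) : ℝ :=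
  (∑ a, ∑ a', b (g, a) (g', a') i j) / (k : ℝ) ^ 2

theorem SymA_psd (k : ℕ) (b : (Fin 2 × Fin k) → (Fin 2 × Fin k) → Mt)
    (hpsd : ∀ x : (Fin 2 × Fin k) → Fin 2 → ℝ, 0 ≤ ∑ p, ∑ q, ∑ i, ∑ j, x p i * x q j * b p q i j)
    (c : Fin 2 → Fin 2 → ℝ) :
    0 ≤ ∑ g, ∑ g', ∑ i, ∑ j, c g i * c g' j * SymA_b k b g g' i j := by
  have h1 := hpsd fun p i => c p.1 i / k
  refine h1.trans (le_of_eq ?_)
  simp only [Fintype.sum_prod_type, Fin.sum_univ_two, Finset.sum_add_distrib, ← Finset.mul_sum,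
    SymA_b]
  ring

theorem SymA_one (k : ℕ) (hk : 0 < k) (b : (Fin 2 × Fin k) → (Fin 2 × Fin k) → Mt)
    (hbd : ∀ p q i j, |b p q i j| ≤ 1) (g g' i j : Fin 2) : SymA_b k b g g' i j ≤ 1 := by
  have hk' : (0 : ℝ) < k := by exact_mod_cast hk
  unfold SymA_b
  rw [div_le_one (by positivity)]
  calc ∑ a, ∑ a', b (g, a) (g', a') i j ≤ ∑ _a : Fin k, ∑ _a' : Fin k, (1 : ℝ) :=
        Finset.sum_le_sum fun a _ => Finset.sum_le_sum fun a' _ => (le_abs_self _).trans (hbd _ _ _ _)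
    _ = (k : ℝ) ^ 2 := by simp [sq]

theorem SymA_diag (k : ℕ) (hk : 0 < k) (m : ℝ) (hm : |m| ≤ 1)
    (b : (Fin 2 × Fin k) → (Fin 2 × Fin k) → Mt) (hbd : ∀ p q i j, |b p q i j| ≤ 1)
    (g i : Fin 2) (h : ∀ j j', j ≠ j' → b (g, j) (g, j') i i = m) :
    SymA_b k b g g i i ≤ m + 2 / k := by
  have hk' : (0 : ℝ) < k := by exact_mod_cast hk
  have h1 : ∑ a, ∑ a', b (g, a) (g, a') i i ≤ ∑ _a : Fin k, ((k : ℝ) * m + 2) := by
    refine Finset.sum_le_sum fun a _ => ?_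
    have h2 : ∑ a', b (g, a) (g, a') i i = ∑ a' : Fin k, (m + if a = a' then b (g, a) (g, a) i i - m else 0) := by
      refine Finset.sum_congr rfl fun a' _ => ?_
      by_cases e : a = a'
      · subst e
        rw [if_pos rfl]
        ring
      · rw [if_neg e, h a a' e, add_zero]
    rw [h2, Finset.sum_add_distrib, Finset.sum_ite_eq, if_pos (Finset.mem_univ _), Finset.sum_const,
      Finset.card_univ, Fintype.card_fin, nsmul_eq_mul]
    have h3 := (le_abs_self _).trans (hbd (g, a) (g, a) i i)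
    have h4 := (neg_abs_le m)
    linarith
  rw [Finset.sum_const, Finset.card_univ, Fintype.card_fin, nsmul_eq_mul] at h1
  unfold SymA_b
  rw [div_le_iff₀ (by positivity)]
  refine h1.trans (le_of_eq ?_)
  field_simp

theorem SymA_cross (k : ℕ) (hk : 0 < k) (m : ℝ) (b : (Fin 2 × Fin k) → (Fin 2 × Fin k) → Mt)
    (g g' i j : Fin 2) (h : ∀ a a', b (g, a) (g', a') i j = m) : SymA_b k b g g' i j = m := by
  have hk' : (0 : ℝ) < k := by exact_mod_cast hk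
  unfold SymA_b
  simp only [h, Finset.sum_const, Finset.card_univ, Fintype.card_fin, nsmul_eq_mul]
  field_simp

/-- linear algebra. `b` = array of overlap matrices of the replicas `(g, j)`, `g` = group (0 or 1), `j : Fin k`. All the traceless data: between the groups the
matrix is `M` (transposed in the other order), inside a group the symmetric part is that of `M` off the diagonal. Then `(M01 - M10)² ≤ 64/k`.
Proof: `B(ξ,η) = ∑ ξ_{p i} η_{q j} b p q i j` is a positive semidefinite form. For `ξ = X0 - X1` (`1/k` on `((0,j), 0)`, `-1/k` on `((1,j), 0)`):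
`B(ξ,ξ) = 2 (b00(diag) - M00)/k ≤ 4/k`; similarly for the second components `Y0 - Y1`. `B(Y1,Y1) ≤ 1`, `B(X1,X1) ≤ 1`. Cauchy-Schwarz:
`|M01 - M10| = |B(X0,Y1) - B(X1,Y0)| ≤ |B(X0-X1, Y1)| + |B(X1, Y1-Y0)| ≤ 2 (4/k)^(1/2)`. -/
theorem sym_of_groups (k : ℕ) (hk : 0 < k) (M : Mt) (b : (Fin 2 × Fin k) → (Fin 2 × Fin k) → Mt)
    (hbd : ∀ p q i j, |b p q i j| ≤ 1) (hsymm : ∀ p q i j, b p q i j = b q p j i)
    (hpsd : ∀ x : (Fin 2 × Fin k) → Fin 2 → ℝ, 0 ≤ ∑ p, ∑ q, ∑ i, ∑ j, x p i * x q j * b p q i j)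
    (h01 : ∀ j j', b (0, j) (1, j') = M)
    (hin : ∀ g j j', j ≠ j' → b (g, j) (g, j') 0 0 = M 0 0 ∧ b (g, j) (g, j') 1 1 = M 1 1) :
    (M 0 1 - M 1 0) ^ 2 ≤ 64 / k := by
  have hk' : (0 : ℝ) < k := by exact_mod_cast hk
  have hM : ∀ i j, |M i j| ≤ 1 := by
    intro i j
    have h1 := hbd (0, ⟨0, hk⟩) (1, ⟨0, hk⟩) i j
    rwa [h01] at h1
  have h10 : ∀ a a' i j, b (1, a) (0, a') i j = M j i := by
    intro a a' i j
    rw [hsymm, h01]
  have c01 : ∀ i j, SymA_b k b 0 1 i j = M i j := fun i j =>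
    SymA_cross k hk _ b 0 1 i j fun a a' => by rw [h01]
  have c10 : ∀ i j, SymA_b k b 1 0 i j = M j i := fun i j =>
    SymA_cross k hk _ b 1 0 i j fun a a' => h10 a a' i j
  have hs : ∀ g i j, SymA_b k b g g i j = SymA_b k b g g j i := by
    intro g i j
    unfold SymA_b
    rw [Finset.sum_comm]
    congr 1
    exact Finset.sum_congr rfl fun a _ => Finset.sum_congr rfl fun a' _ => hsymm _ _ _ _
  have d0 : ∀ g, SymA_b k b g g 0 0 ≤ M 0 0 + 2 / k := fun g =>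
    SymA_diag k hk _ (hM 0 0) b hbd g 0 fun j j' hj => (hin g j j' hj).1
  have d1 : ∀ g, SymA_b k b g g 1 1 ≤ M 1 1 + 2 / k := fun g =>
    SymA_diag k hk _ (hM 1 1) b hbd g 1 fun j j' hj => (hin g j j' hj).2
  have hQ := SymA_psd k b hpsd
  have k1 : (M 0 1 - SymA_b k b 1 1 0 1) ^ 2 ≤
      (SymA_b k b 0 0 0 0 + SymA_b k b 1 1 0 0 - 2 * M 0 0) * SymA_b k b 1 1 1 1 := by
    refine SymA_cs fun t => ?_
    refine (hQ ![![t, 0], ![-t, 1]]).trans (le_of_eq ?_)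
    simp [Fin.sum_univ_two, c01, c10, hs 1 1 0]
    ring
  have k2 : (SymA_b k b 1 1 0 1 - M 1 0) ^ 2 ≤
      SymA_b k b 1 1 0 0 * (SymA_b k b 0 0 1 1 + SymA_b k b 1 1 1 1 - 2 * M 1 1) := by
    refine SymA_cs fun t => ?_
    refine (hQ ![![0, -1], ![t, 1]]).trans (le_of_eq ?_)
    simp [Fin.sum_univ_two, c01, c10, hs 1 1 0]
    ring
  have p1 : 0 ≤ SymA_b k b 0 0 0 0 + SymA_b k b 1 1 0 0 - 2 * M 0 0 := by
    refine (hQ ![![1, 0], ![-1, 0]]).trans (le_of_eq ?_)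
    simp [Fin.sum_univ_two, c01, c10]
    ring
  have p2 : 0 ≤ SymA_b k b 0 0 1 1 + SymA_b k b 1 1 1 1 - 2 * M 1 1 := by
    refine (hQ ![![0, 1], ![0, -1]]).trans (le_of_eq ?_)
    simp [Fin.sum_univ_two, c01, c10]
    ring
  have u1 := SymA_one k hk b hbd 1 1 1 1
  have u2 := SymA_one k hk b hbd 1 1 0 0
  have k3 : (M 0 1 - SymA_b k b 1 1 0 1) ^ 2 ≤ 4 / k := by
    have e1 : (4 : ℝ) / k = 2 / k + 2 / k := by ring
    have e2 := mul_le_mul_of_nonneg_left u1 p1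
    have := d0 0
    have := d0 1
    linarith
  have k4 : (SymA_b k b 1 1 0 1 - M 1 0) ^ 2 ≤ 4 / k := by
    have e1 : (4 : ℝ) / k = 2 / k + 2 / k := by ring
    have e2 := mul_le_mul_of_nonneg_right u2 p2
    have := d1 0
    have := d1 1
    linarith
  have e3 : (64 : ℝ) / k = 16 * (4 / k) := by ring
  have e4 : 0 ≤ (4 : ℝ) / k := by positivity
  rw [e3]
  nlinarith [sq_nonneg (M 0 1 - SymA_b k b 1 1 0 1 - (SymA_b k b 1 1 0 1 - M 1 0))]

end SKC.EF
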