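import Pool.Agent.H.MP_08eaf3_pr.EF.FOrd
import Pool.Agent.H.MP_08eaf3_pr.EF.DupG
import Pool.Agent.H.MP_08eaf3_pr.EF.SymA

/-!
# Part F4: the matrices in the support are symmetric
-/

set_option autoImplicit false

open MeasureTheory Filter

namespace SKC.EF

variable {A : RFam} {R : Ker A Mt} {u : ℝ} {I : Type} [Fintype I]

theorem FSym_cont : Continuous tr2 := by
  unfold tr2
  fun_prop

theorem FSym_tr_symm (h : PK A R u) {a : I → I → Mt} (ha : Supp A R I a) (l l' : I) :
    tr2 (a l l') = tr2 (a l' l) := by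
  unfold tr2
  rw [h.supp_symm ha l l' 0 0, h.supp_symm ha l l' 1 1]

/-- duplicates of both replicas. `Supp.dupn_gen` (kernel `tr2`) for replica 0 of a support array `a` of two replicas with `a 0 1 = M`, `s = tr2 M`, then for replica
1 of the result (all traces of its row are `s`). Inside each group the traces are `≤ s` and, by `PK.ultra_tr` with a member of the other group, `≥ s`;
`PK.tv_eq` gives the diagonal entries. Keep only the new duplicates (`Supp.marg`, `k` of each group). -/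
theorem PK.groups (h : PK A R u) {M : Mt} (hM : M ∈ TT A R) (k : ℕ) :
    ∃ b : (Fin 2 × Fin k) → (Fin 2 × Fin k) → Mt, Supp A R (Fin 2 × Fin k) b ∧ (∀ j j', b (0, j) (1, j') = M) ∧
      ∀ g j j', j ≠ j' → b (g, j) (g, j') 0 0 = M 0 0 ∧ b (g, j) (g, j') 1 1 = M 1 1 := by
  obtain ⟨a, ha, haM⟩ := hM
  have hM : M ∈ TT A R := ⟨a, ha, haM⟩
  have hG : ∀ φ : ℝ → ℝ, Continuous φ → (∀ x, 0 ≤ φ x ∧ φ x ≤ 1) →
      GG A (fun n c c' => φ (tr2 (R n c c'))) := by
    intro φ hφ _
    exact h.gg (fun t => φ (t.1 + t.2.1)) (hφ.comp (continuous_fst.add (continuous_fst.comp continuous_snd)))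
  have hsym : ∀ n c c', tr2 (R n c c') = tr2 (R n c' c) := by
    intro n c c'
    unfold tr2
    rw [h.symm n c c' 0 0, h.symm n c c' 1 1]
  have h10 : tr2 (a 1 0) = tr2 M := by rw [FSym_tr_symm h ha 1 0, haM]
  obtain ⟨a1, s1, e1, e2, -, -, e5⟩ := Supp.dupn_gen isCompact_box h.mem_box FSym_cont hG hsym ha
    0 1 (by decide) (tr2 M) (by
      intro l hl
      have hl1 : l = 1 := by omega
      rw [hl1, haM]) k
  obtain ⟨a2, s2, f1, f2, -, -, f5⟩ := Supp.dupn_gen isCompact_box h.mem_box FSym_cont hG hsym s1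
    (Sum.inl 1) (Sum.inl 0) (by simp) (tr2 M) (by
      rintro (l | j) hl
      · have hl0 : l = 0 := by
          by_contra h0
          have hl1 : l = 1 := by omega
          exact hl (by rw [hl1])
        rw [hl0, e1, h10]
      · rw [(e2 j 1 (by decide)).2, h10]) k
  obtain ⟨e, he⟩ : ∃ e : Fin 2 × Fin k → (Fin 2 ⊕ Fin k) ⊕ Fin k,
      e = fun p => if p.1 = 0 then Sum.inl (Sum.inr p.2) else Sum.inr p.2 := ⟨_, rfl⟩
  have he0 : ∀ j, e (0, j) = Sum.inl (Sum.inr j) := by
    intro j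
    rw [he]
    simp
  have he1 : ∀ j, e (1, j) = Sum.inr j := by
    intro j
    rw [he]
    simp
  have hcases : ∀ g : Fin 2, g = 0 ∨ g = 1 := by
    intro g
    omega
  have hinj : Function.Injective e := by
    rintro ⟨g, j⟩ ⟨g', j'⟩ hh
    rcases hcases g with rfl | rfl <;> rcases hcases g' with rfl | rfl
    · rw [he0, he0] at hh
      rw [Sum.inr.inj (Sum.inl.inj hh)]
    · rw [he0, he1] at hh
      exact absurd hh (by simp)
    · rw [he0, he1] at hh
      exact absurd hh (by simp)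
    · rw [he1, he1] at hh
      rw [Sum.inr.inj hh]
  have hb := s2.marg e hinj
  have hb01 : ∀ j j', a2 (e (0, j)) (e (1, j')) = M := by
    intro j j'
    rw [he0, he1, (f2 j' (Sum.inr j) (by simp)).2, (e2 j 1 (by decide)).1, haM]
  have hb10 : ∀ j j', tr2 (a2 (e (1, j)) (e (0, j'))) = tr2 M := by
    intro j j'
    rw [FSym_tr_symm h s2 (e (1, j)) (e (0, j')), hb01]
  refine ⟨fun p q => a2 (e p) (e q), hb, hb01, ?_⟩
  intro g j j' hjj
  have hle : tr2 (a2 (e (g, j)) (e (g, j'))) ≤ tr2 M := by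
    rcases hcases g with rfl | rfl
    · rw [he0, he0, f1]
      exact e5 j j' hjj
    · rw [he1, he1]
      exact f5 j j' hjj
  have hge : tr2 M ≤ tr2 (a2 (e (g, j)) (e (g, j'))) := by
    have hne : ((g, j) : Fin 2 × Fin k) ≠ (g, j') := fun hh => hjj (Prod.mk.inj hh).2
    rcases hcases g with rfl | rfl
    · have h1 := h.ultra_tr s2 (i := e (1, j)) (j := e (0, j)) (k := e (0, j'))
        (fun hh => absurd (hinj hh) (by simp)) (fun hh => absurd (hinj hh) (by simp))
        (fun hh => hne (hinj hh))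
      rw [hb10, hb10, min_self] at h1
      exact h1
    · have h1 := h.ultra_tr s2 (i := e (0, j)) (j := e (1, j)) (k := e (1, j'))
        (fun hh => absurd (hinj hh) (by simp)) (fun hh => absurd (hinj hh) (by simp))
        (fun hh => hne (hinj hh))
      rw [hb01, hb01, min_self] at h1
      exact h1
  have hne : e (g, j) ≠ e (g, j') := fun hh => hjj (Prod.mk.inj (hinj hh)).2
  have htv := h.tv_eq (mem_TT s2 hne) hM (le_antisymm hle hge)
  unfold tv at htv
  rw [Prod.mk.injEq, Prod.mk.injEq] at htv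
  exact ⟨htv.1, htv.2.1⟩

theorem PK.sym (h : PK A R u) {M : Mt} (hM : M ∈ TT A R) : M 0 1 = M 1 0 := by
  have key : ∀ k : ℕ, 0 < k → (M 0 1 - M 1 0) ^ 2 ≤ 64 / k := by
    intro k hk
    obtain ⟨b, hb, h01, hin⟩ := h.groups hM k
    exact sym_of_groups k hk M b (h.supp_bd hb) (h.supp_symm hb) (h.supp_psd hb) h01 hin
  by_contra hne
  have hpos : 0 < (M 0 1 - M 1 0) ^ 2 := by
    have h1 : M 0 1 - M 1 0 ≠ 0 := sub_ne_zero.2 hne
    positivity
  obtain ⟨k, hk⟩ := exists_nat_gt (64 / (M 0 1 - M 1 0) ^ 2)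
  have hk0 : (0 : ℝ) < k := lt_of_le_of_lt (by positivity) hk
  have h2 := key k (by exact_mod_cast hk0)
  rw [le_div_iff₀ hk0] at h2
  rw [div_lt_iff₀ hpos] at hk
  linarith

end SKC.EF
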