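import Pool.Agent.H.MP_08eaf3_pr.EF.FSec

/-!
# Part F5: tree arrays are in the support
`g : I → Fin n` = group of a replica; overlap matrix `mat 1 1 u` on the diagonal, `Mt` inside a group, `Ms` between groups, `tr2 Ms ≤ tr2 Mt`.
-/

set_option autoImplicit false

open MeasureTheory Filter

namespace SKC.EF

variable {A : RFam} {R : Ker A Mt} {u : ℝ}

open Classical in
/-- the tree array -/
noncomputable def tarr (u : ℝ) (Ms M : Mt) {I : Type} {n : ℕ} (g : I → Fin n) : I → I → Mt :=
  fun l l' => if l = l' then mat 1 1 u else if g l = g l' then M else Ms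

theorem FTree_diag (u : ℝ) (Ms M : Mt) {I : Type} {n : ℕ} (g : I → Fin n) (l : I) :
    tarr u Ms M g l l = mat 1 1 u := by
  unfold tarr
  rw [if_pos rfl]

theorem FTree_ne (u : ℝ) (Ms M : Mt) {I : Type} {n : ℕ} (g : I → Fin n) {l l' : I} (h : l ≠ l') :
    (g l = g l' ∧ tarr u Ms M g l l' = M) ∨ (g l ≠ g l' ∧ tarr u Ms M g l l' = Ms) := by
  unfold tarr
  rw [if_neg h]
  by_cases h1 : g l = g l'
  · exact Or.inl ⟨h1, if_pos h1⟩
  · exact Or.inr ⟨h1, if_neg h1⟩

theorem FTree_symm (u : ℝ) (Ms M : Mt) {I : Type} {n : ℕ} (g : I → Fin n) (l l' : I) :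
    tarr u Ms M g l l' = tarr u Ms M g l' l := by
  by_cases h : l = l'
  · subst h; rfl
  · rcases FTree_ne u Ms M g h with ⟨h1, h2⟩ | ⟨h1, h2⟩ <;>
      rcases FTree_ne u Ms M g (Ne.symm h) with ⟨h3, h4⟩ | ⟨h3, h4⟩
    · rw [h2, h4]
    · exact absurd h1.symm h3
    · exact absurd h3.symm h1
    · rw [h2, h4]

theorem FTree_comp (u : ℝ) (Ms M : Mt) {I J : Type} {n : ℕ} (G : J → Fin n) (f : I → J)
    (hf : Function.Injective f) (l l' : I) :
    tarr u Ms M G (f l) (f l') = tarr u Ms M (fun i => G (f i)) l l' := by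
  by_cases h : l = l'
  · subst h
    rw [FTree_diag, FTree_diag]
  · have h' : f l ≠ f l' := fun e => h (hf e)
    rcases FTree_ne u Ms M G h' with ⟨h1, h2⟩ | ⟨h1, h2⟩ <;>
      rcases FTree_ne u Ms M (fun i => G (f i)) h with ⟨h3, h4⟩ | ⟨h3, h4⟩
    · rw [h2, h4]
    · exact absurd h1 h3
    · exact absurd h3 h1
    · rw [h2, h4]

theorem FTree_tr_symm (h : PK A R u) {I : Type} [Fintype I] {a : I → I → Mt} (ha : Supp A R I a)
    (l l' : I) : tr2 (a l l') = tr2 (a l' l) := by
  unfold tr2
  rw [h.supp_symm ha l l' 0 0, h.supp_symm ha l l' 1 1]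

theorem FTree_fin (h : PK A R u) {Ms M : Mt} (hs : Ms ∈ TT A R) (hM : M ∈ TT A R)
    {I : Type} [Fintype I] {n : ℕ} (g : I → Fin n) (i0 : I)
    {a' : Option I → Option I → Mt} (ha : Supp A R (Option I) a')
    (hold : ∀ l l', a' (some l) (some l') = tarr u Ms M g l l')
    (htr : ∀ l, (g l = g i0 → tr2 (a' (some l) none) = tr2 M) ∧
      (g l ≠ g i0 → tr2 (a' (some l) none) = tr2 Ms)) :
    Supp A R (Option I) (tarr u Ms M (fun o : Option I => o.elim (g i0) g)) := by
  have e : a' = tarr u Ms M (fun o : Option I => o.elim (g i0) g) := by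
    funext o o'
    rcases o with _ | l <;> rcases o' with _ | l'
    · rw [FTree_diag]
      funext i j
      exact h.supp_diag ha none i j
    · have hne : (none : Option I) ≠ some l' := by simp
      have h1 : a' none (some l') ∈ TT A R := mem_TT ha hne
      have h2 : tr2 (a' none (some l')) = tr2 (a' (some l') none) := FTree_tr_symm h ha _ _
      rcases FTree_ne u Ms M (fun o : Option I => o.elim (g i0) g) hne with ⟨h3, h4⟩ | ⟨h3, h4⟩
      · rw [h4]
        exact h.ext_tr h1 hM (h2.trans ((htr l').1 h3.symm))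
      · rw [h4]
        exact h.ext_tr h1 hs (h2.trans ((htr l').2 (fun e => h3 e.symm)))
    · have hne : some l ≠ (none : Option I) := by simp
      have h1 : a' (some l) none ∈ TT A R := mem_TT ha hne
      rcases FTree_ne u Ms M (fun o : Option I => o.elim (g i0) g) hne with ⟨h3, h4⟩ | ⟨h3, h4⟩
      · rw [h4]
        exact h.ext_tr h1 hM ((htr l).1 h3)
      · rw [h4]
        exact h.ext_tr h1 hs ((htr l).2 h3)
    · rw [hold, FTree_comp u Ms M (fun o : Option I => o.elim (g i0) g) some
        (Option.some_injective I)]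
      rfl
  rw [← e]
  exact ha

/-- one more replica in the group of `i0`. Case A: there is `l1 ≠ i0` with `tr2 (tarr i0 l1) = tr2 M` (same group, or `tr2 Ms = tr2 M`): `Supp.dup_gen` with
`s = tr2 M`; the trace with `i0` is `≤ tr2 M` and, by `PK.ultra_tr` through `l1`, `≥ tr2 M`. Case B: all other replicas are in other groups and
`tr2 Ms < tr2 M`: `PK.att`, the overlaps with the others are forced by `PK.ultra_tr`. Entries are determined by traces (`PK.ext_tr`, `mem_TT`, `PK.supp_symm`). -/
theorem PK.tree_step (h : PK A R u) {Ms M : Mt} (hs : Ms ∈ TT A R) (hM : M ∈ TT A R) (hle : tr2 Ms ≤ tr2 M)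
    {I : Type} [Fintype I] {n : ℕ} (g : I → Fin n) (hg : Supp A R I (tarr u Ms M g)) (i0 : I) :
    Supp A R (Option I) (tarr u Ms M (fun o : Option I => o.elim (g i0) g)) := by
  by_cases hA : ∃ l1, l1 ≠ i0 ∧ tr2 (tarr u Ms M g i0 l1) = tr2 M
  · obtain ⟨l1, hl1, htr1⟩ := hA
    have hle' : ∀ l, l ≠ i0 → tr2 (tarr u Ms M g i0 l) ≤ tr2 M := by
      intro l hl
      rcases FTree_ne u Ms M g (Ne.symm hl) with ⟨-, h2⟩ | ⟨-, h2⟩
      · rw [h2]
      · rw [h2]; exact hle
    obtain ⟨a', ha', hold, -, h2, -, h4⟩ := Supp.dup_gen isCompact_box h.mem_box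
      (κ := tr2) (by unfold tr2; fun_prop)
      (fun φ hφ _ => h.gg (fun q => φ (q.1 + q.2.1)) (by fun_prop))
      hg i0 l1 hl1 (tr2 M) hle'
    refine FTree_fin h hs hM g i0 ha' hold (fun l => ?_)
    by_cases hl : l = i0
    · subst hl
      refine ⟨fun _ => le_antisymm h4 ?_, fun e => absurd rfl e⟩
      have h5 := h.ultra_tr ha' (i := some l1) (j := some l) (k := none)
        (by simpa using hl1) (by simp) (by simp)
      rw [hold, h2 l1 hl1, FTree_symm u Ms M g l1 l, htr1, min_self] at h5
      exact h5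
    · rw [h2 l hl]
      rcases FTree_ne u Ms M g hl with ⟨h5, h6⟩ | ⟨h5, h6⟩
      · rw [h6]
        exact ⟨fun _ => rfl, fun e => absurd h5 e⟩
      · rw [h6]
        exact ⟨fun e => absurd e h5, fun _ => rfl⟩
  · push Not at hA
    obtain ⟨a', ha', hold, htv⟩ := h.att hg i0 hM
    have htr0 : tr2 (a' (some i0) none) = tr2 M := by
      have h1 : (a' (some i0) none) 0 0 = M 0 0 := congrArg Prod.fst htv
      have h2 : (a' (some i0) none) 1 1 = M 1 1 := congrArg (fun q => q.2.1) htv
      unfold tr2
      rw [h1, h2]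
    refine FTree_fin h hs hM g i0 ha' hold (fun l => ?_)
    by_cases hl : l = i0
    · subst hl
      exact ⟨fun _ => htr0, fun e => absurd rfl e⟩
    · have h1 := hA l hl
      rcases FTree_ne u Ms M g (Ne.symm hl) with ⟨h5, h6⟩ | ⟨h5, h6⟩
      · rw [h6] at h1
        exact absurd rfl h1
      · rw [h6] at h1
        have hlt : tr2 Ms < tr2 M := lt_of_le_of_ne hle h1
        refine ⟨fun e => absurd e.symm h5, fun _ => le_antisymm ?_ ?_⟩
        · have h7 := h.ultra_tr ha' (i := none) (j := some l) (k := some i0)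
            (by simp) (by simp) (by simpa using hl)
          rw [FTree_tr_symm h ha' none (some l), FTree_tr_symm h ha' none (some i0), htr0,
            hold, FTree_symm u Ms M g l i0, h6] at h7
          rcases min_le_iff.1 h7 with h8 | h8
          · exact h8
          · exact absurd h8 (not_le.2 hlt)
        · have h7 := h.ultra_tr ha' (i := some i0) (j := some l) (k := none)
            (by simpa using Ne.symm hl) (by simp) (by simp)
          rw [hold, h6, htr0, min_eq_left hle] at h7
          exact h7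

/-- if the array of the group leaders (all pairs `Ms`) is in the support, so is every tree array with surjective `g`. Strong induction on `card I`:
if `g` is injective reindex `I ≃ Fin n`; otherwise remove one of two replicas of the same group (`I ≃ Option {l // l ≠ i1}`) and use `tree_step`. -/
theorem PK.tree_all (h : PK A R u) {Ms M : Mt} (hs : Ms ∈ TT A R) (hM : M ∈ TT A R) (hle : tr2 Ms ≤ tr2 M) (n : ℕ)
    (hb : Supp A R (Fin n) (tarr u Ms M (id : Fin n → Fin n))) (I : Type) [Fintype I] (g : I → Fin n)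
    (hg : Function.Surjective g) : Supp A R I (tarr u Ms M g) := by
  classical
  induction hN : Fintype.card I using Nat.strong_induction_on generalizing I with
  | _ N ih =>
    by_cases hinj : Function.Injective g
    · have h1 := Supp.marg g hinj hb
      have e : (fun i i' => tarr u Ms M (id : Fin n → Fin n) (g i) (g i')) = tarr u Ms M g := by
        funext i i'
        exact FTree_comp u Ms M (id : Fin n → Fin n) g hinj i i'
      rw [← e]
      exact h1
    · unfold Function.Injective at hinj
      push Not at hinj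
      obtain ⟨i0, i1, hgi, hne⟩ := hinj
      have hsurj : Function.Surjective (fun l : {l : I // l ≠ i1} => g l.1) := by
        intro v
        obtain ⟨l, hl⟩ := hg v
        by_cases h1 : l = i1
        · exact ⟨⟨i0, hne⟩, by rw [← hl, h1]; exact hgi⟩
        · exact ⟨⟨l, h1⟩, hl⟩
      have hcard : Fintype.card {l : I // l ≠ i1} < N := by
        rw [← hN]
        exact Fintype.card_subtype_lt (x := i1) (by simp)
      have h1 := ih _ hcard {l : I // l ≠ i1} (fun l => g l.1) hsurj rfl
      have h2 := h.tree_step hs hM hle (fun l : {l : I // l ≠ i1} => g l.1) h1 ⟨i0, hne⟩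
      have hf : Function.Injective
          (fun l : I => if hl : l = i1 then (none : Option {l : I // l ≠ i1}) else some ⟨l, hl⟩) := by
        intro l l' hll
        by_cases h3 : l = i1 <;> by_cases h4 : l' = i1
        · rw [h3, h4]
        · simp [h3, h4] at hll
        · simp [h3, h4] at hll
        · simpa [h3, h4] using hll
      have h3 := Supp.marg _ hf h2
      have e : (fun i i' => tarr u Ms M
          (fun o : Option {l : I // l ≠ i1} => o.elim (g i0) (fun l => g l.1))
          ((fun l : I => if hl : l = i1 then (none : Option {l : I // l ≠ i1}) else some ⟨l, hl⟩) i)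
          ((fun l : I => if hl : l = i1 then (none : Option {l : I // l ≠ i1}) else some ⟨l, hl⟩) i'))
          = tarr u Ms M g := by
        funext i i'
        rw [FTree_comp u Ms M _ _ hf i i']
        congr 1
        funext l
        by_cases hl : l = i1
        · simp [hl, hgi]
        · simp [hl]
      rw [← e]
      exact h3

/-- all tree arrays. First `tree_all` with `n = 1`, `M = Ms` (base case: one replica, `PK.supp_diag`, existence by `PK.TT_nonempty` and `Supp.marg`) gives the
array of the leaders for every `n ≥ 1`; then `tree_all` with `n`. -/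
theorem PK.trees (h : PK A R u) {Ms M : Mt} (hs : Ms ∈ TT A R) (hM : M ∈ TT A R) (hle : tr2 Ms ≤ tr2 M) (n : ℕ)
    (hn : 0 < n) (I : Type) [Fintype I] (g : I → Fin n) (hg : Function.Surjective g) :
    Supp A R I (tarr u Ms M g) := by
  have hb1 : Supp A R (Fin 1) (tarr u Ms Ms (id : Fin 1 → Fin 1)) := by
    obtain ⟨a, ha, -⟩ := hs
    have h1 := Supp.marg (fun _ : Fin 1 => (0 : Fin 2)) (fun x y _ => Subsingleton.elim x y) ha
    have e : (fun _ _ : Fin 1 => a 0 0) = tarr u Ms Ms (id : Fin 1 → Fin 1) := by
      funext i i'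
      rw [Subsingleton.elim i i', FTree_diag]
      funext k k'
      exact h.supp_diag ha 0 k k'
    rw [← e]
    exact h1
  have h1 := h.tree_all hs hs le_rfl 1 hb1 (Fin n) (fun _ => (0 : Fin 1))
    (fun v => ⟨⟨0, hn⟩, Subsingleton.elim _ _⟩)
  have e : tarr u Ms Ms (fun _ : Fin n => (0 : Fin 1)) = tarr u Ms M (id : Fin n → Fin n) := by
    funext i i'
    by_cases hii : i = i'
    · rw [hii, FTree_diag, FTree_diag]
    · rcases FTree_ne u Ms M (id : Fin n → Fin n) hii with ⟨h3, -⟩ | ⟨-, h4⟩
      · exact absurd h3 hii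
      · rcases FTree_ne u Ms Ms (fun _ : Fin n => (0 : Fin 1)) hii with ⟨-, h6⟩ | ⟨-, h6⟩ <;>
          rw [h4, h6]
  rw [e] at h1
  exact h.tree_all hs hM hle n h1 I g hg

end SKC.EF
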