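import Pool.Agent.H.MP_08eaf3_pr.EF.Ex

/-!
# Rules for the limit functional `A.L I`
-/

set_option autoImplicit false

open MeasureTheory Filter

namespace SKC.EF

variable (A : RFam) {I J : Type} [Fintype I] [Fintype J]

/-- Bounded real sequences converge along an ultrafilter (compactness of `[-M, M]`,
`Ultrafilter.le_nhds_lim` / `isCompact_iff_ultrafilter_le_nhds`). -/
theorem tendsto_of_bdd {ι : Type} (U : Ultrafilter ι) (a : ι → ℝ) (M : ℝ) (h : ∀ n, |a n| ≤ M) :
    Tendsto a (U : Filter ι) (nhds (limUnder (U : Filter ι) a)) := by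
  apply tendsto_nhds_limUnder
  have hc : IsCompact (Set.Icc (-M) M) := isCompact_Icc
  have hu : ((U.map a : Ultrafilter ℝ) : Filter ℝ) ≤ Filter.principal (Set.Icc (-M) M) := by
    rw [Filter.le_principal_iff, Ultrafilter.coe_map]
    exact Filter.mem_map.mpr (Filter.Eventually.of_forall fun n => abs_le.mp (h n))
  obtain ⟨x, _, hx⟩ := isCompact_iff_ultrafilter_le_nhds.mp hc (U.map a) hu
  exact ⟨x, hx⟩

theorem Lim_nice {F : Obs A I} {M : ℝ} (h : F.Bd M) (n : A.ι) : (A.S n).Nice (fun _ => F n) M :=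
  ⟨fun _ ρ => h n ρ, fun _ => measurable_const⟩

theorem RFam.tendsto_L {F : Obs A I} {M : ℝ} (h : F.Bd M) :
    Tendsto (fun n => (A.S n).ex I (fun _ => F n)) (A.U : Filter A.ι) (nhds (A.L I F)) := by
  exact tendsto_of_bdd A.U _ M (fun n => Sys.abs_ex_le (A.S n) (Lim_nice A h n))

/-- uniqueness -/
theorem RFam.L_eq {F : Obs A I} {a : ℝ} (h : Tendsto (fun n => (A.S n).ex I (fun _ => F n)) (A.U : Filter A.ι) (nhds a)) :
    A.L I F = a := by
  exact h.limUnder_eq

theorem RFam.L_const (a : ℝ) : A.L I (fun _ _ => a) = a := by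
  refine A.L_eq ?_
  have : (fun n => (A.S n).ex I (fun _ => (fun _ _ => a : Obs A I) n)) = fun _ => a := by
    funext n
    exact Sys.ex_const (A.S n) a
  rw [this]
  exact tendsto_const_nhds

theorem RFam.L_add {F G : Obs A I} {M M' : ℝ} (hF : F.Bd M) (hG : G.Bd M') : A.L I (F + G) = A.L I F + A.L I G := by
  refine A.L_eq ?_
  have : (fun n => (A.S n).ex I (fun _ => (F + G) n)) =
      fun n => (A.S n).ex I (fun _ => F n) + (A.S n).ex I (fun _ => G n) := by
    funext n
    exact Sys.ex_add (A.S n) (Lim_nice A hF n) (Lim_nice A hG n)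
  rw [this]
  exact (A.tendsto_L hF).add (A.tendsto_L hG)

theorem RFam.L_sub {F G : Obs A I} {M M' : ℝ} (hF : F.Bd M) (hG : G.Bd M') : A.L I (F - G) = A.L I F - A.L I G := by
  refine A.L_eq ?_
  have : (fun n => (A.S n).ex I (fun _ => (F - G) n)) =
      fun n => (A.S n).ex I (fun _ => F n) - (A.S n).ex I (fun _ => G n) := by
    funext n
    exact Sys.ex_sub (A.S n) (Lim_nice A hF n) (Lim_nice A hG n)
  rw [this]
  exact (A.tendsto_L hF).sub (A.tendsto_L hG)

theorem RFam.L_smul (a : ℝ) {F : Obs A I} {M : ℝ} (hF : F.Bd M) : A.L I (fun n ρ => a * F n ρ) = a * A.L I F := by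
  refine A.L_eq ?_
  have : (fun n => (A.S n).ex I (fun _ => (fun n ρ => a * F n ρ : Obs A I) n)) =
      fun n => a * (A.S n).ex I (fun _ => F n) := by
    funext n
    exact Sys.ex_smul (A.S n) a (fun _ => F n)
  rw [this]
  exact (A.tendsto_L hF).const_mul a

theorem RFam.L_sum {κ : Type} (s : Finset κ) (F : κ → Obs A I) (M : ℝ) (hF : ∀ k, (F k).Bd M) :
    A.L I (fun n ρ => ∑ k ∈ s, F k n ρ) = ∑ k ∈ s, A.L I (F k) := by
  classical
  induction s using Finset.induction_on with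
  | empty =>
    simp only [Finset.sum_empty]
    exact A.L_const 0
  | insert k s hk ih =>
    have hB : Obs.Bd (A := A) (I := I) (fun n ρ => ∑ k ∈ s, F k n ρ) ((s.card : ℝ) * M) := by
      intro n ρ
      refine (Finset.abs_sum_le_sum_abs _ _).trans ?_
      refine (Finset.sum_le_sum fun k _ => hF k n ρ).trans ?_
      rw [Finset.sum_const, nsmul_eq_mul]
    have e : (fun n ρ => ∑ k ∈ insert k s, F k n ρ : Obs A I) = F k + (fun n ρ => ∑ k ∈ s, F k n ρ : Obs A I) := by
      funext n ρ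
      rw [Finset.sum_insert hk]
      rfl
    rw [e, A.L_add (hF k) hB, ih, Finset.sum_insert hk]

theorem RFam.L_mono {F G : Obs A I} {M M' : ℝ} (hF : F.Bd M) (hG : G.Bd M') (h : ∀ n ρ, F n ρ ≤ G n ρ) :
    A.L I F ≤ A.L I G := by
  exact le_of_tendsto_of_tendsto' (A.tendsto_L hF) (A.tendsto_L hG) (fun n =>
    Sys.ex_mono (A.S n) (Lim_nice A hF n) (Lim_nice A hG n) (fun _ ρ => h n ρ))

theorem RFam.L_nonneg {F : Obs A I} {M : ℝ} (hF : F.Bd M) (h : ∀ n ρ, 0 ≤ F n ρ) : 0 ≤ A.L I F := by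
  have h0 : Obs.Bd (A := A) (I := I) (fun _ _ => (0 : ℝ)) 0 := by
    intro n ρ
    simp
  have := A.L_mono h0 hF h
  rwa [A.L_const] at this

theorem RFam.abs_L_le {F : Obs A I} {M : ℝ} (hF : F.Bd M) : |A.L I F| ≤ M := by
  exact le_of_tendsto' (A.tendsto_L hF).abs (fun n => Sys.abs_ex_le (A.S n) (Lim_nice A hF n))

theorem RFam.L_marg (j : I → J) (hj : Function.Injective j) (F : Obs A I) :
    A.L J (fun n ρ => F n (fun i => ρ (j i))) = A.L I F := by
  unfold RFam.L
  congr 1
  funext n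
  exact Sys.ex_marg (A.S n) j hj (fun _ => F n)

theorem RFam.L_up (F : Obs A I) : A.L (Option I) F.up = A.L I F := by
  exact A.L_marg some (Option.some_injective I) F

end SKC.EF
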