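import Pool.Agent.H.MP_08eaf3_pr.EF.Lim

/-!
# Rules for the limit probability `A.Pr I`
-/

set_option autoImplicit false

open MeasureTheory Filter

namespace SKC.EF

variable (A : RFam) {I J : Type} [Fintype I] [Fintype J]

open Classical in
theorem LimB_bd (E : ∀ n, (I → (A.S n).C) → Prop) :
    Obs.Bd (A := A) (I := I) (fun n ρ => if E n ρ then (1 : ℝ) else 0) 1 := by
  intro n ρ
  by_cases h : E n ρ
  · simp [h]
  · simp [h]

theorem RFam.Pr_nonneg (E : ∀ n, (I → (A.S n).C) → Prop) : 0 ≤ A.Pr I E := by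
  classical
  refine A.L_nonneg (LimB_bd A E) ?_
  intro n ρ
  by_cases h : E n ρ
  · simp [h]
  · simp [h]

theorem RFam.Pr_le_one (E : ∀ n, (I → (A.S n).C) → Prop) : A.Pr I E ≤ 1 := by
  classical
  exact (le_abs_self _).trans (A.abs_L_le (LimB_bd A E))

theorem RFam.Pr_mono {E E' : ∀ n, (I → (A.S n).C) → Prop} (h : ∀ n ρ, E n ρ → E' n ρ) : A.Pr I E ≤ A.Pr I E' := by
  classical
  refine A.L_mono (LimB_bd A E) (LimB_bd A E') ?_
  intro n ρ
  by_cases h1 : E n ρ
  · simp [h1, h n ρ h1]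
  · by_cases h2 : E' n ρ
    · simp [h1, h2]
    · simp [h1, h2]

open Classical in
theorem LimB_or (p q : Prop) : @ite ℝ (p ∨ q) (Classical.propDecidable _) 1 0 ≤
    (if p then (1 : ℝ) else 0) + (if q then (1 : ℝ) else 0) := by
  by_cases h1 : p
  · by_cases h2 : q
    · simp [h1, h2]
    · simp [h1, h2]
  · by_cases h2 : q
    · simp [h1, h2]
    · simp [h1, h2]

open Classical in
theorem LimB_not (p : Prop) : @ite ℝ (¬ p) (Classical.propDecidable _) 1 0 =
    1 - (if p then (1 : ℝ) else 0) := by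
  by_cases h1 : p
  · simp [h1]
  · simp [h1]

theorem RFam.Pr_or_le (E E' : ∀ n, (I → (A.S n).C) → Prop) :
    A.Pr I (fun n ρ => E n ρ ∨ E' n ρ) ≤ A.Pr I E + A.Pr I E' := by
  classical
  have h1 := A.L_add (LimB_bd A E) (LimB_bd A E')
  have h2 : A.Pr I (fun n ρ => E n ρ ∨ E' n ρ) ≤
      A.L I ((fun n ρ => if E n ρ then (1 : ℝ) else 0) + fun n ρ => if E' n ρ then (1 : ℝ) else 0) := by
    refine A.L_mono (M' := 1 + 1) (LimB_bd A (fun n ρ => E n ρ ∨ E' n ρ)) ?_ ?_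
    · intro n ρ
      exact (abs_add_le _ _).trans (add_le_add (LimB_bd A E n ρ) (LimB_bd A E' n ρ))
    · intro n ρ
      exact LimB_or (E n ρ) (E' n ρ)
  rw [h1] at h2
  exact h2

theorem LimB_const (a : ℝ) : Obs.Bd (A := A) (I := I) (fun _ _ => a) |a| := fun _ _ => le_rfl

theorem RFam.Pr_not (E : ∀ n, (I → (A.S n).C) → Prop) : A.Pr I (fun n ρ => ¬ E n ρ) = 1 - A.Pr I E := by
  classical
  have h1 := A.L_sub (LimB_const (I := I) A 1) (LimB_bd A E)
  rw [A.L_const] at h1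
  have h2 : A.Pr I (fun n ρ => ¬ E n ρ) =
      A.L I ((fun _ _ => (1 : ℝ)) - fun n ρ => if E n ρ then (1 : ℝ) else 0) := by
    unfold RFam.Pr
    congr 1
    funext n ρ
    exact LimB_not (E n ρ)
  rw [h2, h1]
  rfl

/-- finite unions -/
theorem RFam.Pr_exists_le {κ : Type} (s : Finset κ) (E : κ → ∀ n, (I → (A.S n).C) → Prop) :
    A.Pr I (fun n ρ => ∃ k ∈ s, E k n ρ) ≤ ∑ k ∈ s, A.Pr I (E k) := by
  classical
  induction s using Finset.induction_on with
  | empty =>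
    rw [Finset.sum_empty]
    have h1 : A.Pr I (fun n ρ => ∃ k ∈ (∅ : Finset κ), E k n ρ) = A.L I (fun _ _ => (0 : ℝ)) := by
      unfold RFam.Pr
      congr 1
      funext n ρ
      simp
    rw [h1, A.L_const]
  | insert k s hk ih =>
    rw [Finset.sum_insert hk]
    refine le_trans ?_ (add_le_add_right ih (A.Pr I (E k)))
    refine le_trans (A.Pr_mono ?_) (A.Pr_or_le (E k) (fun n ρ => ∃ k ∈ s, E k n ρ))
    rintro n ρ ⟨l, hl, h⟩
    rcases Finset.mem_insert.1 hl with rfl | hl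
    · exact Or.inl h
    · exact Or.inr ⟨l, hl, h⟩

theorem RFam.Pr_marg (j : I → J) (hj : Function.Injective j) (E : ∀ n, (I → (A.S n).C) → Prop) :
    A.Pr J (fun n ρ => E n (fun i => ρ (j i))) = A.Pr I E := by
  classical
  exact A.L_marg j hj (fun n ρ => if E n ρ then (1 : ℝ) else 0)

open Classical in
theorem LimB_smul (a : ℝ) (E : ∀ n, (I → (A.S n).C) → Prop) :
    Obs.Bd (A := A) (I := I) (fun n ρ => a * (if E n ρ then (1 : ℝ) else 0)) |a| ∧
    A.L I (fun n ρ => a * (if E n ρ then (1 : ℝ) else 0)) = a * A.Pr I E := by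
  refine ⟨?_, A.L_smul a (LimB_bd A E)⟩
  intro n ρ
  rw [abs_mul]
  exact mul_le_of_le_one_right (abs_nonneg a) (LimB_bd A E n ρ)

open Classical in
/-- a function that is `≥ a` on `E` and nonnegative has `L ≥ a Pr E` -/
theorem RFam.le_L_of_le_on {F : Obs A I} {M a : ℝ} (hF : F.Bd M) (h0 : ∀ n ρ, 0 ≤ F n ρ)
    (E : ∀ n, (I → (A.S n).C) → Prop) (h : ∀ n ρ, E n ρ → a ≤ F n ρ) (ha : 0 ≤ a) : a * A.Pr I E ≤ A.L I F := by
  obtain ⟨h1, h2⟩ := LimB_smul A a E
  rw [← h2]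
  refine A.L_mono h1 hF ?_
  intro n ρ
  by_cases h3 : E n ρ
  · simpa [h3] using h n ρ h3
  · simpa [h3] using h0 n ρ

open Classical in
/-- a function bounded by `M` that vanishes off `E` has `|L| ≤ M Pr E` -/
theorem RFam.abs_L_le_of_vanish {F : Obs A I} {M : ℝ} (hF : F.Bd M)
    (E : ∀ n, (I → (A.S n).C) → Prop) (h : ∀ n ρ, ¬ E n ρ → F n ρ = 0) : |A.L I F| ≤ M * A.Pr I E := by
  obtain ⟨h1, h2⟩ := LimB_smul A M E
  obtain ⟨h3, h4⟩ := LimB_smul A (-M) E
  have h5 : A.L I F ≤ M * A.Pr I E := by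
    rw [← h2]
    refine A.L_mono hF h1 ?_
    intro n ρ
    by_cases h6 : E n ρ
    · simpa [h6] using (le_abs_self _).trans (hF n ρ)
    · simp [h6, h n ρ h6]
  have h7 : -M * A.Pr I E ≤ A.L I F := by
    rw [← h4]
    refine A.L_mono h3 hF ?_
    intro n ρ
    by_cases h6 : E n ρ
    · simpa [h6] using (neg_le_neg (hF n ρ)).trans (neg_abs_le _)
    · simp [h6, h n ρ h6]
  rw [abs_le]
  exact ⟨by linarith, h5⟩

/-- if `|F - G| ≤ a` off an event of probability zero then `|L F - L G| ≤ a` -/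
theorem RFam.abs_L_sub_le {F G : Obs A I} {M M' a : ℝ} (hF : F.Bd M) (hG : G.Bd M') (ha : 0 ≤ a)
    (E : ∀ n, (I → (A.S n).C) → Prop) (hE : A.Pr I E = 0) (h : ∀ n ρ, ¬ E n ρ → |F n ρ - G n ρ| ≤ a) :
    |A.L I F - A.L I G| ≤ a := by
  classical
  obtain ⟨h1, h2⟩ := LimB_smul A (M + M') E
  obtain ⟨h3, h4⟩ := LimB_smul A (-(M + M')) E
  have hc := LimB_const (I := I) A a
  have hc' := LimB_const (I := I) A (-a)
  have hb : Obs.Bd (F - G) (M + M') := fun n ρ =>
    (abs_sub _ _).trans (add_le_add (hF n ρ) (hG n ρ))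
  have hsub := A.L_sub hF hG
  have hadd := A.L_add hc h1
  have hadd' := A.L_add hc' h3
  rw [A.L_const, h2, hE, mul_zero, add_zero] at hadd
  rw [A.L_const, h4, hE, mul_zero, add_zero] at hadd'
  rw [← hsub, abs_le]
  constructor
  · rw [← hadd']
    refine A.L_mono (M := |(-a)| + |(-(M + M'))|) ?_ hb ?_
    · intro n ρ
      exact (abs_add_le _ _).trans (add_le_add (hc' n ρ) (h3 n ρ))
    · intro n ρ
      change -a + -(M + M') * (if E n ρ then (1 : ℝ) else 0) ≤ F n ρ - G n ρ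
      by_cases h6 : E n ρ
      · rw [if_pos h6]
        have h7 : |F n ρ - G n ρ| ≤ M + M' := hb n ρ
        have := (abs_le.1 h7).1
        linarith
      · rw [if_neg h6]
        have := (abs_le.1 (h n ρ h6)).1
        linarith
  · rw [← hadd]
    refine A.L_mono (M' := |a| + |M + M'|) hb ?_ ?_
    · intro n ρ
      exact (abs_add_le _ _).trans (add_le_add (hc n ρ) (h1 n ρ))
    · intro n ρ
      change F n ρ - G n ρ ≤ a + (M + M') * (if E n ρ then (1 : ℝ) else 0)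
      by_cases h6 : E n ρ
      · rw [if_pos h6]
        have h7 : |F n ρ - G n ρ| ≤ M + M' := hb n ρ
        have := (abs_le.1 h7).2
        linarith
      · rw [if_neg h6]
        have := (abs_le.1 (h n ρ h6)).2
        linarith

end SKC.EF
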