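import Pool.Agent.H.MP_08eaf3_pr.EF.Conv
import Pool.Agent.H.MP_08eaf3_pr.EF.FTree

/-!
# Tree events of a family
-/

set_option autoImplicit false

open MeasureTheory ProbabilityTheory Filter Topology Matrix

namespace SKC.EF

theorem OutT_dist (M M' : Mt) {ε : ℝ} (hε : 0 ≤ ε) :
    dist M M' ≤ ε ↔ ∀ c c', |M c c' - M' c c'| ≤ ε := by
  rw [dist_pi_le_iff hε]
  refine forall_congr' fun c => ?_
  rw [dist_pi_le_iff hε]
  exact forall_congr' fun c' => by rw [Real.dist_eq]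

/-- tree events have positive limit probability (`PK.trees` with `I = Fin n × Fin k`, `g = Prod.fst`, `Supp.marg` with `finProdFinEquiv`, `L_toR`; the
`Fin n × Fin k` array uses `Q s = Ms`, `Q t = M` for `s = tr2 Ms`, `t = tr2 M`) -/
theorem trees_toR (F : SKC.Fam) (hF : F.IsGG) {Q : ℝ → Matrix (Fin 2) (Fin 2) ℝ} (hQT : ∀ M ∈ TT (toR F) (RK F), Q (tr2 M) = M)
    (s : ℝ) (hs : s ∈ tr2 '' TT (toR F) (RK F)) (t : ℝ) (ht : t ∈ tr2 '' TT (toR F) (RK F)) (hst : s ≤ t) (n k : ℕ) (hn : 0 < n)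
    (hk : 0 < k) (ε : ℝ) (hε : 0 < ε) :
    0 < F.E (n := n * k) (fun _ ρ => if ∀ (p p' : Fin n × Fin k) (c c' : Fin 2),
      |ovM (ρ (finProdFinEquiv p)) (ρ (finProdFinEquiv p')) c c' -
        (if p = p' then mat 1 1 F.u else if p.1 = p'.1 then Q t else Q s) c c'| ≤ ε then 1 else 0) := by
  obtain ⟨Ms, hMs, rfl⟩ := hs
  obtain ⟨M, hM, rfl⟩ := ht
  have h1 := (PK_toR F hF).trees hMs hM hst n hn (Fin n × Fin k) Prod.fst
    (fun i => ⟨(i, ⟨0, hk⟩), rfl⟩)
  have h2 := (h1.marg finProdFinEquiv.symm finProdFinEquiv.symm.injective) ε hε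
  rw [← L_toR]
  unfold RFam.Pr at h2
  refine lt_of_lt_of_eq h2 ?_
  congr 1
  funext i ρ
  have h3 : ∀ p p' : Fin n × Fin k, (dist (RK F i (ρ (finProdFinEquiv p)) (ρ (finProdFinEquiv p')))
      (tarr F.u Ms M (Prod.fst : Fin n × Fin k → Fin n) p p') ≤ ε ↔
      ∀ c c' : Fin 2, |ovM (ρ (finProdFinEquiv p)) (ρ (finProdFinEquiv p')) c c' -
        (if p = p' then mat 1 1 F.u else if p.1 = p'.1 then Q (tr2 M) else Q (tr2 Ms)) c c'| ≤ ε) := by
    intro p p'
    rw [OutT_dist _ _ hε.le]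
    refine forall_congr' fun c => forall_congr' fun c' => ?_
    have h4 : (tarr F.u Ms M (Prod.fst : Fin n × Fin k → Fin n) p p' : Mt) c c' =
        (if p = p' then mat 1 1 F.u else if p.1 = p'.1 then Q (tr2 M) else Q (tr2 Ms)) c c' := by
      unfold tarr
      rw [hQT M hM, hQT Ms hMs]
      split_ifs <;> rfl
    rw [h4]
    rfl
  have h6 : (∀ l l' : Fin (n * k), dist (RK F i (ρ l) (ρ l'))
      (tarr F.u Ms M (Prod.fst : Fin n × Fin k → Fin n) (finProdFinEquiv.symm l)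
        (finProdFinEquiv.symm l')) ≤ ε) ↔ ∀ (p p' : Fin n × Fin k) (c c' : Fin 2),
      |ovM (ρ (finProdFinEquiv p)) (ρ (finProdFinEquiv p')) c c' -
        (if p = p' then mat 1 1 F.u else if p.1 = p'.1 then Q (tr2 M) else Q (tr2 Ms)) c c'| ≤ ε := by
    constructor
    · intro h p p'
      rw [← h3 p p']
      have h5 := h (finProdFinEquiv p) (finProdFinEquiv p')
      rw [Equiv.symm_apply_apply, Equiv.symm_apply_apply] at h5
      exact h5
    · intro h l l'
      have h5 := (h3 (finProdFinEquiv.symm l) (finProdFinEquiv.symm l')).2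
        (h (finProdFinEquiv.symm l) (finProdFinEquiv.symm l'))
      rw [Equiv.apply_symm_apply, Equiv.apply_symm_apply] at h5
      exact h5
  by_cases hA : ∀ (p p' : Fin n × Fin k) (c c' : Fin 2),
      |ovM (ρ (finProdFinEquiv p)) (ρ (finProdFinEquiv p')) c c' -
        (if p = p' then mat 1 1 F.u else if p.1 = p'.1 then Q (tr2 M) else Q (tr2 Ms)) c c'| ≤ ε
  · rw [if_pos hA]
    exact if_pos (h6.2 hA)
  · rw [if_neg hA]
    exact if_neg fun h => hA (h6.1 h)

end SKC.EF
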