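import Pool.Agent.H.MP_08eaf3_pr.EF.Conv
import Pool.Agent.H.MP_08eaf3_pr.EF.FLaw
import Pool.Agent.H.MP_08eaf3_pr.EF.OutT
import Pool.Agent.H.MP_08eaf3_pr.EF.FPsd

/-!
# Main theorem of the parts E and F (interface for G and H)
-/

set_option autoImplicit false

open MeasureTheory ProbabilityTheory Filter Topology Matrix

namespace SKC.EF

theorem Out_bd (F : SKC.Fam) (hF : F.IsGG) (n : (toR F).ι) (c c' : ((toR F).S n).C) :
    |tr2 (RK F n c c')| ≤ 2 := by
  have h := PK_toR F hF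
  have h0 := h.bd n c c' 0 0
  have h1 := h.bd n c c' 1 1
  unfold tr2
  calc |RK F n c c' 0 0 + RK F n c c' 1 1| ≤ |RK F n c c' 0 0| + |RK F n c c' 1 1| :=
        abs_add_le _ _
    _ ≤ 2 := by linarith

theorem Out_cont : Continuous tr2 := by
  unfold tr2
  exact (continuous_apply_apply 0 0).add (continuous_apply_apply 1 1)

/-- assembly -/
theorem ordData (F : SKC.Fam) (hF : F.IsGG) : Nonempty (OrdData F) := by
  have h := PK_toR F hF
  obtain ⟨Q, hQc, hQT⟩ := h.exists_Q
  obtain ⟨μ, hprob, -, hμ⟩ := exists_mu (toR F) (fun n c c' => tr2 (RK F n c c')) (Out_bd F hF)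
  exact ⟨{
    T := tr2 '' TT (toR F) (RK F)
    Q := Q
    μ := μ
    prob := hprob
    comp := h.isCompact_TT.image Out_cont
    ne := h.TT_nonempty.image _
    sub := by
      rintro _ ⟨M, hM, rfl⟩
      exact ⟨h.tr_nonneg hM, h.tr_le hM⟩
    supp1 := h.mu_compl hμ
    supp2 := fun t ht ε hε => h.mu_pos hμ ht ε hε
    Qcont := hQc
    psd := by
      rintro _ ⟨M, hM, rfl⟩
      rw [hQT M hM]
      exact psd_of_qf (h.sym hM) (h.qf_nonneg hM)
    tr := by
      rintro _ ⟨M, hM, rfl⟩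
      rw [trace_eq_tr2, hQT M hM]
    leD := by
      rintro _ ⟨M, hM, rfl⟩
      rw [hQT M hM]
      exact psd_sub_of_qf (h.sym hM) rfl (h.qf_le hM)
    mono := by
      rintro _ ⟨M, hM, rfl⟩ _ ⟨M', hM', rfl⟩ hle
      rw [hQT M hM, hQT M' hM']
      exact psd_sub_of_qf (h.sym hM) (h.sym hM') (h.mono hM hM' hle)
    law2 := by
      intro ψ hψ
      rw [← h.law2 hμ hQc hQT ψ hψ]
      exact (L_toR F (n := 2) (fun _ r => ψ (ovM (r 0) (r 1)))).symm
    ultra3 := by
      intro ε hε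
      have h3 := h.ultra3 ε hε
      unfold RFam.Pr at h3
      rw [← h3, ← L_toR F (n := 3)]
      congr 1
      funext n ρ
      simp only [trace_eq_tr2]
      congr
    trees := fun s hs t ht hst n k hn hk ε hε => trees_toR F hF hQT s hs t ht hst n k hn hk ε hε }⟩

end SKC.EF
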