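import Pool.Agent.H.MP_08eaf3_pr.EF.SuppB
import Pool.Agent.H.MP_08eaf3_pr.EF.Dup
import Pool.Agent.H.MP_08eaf3_pr.EF.CascDef

/-!
# Part F: overlap kernels with values in the 2x2 matrices (definitions)
-/

set_option autoImplicit false

open MeasureTheory Filter

namespace SKC.EF

/-- 2x2 matrices as functions -/
abbrev Mt : Type := Fin 2 → Fin 2 → ℝ

/-- trace -/
def tr2 (M : Mt) : ℝ := M 0 0 + M 1 1

/-- quadratic form of the symmetric part -/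
def qf (v : Fin 2 → ℝ) (M : Mt) : ℝ := v 0 ^ 2 * M 0 0 + v 1 ^ 2 * M 1 1 + v 0 * v 1 * (M 0 1 + M 1 0)

/-- `(M00, M11, M01 + M10)` -/
def tv (M : Mt) : ℝ × ℝ × ℝ := (M 0 0, M 1 1, M 0 1 + M 1 0)

/-- box containing all overlap matrices -/
def box : Set Mt := {M | ∀ i j, |M i j| ≤ 1}

/-- overlap kernel of a pair system with Ghirlanda-Guerra identities; `u` = overlap of the two spins of one pair -/
structure PK (A : RFam) (R : Ker A Mt) (u : ℝ) : Prop where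
  bd : ∀ n c c' i j, |R n c c' i j| ≤ 1
  symm : ∀ n c c' i j, R n c c' i j = R n c' c j i
  psd : ∀ (n : A.ι) (I : Type) [Fintype I] (ρ : I → (A.S n).C) (x : I → Fin 2 → ℝ),
    0 ≤ ∑ l, ∑ l', ∑ i, ∑ j, x l i * x l' j * R n (ρ l) (ρ l') i j
  diag : ∀ ε : ℝ, 0 < ε → A.Pr (Fin 1) (fun n ρ => ¬ ∀ i j, |R n (ρ 0) (ρ 0) i j - mat 1 1 u i j| ≤ ε) = 0
  gg : ∀ ψ : ℝ × ℝ × ℝ → ℝ, Continuous ψ → GG A (fun n c c' => ψ (tv (R n c c')))

/-- support of the overlap matrix of two replicas -/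
def TT (A : RFam) (R : Ker A Mt) : Set Mt := {M | ∃ a, Supp A R (Fin 2) a ∧ a 0 1 = M}

end SKC.EF
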