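import Pool.Agent.H.MP_08eaf3_pr.EF.LimB

/-!
# Supports of overlap arrays
-/

set_option autoImplicit false

open MeasureTheory Filter

namespace SKC.EF

variable (A : RFam) {I J : Type} [Fintype I] [Fintype J] {E E' : Type} [PseudoMetricSpace E] [PseudoMetricSpace E']

/-- the array of the replicas `ρ` -/
def Ker.arr {A : RFam} {E : Type} (T : Ker A E) {I : Type} {n : A.ι} (ρ : I → (A.S n).C) : I → I → E :=
  fun l l' => T n (ρ l) (ρ l')

variable {A}

/-- marginals (`RFam.Pr_marg`, `RFam.Pr_mono`) -/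
theorem Supp.marg {T : Ker A E} (j : I → J) (hj : Function.Injective j) {a : J → J → E} (h : Supp A T J a) :
    Supp A T I (fun i i' => a (j i) (j i')) := by
  intro ε hε
  refine (h ε hε).trans_le ?_
  rw [← A.Pr_marg j hj]
  exact A.Pr_mono fun n ρ hρ l l' => hρ (j l) (j l')

/-- continuous images -/
theorem Supp.map {T : Ker A E} {g : E → E'} (hg : Continuous g) {a : I → I → E} (h : Supp A T I a) :
    Supp A (fun n c c' => g (T n c c')) I (fun l l' => g (a l l')) := by
  intro ε hε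
  have h1 : ∀ l l' : I, ∀ᶠ δ in nhdsWithin (0 : ℝ) (Set.Ioi 0), ∀ x : E, dist x (a l l') ≤ δ →
      dist (g x) (g (a l l')) ≤ ε := by
    intro l l'
    obtain ⟨δ, hδ, hd⟩ := Metric.continuous_iff.1 hg (a l l') ε hε
    filter_upwards [Ioo_mem_nhdsGT hδ] with δ' hδ' x hx
    exact (hd x (hx.trans_lt hδ'.2)).le
  have h2 : ∀ᶠ δ in nhdsWithin (0 : ℝ) (Set.Ioi 0), ∀ l l' : I, ∀ x : E, dist x (a l l') ≤ δ →
      dist (g x) (g (a l l')) ≤ ε :=
    eventually_all.2 fun l => eventually_all.2 fun l' => h1 l l'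
  obtain ⟨δ, hδ, hδ0⟩ := (h2.and self_mem_nhdsWithin).exists
  refine (h δ hδ0).trans_le ?_
  exact A.Pr_mono fun n ρ hρ l l' => hδ l l' _ (hρ l l')

/-- the support is closed -/
theorem Supp.isClosed (T : Ker A E) : IsClosed {a : I → I → E | Supp A T I a} := by
  refine isClosed_of_closure_subset fun a ha ε hε => ?_
  obtain ⟨b, hb, hab⟩ := Metric.mem_closure_iff.1 ha (ε / 2) (half_pos hε)
  have hb' : Supp A T I b := hb
  refine (hb' (ε / 2) (half_pos hε)).trans_le ?_
  refine A.Pr_mono fun n ρ hρ l l' => ?_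
  have h1 : dist (a l l') (b l l') ≤ ε / 2 :=
    ((dist_le_pi_dist (a l) (b l) l').trans (dist_le_pi_dist a b l)).trans hab.le
  have h2 := hρ l l'
  have h3 := dist_triangle (T n (ρ l) (ρ l')) (b l l') (a l l')
  rw [dist_comm (b l l') (a l l')] at h3
  linarith

/-- support points satisfy every closed condition that holds with limit probability one -/
theorem Supp.mem {T : Ker A E} {a : I → I → E} (h : Supp A T I a) {X : Set (I → I → E)} (hX : IsClosed X)
    (h0 : A.Pr I (fun _ ρ => T.arr ρ ∉ X) = 0) : a ∈ X := by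
  by_contra ha
  obtain ⟨ε, hε, hball⟩ := Metric.isOpen_iff.1 hX.isOpen_compl a ha
  have h1 := h (ε / 2) (half_pos hε)
  have h2 : A.Pr I (fun n ρ => ∀ l l', dist (T n (ρ l) (ρ l')) (a l l') ≤ ε / 2) ≤
      A.Pr I (fun _ ρ => T.arr ρ ∉ X) := by
    refine A.Pr_mono fun n ρ hρ => ?_
    have h3 : (T.arr ρ : I → I → E) ∈ Metric.ball a ε := by
      rw [Metric.mem_ball]
      refine lt_of_le_of_lt ?_ (half_lt_self hε)
      rw [dist_pi_le_iff (half_pos hε).le]
      intro l
      rw [dist_pi_le_iff (half_pos hε).le]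
      intro l'
      exact hρ l l'
    exact hball h3
  rw [h0] at h2
  exact absurd h1 (not_lt.2 h2)

/-- in particular every closed condition that always holds -/
theorem Supp.mem' {T : Ker A E} {a : I → I → E} (h : Supp A T I a) {X : Set (I → I → E)} (hX : IsClosed X)
    (h0 : ∀ n (ρ : I → (A.S n).C), T.arr ρ ∈ X) : a ∈ X := by
  refine h.mem hX (le_antisymm ?_ (A.Pr_nonneg _))
  have h1 : A.Pr I (fun _ ρ => T.arr ρ ∉ X) = A.L I (fun _ _ => 0) := by
    unfold RFam.Pr
    congr 1
    funext n ρ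
    rw [if_neg (not_not.2 (h0 n ρ))]
  rw [h1, A.L_const]

end SKC.EF
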