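import Pool.Agent.H.MP_08eaf3_pr.EF.SuppA

/-!
# Supports of overlap arrays: existence, Gram kernels
-/

set_option autoImplicit false

open MeasureTheory Filter

namespace SKC.EF

variable {A : RFam} {I J : Type} [Fintype I] [Fintype J] {E E' : Type} [PseudoMetricSpace E] [PseudoMetricSpace E']

/-- existence of a support point in the compact set -/
theorem SuppB_exists {T : Ker A E} {𝒦 : Set E} (h𝒦 : IsCompact 𝒦) (hT : ∀ n c c', T n c c' ∈ 𝒦)
    {X : Set (I → I → E)} (hX : IsClosed X) (hp : 0 < A.Pr I (fun _ ρ => T.arr ρ ∈ X)) :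
    ∃ a ∈ X, a ∈ (Set.univ.pi fun _ : I => Set.univ.pi fun _ : I => 𝒦) ∧ Supp A T I a := by
  by_contra hcon
  push Not at hcon
  obtain ⟨C, hC⟩ : ∃ C : Set (I → I → E),
      C = (Set.univ.pi fun _ : I => Set.univ.pi fun _ : I => 𝒦) ∩ X := ⟨_, rfl⟩
  have hCc : IsCompact C := by
    rw [hC]
    exact (isCompact_univ_pi fun _ => isCompact_univ_pi fun _ => h𝒦).inter_right hX
  have h1 : ∀ a, ∃ ε : ℝ, 0 < ε ∧ (a ∈ C →
      A.Pr I (fun n ρ => ∀ l l', dist (T n (ρ l) (ρ l')) (a l l') ≤ ε) = 0) := by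
    intro a
    by_cases ha : a ∈ C
    · have h2 : ¬ Supp A T I a := by
        rw [hC] at ha
        exact hcon a ha.2 ha.1
      unfold Supp at h2
      push Not at h2
      obtain ⟨ε, hε, h3⟩ := h2
      exact ⟨ε, hε, fun _ => le_antisymm h3 (RFam.Pr_nonneg A _)⟩
    · exact ⟨1, one_pos, fun h => absurd h ha⟩
  choose ε hε hnull using h1
  obtain ⟨t, htC, htcov⟩ := hCc.elim_nhds_subcover (fun a => Metric.ball a (ε a))
    fun a _ => Metric.ball_mem_nhds a (hε a)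
  have h2 : A.Pr I (fun _ ρ => T.arr ρ ∈ X) ≤ A.Pr I (fun n ρ => ∃ a ∈ t, ∀ l l',
      dist (T n (ρ l) (ρ l')) (a l l') ≤ ε a) := by
    apply RFam.Pr_mono
    intro n ρ hρ
    have h3 : T.arr ρ ∈ C := by
      rw [hC]
      exact ⟨fun l _ l' _ => hT n _ _, hρ⟩
    obtain ⟨a, ha, hball⟩ := Set.mem_iUnion₂.1 (htcov h3)
    refine ⟨a, ha, fun l l' => ?_⟩
    have h4 : dist (T.arr ρ) a < ε a := hball
    have h5 : dist (T.arr ρ l) (a l) ≤ dist (T.arr ρ) a := dist_le_pi_dist _ _ l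
    have h6 : dist (T.arr ρ l l') (a l l') ≤ dist (T.arr ρ l) (a l) := dist_le_pi_dist _ _ l'
    exact (h6.trans h5).trans h4.le
  have h3 : A.Pr I (fun n ρ => ∃ a ∈ t, ∀ l l', dist (T n (ρ l) (ρ l')) (a l l') ≤ ε a) ≤
      ∑ a ∈ t, A.Pr I (fun n ρ => ∀ l l', dist (T n (ρ l) (ρ l')) (a l l') ≤ ε a) :=
    RFam.Pr_exists_le A t fun a n ρ => ∀ l l', dist (T n (ρ l) (ρ l')) (a l l') ≤ ε a
  have h4 : ∑ a ∈ t, A.Pr I (fun n ρ => ∀ l l', dist (T n (ρ l) (ρ l')) (a l l') ≤ ε a) = 0 :=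
    Finset.sum_eq_zero fun a ha => hnull a (htC a ha)
  linarith

/-- Existence: a closed condition of positive probability contains a support point (otherwise cover the compact set
`X ∩ 𝒦^(I×I)` by finitely many null balls). -/
theorem Supp.exists_mem {T : Ker A E} {𝒦 : Set E} (h𝒦 : IsCompact 𝒦) (hT : ∀ n c c', T n c c' ∈ 𝒦)
    {X : Set (I → I → E)} (hX : IsClosed X) (hp : 0 < A.Pr I (fun _ ρ => T.arr ρ ∈ X)) :
    ∃ a ∈ X, Supp A T I a := by
  obtain ⟨a, ha, -, h⟩ := SuppB_exists h𝒦 hT hX hp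
  exact ⟨a, ha, h⟩

/-- Existence for a monotone family of closed conditions `X ε`, `ε > 0` (compactness). -/
theorem Supp.exists_mem_all {T : Ker A E} {𝒦 : Set E} (h𝒦 : IsCompact 𝒦) (hT : ∀ n c c', T n c c' ∈ 𝒦)
    {X : ℝ → Set (I → I → E)} (hX : ∀ ε, 0 < ε → IsClosed (X ε)) (hm : ∀ ε ε', 0 < ε → ε ≤ ε' → X ε ⊆ X ε')
    (hp : ∀ ε, 0 < ε → 0 < A.Pr I (fun _ ρ => T.arr ρ ∈ X ε)) :
    ∃ a, Supp A T I a ∧ ∀ ε, 0 < ε → a ∈ X ε := by
  have hε : ∀ n : ℕ, (0 : ℝ) < 1 / ((n : ℝ) + 1) := fun n => by positivity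
  have h1 : ∀ n : ℕ, ∃ a ∈ X (1 / ((n : ℝ) + 1)),
      a ∈ (Set.univ.pi fun _ : I => Set.univ.pi fun _ : I => 𝒦) ∧ Supp A T I a := fun n =>
    SuppB_exists h𝒦 hT (hX _ (hε n)) (hp _ (hε n))
  choose a ha haC haS using h1
  have hC : IsCompact (Set.univ.pi fun _ : I => Set.univ.pi fun _ : I => 𝒦) :=
    isCompact_univ_pi fun _ => isCompact_univ_pi fun _ => h𝒦
  have hle : Filter.map a atTop ≤ 𝓟 (Set.univ.pi fun _ : I => Set.univ.pi fun _ : I => 𝒦) := by
    rw [le_principal_iff, Filter.mem_map]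
    exact univ_mem' haC
  obtain ⟨b, -, hb⟩ := hC hle
  have key : ∀ F : Set (I → I → E), IsClosed F → (∀ᶠ n in atTop, a n ∈ F) → b ∈ F := by
    intro F hF h
    have h2 : Filter.map a atTop ≤ 𝓟 F := by
      rw [le_principal_iff, Filter.mem_map]
      exact h
    have h3 := hb.mono h2
    rw [← hF.closure_eq]
    exact mem_closure_iff_clusterPt.2 h3
  refine ⟨b, key _ (Supp.isClosed T) (Eventually.of_forall haS), fun ε h0 => ?_⟩
  refine key _ (hX ε h0) ?_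
  obtain ⟨N, hN⟩ := exists_nat_one_div_lt h0
  filter_upwards [eventually_ge_atTop N] with n hn
  have h2 : 1 / ((n : ℝ) + 1) ≤ ε := by
    have h3 : 1 / ((n : ℝ) + 1) ≤ 1 / ((N : ℝ) + 1) := by
      apply one_div_le_one_div_of_le (by positivity)
      have : (N : ℝ) ≤ n := by exact_mod_cast hn
      linarith
    linarith
  exact hm _ _ (hε n) h2 (ha n)

/-- a Gram kernel is bounded: `|K(c,c')| ≤ M` -/
theorem IsGram.abs_le {K : Ker A ℝ} {M : ℝ} (h : IsGram A K M) (n : A.ι) (c c' : (A.S n).C) : |K n c c'| ≤ M := by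
  have h1 := h.psd n (Fin 2) ![c, c'] ![1, 1]
  have h2 := h.psd n (Fin 2) ![c, c'] ![1, -1]
  simp only [Fin.sum_univ_two, Matrix.cons_val_zero, Matrix.cons_val_one] at h1 h2
  have h3 := h.symm n c c'
  have h4 := h.diag n c
  have h5 := h.diag n c'
  rw [_root_.abs_le]
  constructor <;> linarith

/-- support points of a Gram kernel: symmetric, diagonal at most `M`, positive semidefinite -/
theorem Supp.gram {K : Ker A ℝ} {M : ℝ} (h : IsGram A K M) {a : I → I → ℝ} (ha : Supp A K I a) :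
    (∀ l l', a l l' = a l' l) ∧ (∀ l, a l l ≤ M) ∧ ∀ x : I → ℝ, 0 ≤ ∑ l, ∑ l', x l * x l' * a l l' := by
  refine ⟨fun l l' => ?_, fun l => ?_, fun x => ?_⟩
  · exact ha.mem' (X := {a : I → I → ℝ | a l l' = a l' l})
      (isClosed_eq (by fun_prop) (by fun_prop)) fun n ρ => h.symm n _ _
  · exact ha.mem' (X := {a : I → I → ℝ | a l l ≤ M})
      (isClosed_le (by fun_prop) (by fun_prop)) fun n ρ => h.diag n _
  · exact ha.mem' (X := {a : I → I → ℝ | 0 ≤ ∑ l, ∑ l', x l * x l' * a l l'})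
      (isClosed_le (by fun_prop) (by fun_prop)) fun n ρ => h.psd n I ρ x

end SKC.EF
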