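import Mathlib

/-!
# Finite replica systems with disorder, Gibbs averages, ultrafilter limits (common definitions)

`Sys`: probability space of the disorder, finite configuration space, random Gibbs weights.
`S.av I ω f` = Gibbs average of a function of replicas indexed by the finite type `I`.
`S.ex I f` = disorder average of it.  `RFam` = sequence of systems with an ultrafilter; `A.L I F` = limit of the averages
of the bounded family `F` of functions of replicas.
-/

set_option autoImplicit false

open MeasureTheory Filter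

namespace SKC.EF

/-- A finite system with disorder. -/
structure Sys where
  Ω : Type
  C : Type
  [mΩ : MeasurableSpace Ω]
  [fC : Fintype C]
  P : Measure Ω
  [prob : IsProbabilityMeasure P]
  w : Ω → C → ℝ
  w_nonneg : ∀ ω c, 0 ≤ w ω c
  w_sum : ∀ ω, ∑ c, w ω c = 1
  w_meas : ∀ c, Measurable (fun ω => w ω c)

attribute [instance] Sys.mΩ Sys.fC Sys.prob

open Classical in
/-- Gibbs average over independent replicas indexed by `I`. -/
noncomputable def Sys.av (S : Sys) (I : Type) [Fintype I] (ω : S.Ω) (f : (I → S.C) → ℝ) : ℝ :=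
  ∑ ρ : I → S.C, (∏ i, S.w ω (ρ i)) * f ρ

/-- Average over the disorder and the replicas (the integrand may depend on the disorder). -/
noncomputable def Sys.ex (S : Sys) (I : Type) [Fintype I] (f : S.Ω → (I → S.C) → ℝ) : ℝ :=
  ∫ ω, S.av I ω (f ω) ∂S.P

/-- A sequence of systems together with an ultrafilter. -/
structure RFam where
  ι : Type
  U : Ultrafilter ι
  S : ι → Sys

/-- Families of functions of replicas indexed by `I`. -/
abbrev Obs (A : RFam) (I : Type) := ∀ n, (I → (A.S n).C) → ℝ

/-- uniformly bounded by `M` -/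
def Obs.Bd {A : RFam} {I : Type} (F : Obs A I) (M : ℝ) : Prop := ∀ n ρ, |F n ρ| ≤ M

/-- The limit functional. -/
noncomputable def RFam.L (A : RFam) (I : Type) [Fintype I] (F : Obs A I) : ℝ :=
  limUnder (A.U : Filter A.ι) (fun n => (A.S n).ex I (fun _ => F n))

open Classical in
/-- limit probability of an event of replicas -/
noncomputable def RFam.Pr (A : RFam) (I : Type) [Fintype I] (E : ∀ n, (I → (A.S n).C) → Prop) : ℝ :=
  A.L I (fun n ρ => if E n ρ then 1 else 0)

/-- kernels with values in `E` -/
abbrev Ker (A : RFam) (E : Type) := ∀ n, (A.S n).C → (A.S n).C → E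

/-- the function of replicas `K(ρ_i, ρ_j)` -/
def Ker.at {A : RFam} (K : Ker A ℝ) {I : Type} (i j : I) : Obs A I := fun n ρ => K n (ρ i) (ρ j)

/-- forget the last replica -/
def Obs.up {A : RFam} {I : Type} (F : Obs A I) : Obs A (Option I) := fun n ρ => F n (fun i => ρ (some i))

open Classical in
/-- The Ghirlanda-Guerra identity for the (bounded) kernel `K`: for all finite `I`, `i0 : I` and all bounded `F`. -/
def GG (A : RFam) (K : Ker A ℝ) : Prop :=
  ∀ (I : Type) [Fintype I] (i0 : I) (F : Obs A I) (M : ℝ), F.Bd M →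
    (Fintype.card I : ℝ) * A.L (Option I) (F.up * K.at (some i0) none)
      = A.L I F * A.L (Fin 2) (K.at 0 1) + ∑ l ∈ Finset.univ.erase i0, A.L I (F * K.at i0 l)

/-- symmetric positive semidefinite kernel whose diagonal is bounded by `M` -/
structure IsGram (A : RFam) (K : Ker A ℝ) (M : ℝ) : Prop where
  symm : ∀ n c c', K n c c' = K n c' c
  diag : ∀ n c, K n c c ≤ M
  psd : ∀ (n : A.ι) (I : Type) [Fintype I] (ρ : I → (A.S n).C) (x : I → ℝ),
    0 ≤ ∑ l, ∑ l', x l * x l' * K n (ρ l) (ρ l')

/-- `a` is in the support of the array `T(ρ_l, ρ_l')`, `l, l' : I`. -/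
def Supp (A : RFam) {E : Type} [PseudoMetricSpace E] (T : Ker A E) (I : Type) [Fintype I] (a : I → I → E) : Prop :=
  ∀ ε : ℝ, 0 < ε → 0 < A.Pr I (fun n ρ => ∀ l l', dist (T n (ρ l) (ρ l')) (a l l') ≤ ε)

end SKC.EF
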