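import Pool.Agent.H.MP_08eaf3_pr.EF.TiltDef

/-!
# Tilted averages: bounds
-/

set_option autoImplicit false

open MeasureTheory Filter

namespace SKC.EF

variable (S : Sys) {I : Type} [Fintype I] (i0 : I) (K : S.C → S.C → ℝ)

theorem Sys.Z_pos (t : ℝ) (ω : S.Ω) (c : S.C) : 0 < S.Z K t ω c := by
  unfold Sys.Z
  have h0 : ∀ c' ∈ Finset.univ, 0 ≤ S.w ω c' * Real.exp (t * K c c') := fun c' _ =>
    mul_nonneg (S.w_nonneg ω c') (Real.exp_pos _).le
  refine lt_of_le_of_ne (Finset.sum_nonneg h0) fun h => ?_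
  have h1 := (Finset.sum_eq_zero_iff_of_nonneg h0).1 h.symm
  have h2 : ∑ c', S.w ω c' = 0 := Finset.sum_eq_zero fun c' hc' => by
    have h3 := h1 c' hc'
    rcases mul_eq_zero.1 h3 with h4 | h4
    · exact h4
    · exact absurd h4 (Real.exp_pos _).ne'
  rw [S.w_sum ω] at h2
  exact one_ne_zero h2

/-- a lower bound of the exponentials gives a lower bound of `Z` -/
theorem Sys.TiltA_le_Z {a t : ℝ} {ω : S.Ω} {c : S.C} (h : ∀ c', a ≤ Real.exp (t * K c c')) :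
    a ≤ S.Z K t ω c := by
  unfold Sys.Z
  calc a = (∑ c', S.w ω c') * a := by rw [S.w_sum ω, one_mul]
    _ = ∑ c', S.w ω c' * a := Finset.sum_mul _ _ _
    _ ≤ ∑ c', S.w ω c' * Real.exp (t * K c c') :=
        Finset.sum_le_sum fun c' _ => mul_le_mul_of_nonneg_left (h c') (S.w_nonneg ω c')

/-- for `K ≥ 0`, `t ≥ 0`: `Z ≥ 1` -/
theorem Sys.one_le_Z (hK : ∀ c c', 0 ≤ K c c') {t : ℝ} (ht : 0 ≤ t) (ω : S.Ω) (c : S.C) : 1 ≤ S.Z K t ω c :=
  S.TiltA_le_Z K fun c' => Real.one_le_exp (mul_nonneg ht (hK c c'))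

theorem TiltA_abs_mul_le {t x : ℝ} (h0 : 0 ≤ x) (h1 : x ≤ 1) : |t * x| ≤ |t| := by
  rw [abs_mul, abs_of_nonneg h0]
  exact mul_le_of_le_one_right (abs_nonneg t) h1

/-- for `0 ≤ K ≤ 1`, every `t`: `Z ≥ exp(-|t|)` -/
theorem Sys.exp_le_Z (hK : ∀ c c', 0 ≤ K c c' ∧ K c c' ≤ 1) (t : ℝ) (ω : S.Ω) (c : S.C) :
    Real.exp (-|t|) ≤ S.Z K t ω c :=
  S.TiltA_le_Z K fun c' => Real.exp_le_exp.2
    ((neg_le_neg (TiltA_abs_mul_le (hK c c').1 (hK c c').2)).trans (neg_abs_le _))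

theorem Sys.measurable_Z (t : ℝ) (c : S.C) : Measurable fun ω => S.Z K t ω c := by
  unfold Sys.Z
  exact Finset.measurable_fun_sum _ fun c' _ => (S.w_meas c').mul measurable_const

/-- the exponent lies in `[0, m]` -/
theorem TiltA_sum_mem {C : Type} (K : C → C → ℝ) (hK : ∀ c c', 0 ≤ K c c' ∧ K c c' ≤ 1)
    {γ : ℝ} (h0 : 0 ≤ γ) (h1 : γ ≤ 1) [DecidableEq I] (ρ : I → C) :
    0 ≤ (∑ l ∈ Finset.univ.erase i0, K (ρ i0) (ρ l)) + γ ∧
      (∑ l ∈ Finset.univ.erase i0, K (ρ i0) (ρ l)) + γ ≤ Fintype.card I := by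
  constructor
  · exact add_nonneg (Finset.sum_nonneg fun l _ => (hK _ _).1) h0
  · have h2 : (∑ l ∈ Finset.univ.erase i0, K (ρ i0) (ρ l)) ≤ (Fintype.card I : ℝ) - 1 := by
      refine (Finset.sum_le_card_nsmul _ _ 1 fun l _ => (hK _ _).2).trans ?_
      have h3 : (Finset.univ.erase i0 : Finset I).card + 1 = Fintype.card I :=
        Finset.card_erase_add_one (Finset.mem_univ i0)
      rw [← h3]
      simp
    linarith

/-- crude bound: the integrand is bounded and measurable -/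
theorem Sys.nice_tint (hK : ∀ c c', 0 ≤ K c c' ∧ K c c' ≤ 1) {γ : ℝ} (h0 : 0 ≤ γ) (h1 : γ ≤ 1) (t : ℝ)
    {f : (I → S.C) → ℝ} {M : ℝ} (hf : ∀ ρ, |f ρ| ≤ M) :
    S.Nice (S.tint i0 K γ t f) (M * Real.exp (2 * Fintype.card I * |t|)) := by
  classical
  constructor
  · intro ω ρ
    have hM : 0 ≤ M := (abs_nonneg _).trans (hf ρ)
    obtain ⟨ha, hb⟩ := TiltA_sum_mem i0 K hK h0 h1 ρ
    unfold Sys.tint
    have hZ := S.exp_le_Z K hK t ω (ρ i0)
    have hZp : 0 < S.Z K t ω (ρ i0) := S.Z_pos K t ω (ρ i0)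
    rw [abs_div, abs_mul, abs_of_pos (Real.exp_pos _), abs_of_pos (pow_pos hZp _),
      div_le_iff₀ (pow_pos hZp _)]
    have h3 : Real.exp (-(Fintype.card I * |t|)) ≤ S.Z K t ω (ρ i0) ^ Fintype.card I := by
      have h4 : Real.exp (-(Fintype.card I * |t|)) = Real.exp (-|t|) ^ Fintype.card I := by
        rw [← Real.exp_nat_mul]
        congr 1
        ring
      rw [h4]
      exact pow_le_pow_left₀ (Real.exp_pos _).le hZ _
    have h5 : Real.exp (t * ((∑ l ∈ Finset.univ.erase i0, K (ρ i0) (ρ l)) + γ)) ≤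
        Real.exp (Fintype.card I * |t|) := by
      refine Real.exp_le_exp.2 ((le_abs_self _).trans ?_)
      rw [abs_mul, abs_of_nonneg ha, mul_comm]
      exact mul_le_mul_of_nonneg_right hb (abs_nonneg t)
    calc |f ρ| * Real.exp (t * ((∑ l ∈ Finset.univ.erase i0, K (ρ i0) (ρ l)) + γ))
        ≤ M * Real.exp (Fintype.card I * |t|) := mul_le_mul (hf ρ) h5 (Real.exp_pos _).le hM
      _ = M * Real.exp (2 * Fintype.card I * |t|) * Real.exp (-(Fintype.card I * |t|)) := by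
          rw [mul_assoc, ← Real.exp_add]
          congr 2
          ring
      _ ≤ M * Real.exp (2 * Fintype.card I * |t|) * S.Z K t ω (ρ i0) ^ Fintype.card I :=
          mul_le_mul_of_nonneg_left h3 (mul_nonneg hM (Real.exp_pos _).le)
  · intro ρ
    unfold Sys.tint
    exact measurable_const.div ((S.measurable_Z K t (ρ i0)).pow_const _)

open Classical in
/-- the tilt is normalised: `< exp(t ∑_{l ≠ i0} K(ρ_{i0},ρ_l)) / Z(ρ_{i0})^{m-1} > = 1` (given `ρ_{i0}` the other replicas are independent). -/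
theorem Sys.av_tilt_eq_one (t : ℝ) (ω : S.Ω) :
    S.av I ω (fun ρ => Real.exp (t * ∑ l ∈ Finset.univ.erase i0, K (ρ i0) (ρ l))
      / (S.Z K t ω (ρ i0)) ^ (Fintype.card I - 1)) = 1 := by
  have hcard : (Finset.univ.erase i0 : Finset I).card = Fintype.card I - 1 := by
    rw [Finset.card_erase_of_mem (Finset.mem_univ i0), Finset.card_univ]
  set H : S.C → I → S.C → ℝ := fun c i x => if i = i0 then (if x = c then S.w ω c else 0)
    else S.w ω x * Real.exp (t * K c x) / S.Z K t ω c with hH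
  have h1 : ∀ ρ : I → S.C, (∏ i, S.w ω (ρ i)) *
      (Real.exp (t * ∑ l ∈ Finset.univ.erase i0, K (ρ i0) (ρ l))
        / (S.Z K t ω (ρ i0)) ^ (Fintype.card I - 1)) = ∑ c, ∏ i, H c i (ρ i) := by
    intro ρ
    rw [Finset.sum_eq_single (ρ i0)]
    · rw [← Finset.mul_prod_erase _ _ (Finset.mem_univ i0),
        ← Finset.mul_prod_erase _ (fun i => H (ρ i0) i (ρ i)) (Finset.mem_univ i0)]
      have h2 : H (ρ i0) i0 (ρ i0) = S.w ω (ρ i0) := by simp [hH]
      have h3 : ∏ i ∈ Finset.univ.erase i0, H (ρ i0) i (ρ i) =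
          ∏ i ∈ Finset.univ.erase i0, (S.w ω (ρ i) * Real.exp (t * K (ρ i0) (ρ i)) / S.Z K t ω (ρ i0)) := by
        refine Finset.prod_congr rfl fun i hi => ?_
        simp [hH, Finset.ne_of_mem_erase hi]
      rw [h2, h3, Finset.prod_div_distrib, Finset.prod_mul_distrib, Finset.prod_const, hcard,
        ← Real.exp_sum, ← Finset.mul_sum]
      ring
    · intro c _ hc
      refine Finset.prod_eq_zero (Finset.mem_univ i0) ?_
      simp [hH, Ne.symm hc]
    · intro h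
      exact absurd (Finset.mem_univ _) h
  have h4 : ∀ c : S.C, ∏ i, ∑ x, H c i x = S.w ω c := by
    intro c
    rw [← Finset.mul_prod_erase _ _ (Finset.mem_univ i0)]
    have h5 : ∑ x, H c i0 x = S.w ω c := by simp [hH]
    have h6 : ∏ i ∈ Finset.univ.erase i0, ∑ x, H c i x = 1 := by
      refine Finset.prod_eq_one fun i hi => ?_
      have h7 : ∀ x, H c i x = S.w ω x * Real.exp (t * K c x) / S.Z K t ω c := fun x => by
        simp [hH, Finset.ne_of_mem_erase hi]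
      simp only [h7]
      rw [← Finset.sum_div]
      exact div_self (S.Z_pos K t ω c).ne'
    rw [h5, h6, mul_one]
  have h8 : ∀ c : S.C, ∑ ρ : I → S.C, ∏ i, H c i (ρ i) = S.w ω c := by
    intro c
    have h9 := Finset.prod_univ_sum (fun _ : I => (Finset.univ : Finset S.C)) (H c)
    rw [Fintype.piFinset_univ] at h9
    rw [← h4 c, h9]
  unfold Sys.av
  rw [Finset.sum_congr rfl fun ρ _ => h1 ρ, Finset.sum_comm, Finset.sum_congr rfl fun c _ => h8 c,
    S.w_sum ω]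

/-- `|tex t f| ≤ M exp(2|t|)` for `|f| ≤ M`: the integrand is `f exp(tγ) / Z` times the normalised tilt. -/
theorem Sys.abs_tex_le (hK : ∀ c c', 0 ≤ K c c' ∧ K c c' ≤ 1) {γ : ℝ} (h0 : 0 ≤ γ) (h1 : γ ≤ 1) (t : ℝ)
    {f : (I → S.C) → ℝ} {M : ℝ} (hf : ∀ ρ, |f ρ| ≤ M) : |S.tex I i0 K γ t f| ≤ M * Real.exp (2 * |t|) := by
  classical
  have hpt : ∀ (ω : S.Ω) (ρ : I → S.C), |S.tint i0 K γ t f ω ρ| ≤ M * Real.exp (2 * |t|) *
      (Real.exp (t * ∑ l ∈ Finset.univ.erase i0, K (ρ i0) (ρ l))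
        / (S.Z K t ω (ρ i0)) ^ (Fintype.card I - 1)) := by
    intro ω ρ
    have hM : 0 ≤ M := (abs_nonneg _).trans (hf ρ)
    have hZ := S.exp_le_Z K hK t ω (ρ i0)
    have hZp : 0 < S.Z K t ω (ρ i0) := S.Z_pos K t ω (ρ i0)
    have hc : Fintype.card I = (Fintype.card I - 1) + 1 :=
      (Nat.sub_add_cancel (Fintype.card_pos_iff.2 ⟨i0⟩)).symm
    have h2 : S.tint i0 K γ t f ω ρ = (f ρ * Real.exp (t * γ) / S.Z K t ω (ρ i0)) *
        (Real.exp (t * ∑ l ∈ Finset.univ.erase i0, K (ρ i0) (ρ l))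
          / (S.Z K t ω (ρ i0)) ^ (Fintype.card I - 1)) := by
      unfold Sys.tint
      rw [mul_add, Real.exp_add]
      have h3 : S.Z K t ω (ρ i0) ^ Fintype.card I =
          S.Z K t ω (ρ i0) * S.Z K t ω (ρ i0) ^ (Fintype.card I - 1) := by
        conv_lhs => rw [hc]
        rw [pow_succ, mul_comm]
      rw [h3, div_mul_div_comm]
      congr 1
      ring
    have h4 : 0 ≤ Real.exp (t * ∑ l ∈ Finset.univ.erase i0, K (ρ i0) (ρ l))
          / (S.Z K t ω (ρ i0)) ^ (Fintype.card I - 1) :=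
      div_nonneg (Real.exp_pos _).le (pow_pos hZp _).le
    rw [h2, abs_mul, abs_of_nonneg h4]
    refine mul_le_mul_of_nonneg_right ?_ h4
    rw [abs_div, abs_mul, abs_of_pos (Real.exp_pos _), abs_of_pos hZp, div_le_iff₀ hZp]
    have h5 : Real.exp (t * γ) ≤ Real.exp |t| :=
      Real.exp_le_exp.2 ((le_abs_self _).trans (TiltA_abs_mul_le h0 h1))
    calc |f ρ| * Real.exp (t * γ) ≤ M * Real.exp |t| := mul_le_mul (hf ρ) h5 (Real.exp_pos _).le hM
      _ = M * Real.exp (2 * |t|) * Real.exp (-|t|) := by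
          rw [mul_assoc, ← Real.exp_add]
          congr 2
          ring
      _ ≤ M * Real.exp (2 * |t|) * S.Z K t ω (ρ i0) :=
          mul_le_mul_of_nonneg_left hZ (mul_nonneg hM (Real.exp_pos _).le)
  have hav : ∀ ω : S.Ω, |S.av I ω (S.tint i0 K γ t f ω)| ≤ M * Real.exp (2 * |t|) := by
    intro ω
    have h6 : S.av I ω (fun ρ => M * Real.exp (2 * |t|) *
        (Real.exp (t * ∑ l ∈ Finset.univ.erase i0, K (ρ i0) (ρ l))
          / (S.Z K t ω (ρ i0)) ^ (Fintype.card I - 1))) = M * Real.exp (2 * |t|) := by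
      rw [S.av_smul ω, S.av_tilt_eq_one i0 K t ω, mul_one]
    rw [abs_le]
    constructor
    · rw [← h6]
      have h7 : -S.av I ω (fun ρ => M * Real.exp (2 * |t|) *
        (Real.exp (t * ∑ l ∈ Finset.univ.erase i0, K (ρ i0) (ρ l))
          / (S.Z K t ω (ρ i0)) ^ (Fintype.card I - 1))) = S.av I ω (fun ρ => (-1) * (M * Real.exp (2 * |t|) *
        (Real.exp (t * ∑ l ∈ Finset.univ.erase i0, K (ρ i0) (ρ l))
          / (S.Z K t ω (ρ i0)) ^ (Fintype.card I - 1)))) := by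
        rw [S.av_smul ω (-1)]
        ring
      rw [h7]
      refine S.av_mono ω fun ρ => ?_
      have h8 := (abs_le.1 (hpt ω ρ)).1
      linarith
    · rw [← h6]
      exact S.av_mono ω fun ρ => (abs_le.1 (hpt ω ρ)).2
  unfold Sys.tex Sys.ex
  have h9 : ‖∫ ω, S.av I ω (S.tint i0 K γ t f ω) ∂S.P‖ ≤ M * Real.exp (2 * |t|) * S.P.real Set.univ := by
    refine norm_integral_le_of_norm_le_const (Filter.Eventually.of_forall ?_)
    intro ω
    rw [Real.norm_eq_abs]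
    exact hav ω
  rw [Real.norm_eq_abs] at h9
  simpa using h9

theorem Sys.tex_zero (γ : ℝ) (f : (I → S.C) → ℝ) : S.tex I i0 K γ 0 f = S.ex I (fun _ => f) := by
  unfold Sys.tex
  congr 1
  funext ω ρ
  unfold Sys.tint Sys.Z
  simp [S.w_sum ω]

/-- `|Lop f| ≤ m M` (the bracket lies in `[-m, m]`). -/
theorem abs_Lop_le {C : Type} (i0 : I) (K : C → C → ℝ) (hK : ∀ c c', 0 ≤ K c c' ∧ K c c' ≤ 1) {γ : ℝ} (h0 : 0 ≤ γ) (h1 : γ ≤ 1)
    {f : (I → C) → ℝ} {M : ℝ} (hf : ∀ ρ, |f ρ| ≤ M) (ρ : Option I → C) :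
    |Lop i0 K γ f ρ| ≤ Fintype.card I * M := by
  classical
  unfold Lop
  have hM : 0 ≤ M := (abs_nonneg _).trans (hf fun i => ρ (some i))
  obtain ⟨ha, hb⟩ := TiltA_sum_mem i0 K hK h0 h1 (fun i => ρ (some i))
  have hm : (0 : ℝ) ≤ Fintype.card I := Nat.cast_nonneg _
  have h2 : 0 ≤ (Fintype.card I : ℝ) * K (ρ (some i0)) (ρ none) := mul_nonneg hm (hK _ _).1
  have h3 : (Fintype.card I : ℝ) * K (ρ (some i0)) (ρ none) ≤ Fintype.card I :=
    mul_le_of_le_one_right hm (hK _ _).2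
  rw [abs_mul, mul_comm]
  refine mul_le_mul ?_ (hf _) (abs_nonneg _) hm
  rw [abs_le]
  constructor
  · linarith
  · linarith

end SKC.EF
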