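import Pool.Agent.H.MP_08eaf3_pr.EF.TiltA

/-!
# Tilted averages: derivative in `t`
-/

set_option autoImplicit false

open MeasureTheory Filter

namespace SKC.EF

variable (S : Sys) {I : Type} [Fintype I] (i0 : I) (K : S.C → S.C → ℝ)

/-- the derivative of `Z` -/
theorem TiltB_hasDerivAt_Z (t : ℝ) (ω : S.Ω) (c : S.C) :
    HasDerivAt (fun s => S.Z K s ω c) (∑ c', S.w ω c' * (Real.exp (t * K c c') * K c c')) t := by
  unfold Sys.Z
  refine HasDerivAt.fun_sum fun c' _ => ?_
  refine HasDerivAt.const_mul _ ?_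
  have h := ((hasDerivAt_id t).mul_const (K c c')).exp
  simpa using h

/-- the sum of the kernel over the extended tuple -/
theorem TiltB_sum_ext {C : Type} (K : C → C → ℝ) (i0 : I) (ρ : I → C) (c : C) (d1 : DecidableEq (Option I))
    (d2 : DecidableEq I) :
    ∑ l ∈ @Finset.erase _ d1 (Finset.univ : Finset (Option I)) (some i0), K (ρ i0) (ext ρ c l) =
      (∑ l ∈ @Finset.erase _ d2 Finset.univ i0, K (ρ i0) (ρ l)) + K (ρ i0) c := by
  rw [Finset.sum_erase_eq_sub (Finset.mem_univ _), Finset.sum_erase_eq_sub (Finset.mem_univ _), Fintype.sum_option]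
  show K (ρ i0) c + ∑ i, K (ρ i0) (ρ i) - K (ρ i0) (ρ i0) = _
  ring

omit [Fintype I] in
/-- there are configurations, so bounds are nonnegative -/
theorem TiltB_nonneg {f : (I → S.C) → ℝ} {M : ℝ} (hf : ∀ ρ, |f ρ| ≤ M) : 0 ≤ M := by
  obtain ⟨ω⟩ := MeasureTheory.nonempty_of_isProbabilityMeasure S.P
  have hC : Nonempty S.C := by
    by_contra h
    rw [not_nonempty_iff] at h
    have h1 := S.w_sum ω
    rw [Finset.univ_eq_empty, Finset.sum_empty] at h1
    exact zero_ne_one h1
  obtain ⟨c⟩ := hC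
  exact (abs_nonneg _).trans (hf fun _ => c)

open Classical in
/-- pointwise derivative of the integrand: `tint * (∑ + γ - m Z'/Z)` with `Z' = ∑ w(c') K(c,c') exp(tK(c,c'))`. -/
theorem Sys.hasDerivAt_tint (γ t : ℝ) (f : (I → S.C) → ℝ) (ω : S.Ω) (ρ : I → S.C) :
    HasDerivAt (fun s => S.tint i0 K γ s f ω ρ)
      (∑ c, S.w ω c * S.tint (some i0) K γ t (Lop i0 K γ f) ω (ext ρ c)) t := by
  obtain ⟨k, hk⟩ : ∃ k, Fintype.card I = k + 1 :=
    Nat.exists_eq_succ_of_ne_zero (Fintype.card_pos_iff.mpr ⟨i0⟩).ne'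
  set A : ℝ := (∑ l ∈ Finset.univ.erase i0, K (ρ i0) (ρ l)) + γ with hA
  set z : ℝ := S.Z K t ω (ρ i0) with hz
  set z' : ℝ := ∑ c', S.w ω c' * (Real.exp (t * K (ρ i0) c') * K (ρ i0) c') with hz'
  have hz0 : z ≠ 0 := (S.Z_pos K t ω (ρ i0)).ne'
  have hZ : HasDerivAt (fun s => S.Z K s ω (ρ i0)) z' t := TiltB_hasDerivAt_Z S K t ω (ρ i0)
  have hnum : HasDerivAt (fun s => f ρ * Real.exp (s * A)) (f ρ * (Real.exp (t * A) * A)) t := by
    refine HasDerivAt.const_mul _ ?_
    have h := ((hasDerivAt_id t).mul_const A).exp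
    simpa using h
  have hden : HasDerivAt (fun s => (S.Z K s ω (ρ i0)) ^ (k + 1)) (((k + 1 : ℕ) : ℝ) * z ^ k * z') t := by
    have h := hZ.fun_pow (k + 1)
    simpa using h
  have hq := hnum.div hden (pow_ne_zero _ hz0)
  have hR : ∑ c, S.w ω c * S.tint (some i0) K γ t (Lop i0 K γ f) ω (ext ρ c) =
      f ρ * Real.exp (t * A) / z ^ (k + 2) * (A * z - ((k + 1 : ℕ) : ℝ) * z') := by
    have e : ∀ c, S.w ω c * S.tint (some i0) K γ t (Lop i0 K γ f) ω (ext ρ c) =
        f ρ * Real.exp (t * A) / z ^ (k + 2) * (A * (S.w ω c * Real.exp (t * K (ρ i0) c)) -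
          ((k + 1 : ℕ) : ℝ) * (S.w ω c * (Real.exp (t * K (ρ i0) c) * K (ρ i0) c))) := by
      intro c
      have e1 : Lop i0 K γ f (ext ρ c) = f ρ * (A - ((k + 1 : ℕ) : ℝ) * K (ρ i0) c) := by
        unfold Lop
        rw [hk]
        rfl
      have e2 : S.tint (some i0) K γ t (Lop i0 K γ f) ω (ext ρ c) =
          Lop i0 K γ f (ext ρ c) * Real.exp (t * ((∑ l ∈ @Finset.erase _ (fun a b => Classical.propDecidable (a = b))
            (Finset.univ : Finset (Option I)) (some i0), K (ρ i0) (ext ρ c l)) + γ)) /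
            z ^ (Fintype.card (Option I)) := rfl
      rw [e2, TiltB_sum_ext K i0 ρ c _ (fun a b => Classical.propDecidable (a = b)), e1, Fintype.card_option, hk]
      have e3 : Real.exp (t * ((∑ l ∈ Finset.univ.erase i0, K (ρ i0) (ρ l)) + K (ρ i0) c + γ)) =
          Real.exp (t * A) * Real.exp (t * K (ρ i0) c) := by
        rw [← Real.exp_add, hA]
        congr 1
        ring
      rw [e3]
      ring
    rw [Finset.sum_congr rfl fun c _ => e c, ← Finset.mul_sum, Finset.sum_sub_distrib, ← Finset.mul_sum,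
      ← Finset.mul_sum]
    rfl
  rw [hR]
  have hfun : (fun s => S.tint i0 K γ s f ω ρ) =
      (fun s => f ρ * Real.exp (s * A)) / fun s => (S.Z K s ω (ρ i0)) ^ (k + 1) := by
    funext s
    show f ρ * Real.exp (s * A) / (S.Z K s ω (ρ i0)) ^ (Fintype.card I) = _
    rw [hk]
    rfl
  rw [hfun]
  refine hq.congr_deriv ?_
  show (f ρ * (Real.exp (t * A) * A) * z ^ (k + 1) - f ρ * Real.exp (t * A) * (((k + 1 : ℕ) : ℝ) * z ^ k * z')) /
    (z ^ (k + 1)) ^ 2 = _
  field_simp
  ring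

/-- derivative of the average (`hasDerivAt_integral_of_dominated_loc_of_deriv_le`, `Sys.ex_option`); the derivative is bounded
locally uniformly because everything is bounded. -/
theorem Sys.hasDerivAt_tex (hK : ∀ c c', 0 ≤ K c c' ∧ K c c' ≤ 1) {γ : ℝ} (h0 : 0 ≤ γ) (h1 : γ ≤ 1) (t : ℝ)
    {f : (I → S.C) → ℝ} {M : ℝ} (hf : ∀ ρ, |f ρ| ≤ M) :
    HasDerivAt (fun s => S.tex I i0 K γ s f) (S.tex (Option I) (some i0) K γ t (Lop i0 K γ f)) t := by
  set B : ℝ := |(Fintype.card I : ℝ) * M| * Real.exp (2 * Fintype.card (Option I) * (|t| + 1)) with hB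
  have hL : ∀ ρ, |Lop i0 K γ f ρ| ≤ Fintype.card I * M := fun ρ => abs_Lop_le i0 K hK h0 h1 hf ρ
  have hn : ∀ s, S.Nice (S.tint i0 K γ s f) (M * Real.exp (2 * Fintype.card I * |s|)) := fun s =>
    S.nice_tint i0 K hK h0 h1 s hf
  have hn' : ∀ s, S.Nice (S.tint (some i0) K γ s (Lop i0 K γ f))
      ((Fintype.card I * M) * Real.exp (2 * Fintype.card (Option I) * |s|)) := fun s =>
    S.nice_tint (some i0) K hK h0 h1 s hL
  have key := hasDerivAt_integral_of_dominated_loc_of_deriv_le (μ := S.P) (𝕜 := ℝ)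
    (F := fun s ω => S.av I ω (S.tint i0 K γ s f ω))
    (F' := fun s ω => S.av (Option I) ω (S.tint (some i0) K γ s (Lop i0 K γ f) ω))
    (x₀ := t) (s := Metric.ball t 1) (bound := fun _ => B) (Metric.ball_mem_nhds t one_pos)
    (Filter.Eventually.of_forall fun s => (S.measurable_av (hn s).2).aestronglyMeasurable)
    ((hn t).integrable) ((S.measurable_av (hn' t).2).aestronglyMeasurable)
    (Filter.Eventually.of_forall fun ω s hs => ?_) (integrable_const B)
    (Filter.Eventually.of_forall fun ω s _ => ?_)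
  · exact key.2
  · rw [Real.norm_eq_abs]
    refine S.abs_av_le ω fun ρ => ((hn' s).1 ω ρ).trans ?_
    have hs1 : |s| ≤ |t| + 1 := by
      have h2 : |s - t| < 1 := by
        have := Metric.mem_ball.mp hs
        rwa [Real.dist_eq] at this
      have h3 : |s| ≤ |t| + |s - t| := by
        calc |s| = |t + (s - t)| := by congr 1; ring
          _ ≤ |t| + |s - t| := abs_add_le _ _
      linarith
    have h4 : Real.exp (2 * Fintype.card (Option I) * |s|) ≤ Real.exp (2 * Fintype.card (Option I) * (|t| + 1)) := by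
      refine Real.exp_le_exp.mpr (mul_le_mul_of_nonneg_left hs1 ?_)
      positivity
    calc (Fintype.card I * M) * Real.exp (2 * Fintype.card (Option I) * |s|)
        ≤ |(Fintype.card I : ℝ) * M| * Real.exp (2 * Fintype.card (Option I) * |s|) :=
          mul_le_mul_of_nonneg_right (le_abs_self _) (Real.exp_pos _).le
      _ ≤ B := mul_le_mul_of_nonneg_left h4 (abs_nonneg _)
  · show HasDerivAt (fun s => S.av I ω (S.tint i0 K γ s f ω))
      (S.av (Option I) ω (S.tint (some i0) K γ s (Lop i0 K γ f) ω)) s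
    rw [S.av_option ω]
    unfold Sys.av
    exact HasDerivAt.fun_sum fun ρ _ => (S.hasDerivAt_tint i0 K γ s f ω ρ).const_mul _

/-- second order Taylor bound, uniform in the system -/
theorem Sys.tex_taylor (hK : ∀ c c', 0 ≤ K c c' ∧ K c c' ≤ 1) {γ : ℝ} (h0 : 0 ≤ γ) (h1 : γ ≤ 1) {T s t : ℝ}
    (hs : |s| ≤ T) (ht : |t| ≤ T) {f : (I → S.C) → ℝ} {M : ℝ} (hf : ∀ ρ, |f ρ| ≤ M) :
    |S.tex I i0 K γ t f - S.tex I i0 K γ s f - (t - s) * S.tex (Option I) (some i0) K γ s (Lop i0 K γ f)|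
      ≤ (Fintype.card I * (Fintype.card I + 1) * M * Real.exp (2 * T)) * (t - s) ^ 2 := by
  have hM : 0 ≤ M := TiltB_nonneg S hf
  set C : ℝ := Fintype.card I * (Fintype.card I + 1) * M * Real.exp (2 * T) with hC
  have hC0 : 0 ≤ C := by positivity
  have hL : ∀ ρ, |Lop i0 K γ f ρ| ≤ Fintype.card I * M := fun ρ => abs_Lop_le i0 K hK h0 h1 hf ρ
  have hLL : ∀ ρ, |Lop (some i0) K γ (Lop i0 K γ f) ρ| ≤ Fintype.card (Option I) * (Fintype.card I * M) := fun ρ =>
    abs_Lop_le (some i0) K hK h0 h1 hL ρ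
  have hcard : (Fintype.card (Option I) : ℝ) = Fintype.card I + 1 := by
    rw [Fintype.card_option]
    push_cast
    ring
  -- the first derivative is Lipschitz on `[-T, T]`
  have hlip : ∀ x ∈ Set.Icc (-T) T, ∀ y ∈ Set.Icc (-T) T,
      |S.tex (Option I) (some i0) K γ y (Lop i0 K γ f) - S.tex (Option I) (some i0) K γ x (Lop i0 K γ f)| ≤
        C * |y - x| := by
    intro x hx y hy
    have h := Convex.norm_image_sub_le_of_norm_hasDerivWithin_le
      (f := fun s => S.tex (Option I) (some i0) K γ s (Lop i0 K γ f))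
      (f' := fun s => S.tex (Option (Option I)) (some (some i0)) K γ s (Lop (some i0) K γ (Lop i0 K γ f)))
      (C := C) (s := Set.Icc (-T) T) (x := x) (y := y)
      (fun s _ => (S.hasDerivAt_tex (some i0) K hK h0 h1 s hL).hasDerivWithinAt) (fun s hs => ?_)
      (convex_Icc _ _) hx hy
    · exact h
    · rw [Real.norm_eq_abs]
      refine (S.abs_tex_le (some (some i0)) K hK h0 h1 s hLL).trans ?_
      rw [hcard, hC]
      have h2 : |s| ≤ T := abs_le.mpr hs
      have h3 : Real.exp (2 * |s|) ≤ Real.exp (2 * T) := Real.exp_le_exp.mpr (by linarith)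
      have h4 : (0 : ℝ) ≤ ((Fintype.card I : ℝ) + 1) * (Fintype.card I * M) := by positivity
      calc ((Fintype.card I : ℝ) + 1) * (Fintype.card I * M) * Real.exp (2 * |s|)
          ≤ ((Fintype.card I : ℝ) + 1) * (Fintype.card I * M) * Real.exp (2 * T) := mul_le_mul_of_nonneg_left h3 h4
        _ = Fintype.card I * (Fintype.card I + 1) * M * Real.exp (2 * T) := by ring
  have hsub : Set.uIcc s t ⊆ Set.Icc (-T) T := Set.uIcc_subset_Icc (abs_le.mp hs) (abs_le.mp ht)
  have hsm : s ∈ Set.Icc (-T) T := abs_le.mp hs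
  have h := Convex.norm_image_sub_le_of_norm_hasDerivWithin_le
      (f := fun x => S.tex I i0 K γ x f - (x - s) * S.tex (Option I) (some i0) K γ s (Lop i0 K γ f))
      (f' := fun x => S.tex (Option I) (some i0) K γ x (Lop i0 K γ f) -
        1 * S.tex (Option I) (some i0) K γ s (Lop i0 K γ f))
      (C := C * |t - s|) (s := Set.uIcc s t) (x := s) (y := t)
      (fun x _ => ((S.hasDerivAt_tex i0 K hK h0 h1 x hf).sub
        (((hasDerivAt_id x).sub_const s).mul_const _)).hasDerivWithinAt) (fun x hx => ?_)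
      (convex_uIcc _ _) Set.left_mem_uIcc Set.right_mem_uIcc
  · rw [Real.norm_eq_abs, Real.norm_eq_abs] at h
    have e : S.tex I i0 K γ t f - S.tex I i0 K γ s f - (t - s) * S.tex (Option I) (some i0) K γ s (Lop i0 K γ f) =
        S.tex I i0 K γ t f - (t - s) * S.tex (Option I) (some i0) K γ s (Lop i0 K γ f) -
          (S.tex I i0 K γ s f - (s - s) * S.tex (Option I) (some i0) K γ s (Lop i0 K γ f)) := by ring
    rw [e]
    refine h.trans (le_of_eq ?_)
    rw [mul_assoc, ← sq, sq_abs]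
  · rw [Real.norm_eq_abs, one_mul]
    refine (hlip s hsm x (hsub hx)).trans (mul_le_mul_of_nonneg_left ?_ hC0)
    rcases Set.mem_uIcc.mp hx with hx | hx
    · rw [abs_of_nonneg (by linarith [hx.1]), abs_of_nonneg (by linarith [hx.1, hx.2])]
      linarith [hx.2]
    · rw [abs_of_nonpos (by linarith [hx.2]), abs_of_nonpos (by linarith [hx.1, hx.2])]
      linarith [hx.1]

end SKC.EF
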