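import Pool.Agent.H.MP_08eaf3_pr.EF.TiltB

/-!
# Part E2: invariance of the limit functional under the tilt
-/

set_option autoImplicit false

open MeasureTheory Filter

namespace SKC.EF

variable (A : RFam) {I : Type} [Fintype I] (i0 : I) (K : Ker A ℝ)

theorem RFam.tendsto_texL (hK : ∀ n c c', 0 ≤ K n c c' ∧ K n c c' ≤ 1) {γ : ℝ} (h0 : 0 ≤ γ) (h1 : γ ≤ 1) (t : ℝ)
    {F : Obs A I} {M : ℝ} (hF : F.Bd M) :
    Tendsto (fun n => (A.S n).tex I i0 (K n) γ t (F n)) (A.U : Filter A.ι) (nhds (A.texL I i0 K γ t F)) := by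
  exact tendsto_of_bdd A.U _ (M * Real.exp (2 * |t|))
    (fun n => Sys.abs_tex_le (A.S n) i0 (K n) (hK n) h0 h1 t (hF n))

theorem RFam.abs_texL_le (hK : ∀ n c c', 0 ≤ K n c c' ∧ K n c c' ≤ 1) {γ : ℝ} (h0 : 0 ≤ γ) (h1 : γ ≤ 1) (t : ℝ)
    {F : Obs A I} {M : ℝ} (hF : F.Bd M) : |A.texL I i0 K γ t F| ≤ M * Real.exp (2 * |t|) := by
  have h := (A.tendsto_texL i0 K hK h0 h1 t hF).abs
  exact le_of_tendsto h (Filter.Eventually.of_forall
    (fun n => Sys.abs_tex_le (A.S n) i0 (K n) (hK n) h0 h1 t (hF n)))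

theorem RFam.texL_zero (γ : ℝ) (F : Obs A I) : A.texL I i0 K γ 0 F = A.L I F := by
  unfold RFam.texL RFam.L
  simp only [Sys.tex_zero]

/-- pass to the limit in `Sys.tex_taylor`; a quadratic error bound gives the derivative -/
theorem RFam.hasDerivAt_texL (hK : ∀ n c c', 0 ≤ K n c c' ∧ K n c c' ≤ 1) {γ : ℝ} (h0 : 0 ≤ γ) (h1 : γ ≤ 1) (t : ℝ)
    {F : Obs A I} {M : ℝ} (hF : F.Bd M) :
    HasDerivAt (fun s => A.texL I i0 K γ s F) (A.texL (Option I) (some i0) K γ t (F.gen i0 K γ)) t := by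
  have hG : (F.gen i0 K γ).Bd (Fintype.card I * M) := fun n ρ =>
    abs_Lop_le i0 (K n) (hK n) h0 h1 (hF n) ρ
  set C : ℝ := Fintype.card I * (Fintype.card I + 1) * M * Real.exp (2 * (|t| + 1)) with hC
  have key : ∀ s : ℝ, |s| ≤ |t| + 1 →
      |A.texL I i0 K γ s F - A.texL I i0 K γ t F
        - (s - t) * A.texL (Option I) (some i0) K γ t (F.gen i0 K γ)| ≤ C * (s - t) ^ 2 := by
    intro s hs
    have e1 := A.tendsto_texL i0 K hK h0 h1 s hF
    have e2 := A.tendsto_texL i0 K hK h0 h1 t hF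
    have e3 := A.tendsto_texL (some i0) K hK h0 h1 t hG
    have e4 := ((e1.sub e2).sub (e3.const_mul (s - t))).abs
    refine le_of_tendsto e4 (Filter.Eventually.of_forall (fun n => ?_))
    exact Sys.tex_taylor (A.S n) i0 (K n) (hK n) h0 h1 (T := |t| + 1) (by linarith) hs (hF n)
  rw [hasDerivAt_iff_isLittleO]
  have hO : (fun s : ℝ => A.texL I i0 K γ s F - A.texL I i0 K γ t F
      - (s - t) • A.texL (Option I) (some i0) K γ t (F.gen i0 K γ)) =O[nhds t]
      (fun s : ℝ => (s - t) ^ 2) := by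
    refine Asymptotics.IsBigO.of_bound C ?_
    have hev : ∀ᶠ s : ℝ in nhds t, |s| ≤ |t| + 1 := by
      have : Filter.Tendsto (fun s : ℝ => |s|) (nhds t) (nhds |t|) := (continuous_abs).tendsto t
      filter_upwards [this.eventually (gt_mem_nhds (show |t| < |t| + 1 by linarith))] with s hs
      exact hs.le
    filter_upwards [hev] with s hs
    have := key s hs
    rw [Real.norm_eq_abs, Real.norm_eq_abs, abs_of_nonneg (sq_nonneg (s - t)), smul_eq_mul]
    exact this
  refine hO.trans_isLittleO ?_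
  have h2 : (fun s : ℝ => (s - t) ^ 2) = fun s : ℝ => (s - t) * (s - t) := by
    funext s; ring
  rw [h2]
  have h3 : (fun s : ℝ => (s - t)) =o[nhds t] (fun _ => (1 : ℝ)) := by
    rw [Asymptotics.isLittleO_one_iff]
    have : Filter.Tendsto (fun s : ℝ => s - t) (nhds t) (nhds (t - t)) :=
      (continuous_id.sub continuous_const).tendsto t
    simpa using this
  have h4 := h3.mul_isBigO (Asymptotics.isBigO_refl (fun s : ℝ => s - t) (nhds t))
  simpa using h4

/-- the Ghirlanda-Guerra identity says that the generator has average zero -/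
theorem RFam.L_gen (hK : ∀ n c c', 0 ≤ K n c c' ∧ K n c c' ≤ 1) (hG : GG A K)
    {F : Obs A I} {M : ℝ} (hF : F.Bd M) :
    A.L (Option I) (F.gen i0 K (A.L (Fin 2) (K.at 0 1))) = 0 := by
  classical
  set γ := A.L (Fin 2) (K.at 0 1) with hγ
  have hKat : ∀ (J : Type) (i j : J), (K.at i j : Obs A J).Bd 1 := by
    intro J i j n ρ
    have := hK n (ρ i) (ρ j)
    unfold Ker.at
    rw [abs_of_nonneg this.1]
    exact this.2
  have hmul : ∀ {J : Type} {F G : Obs A J} {M M' : ℝ}, F.Bd M → G.Bd M' → (F * G).Bd (M * M') := by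
    intro J F G M M' hF hG n ρ
    have h1 := hF n ρ
    have h2 := hG n ρ
    have h3 : (F * G) n ρ = F n ρ * G n ρ := rfl
    rw [h3, abs_mul]
    exact mul_le_mul h1 h2 (abs_nonneg _) ((abs_nonneg _).trans h1)
  have hup : ∀ {J : Type} {F : Obs A J} {M : ℝ}, F.Bd M → (F.up).Bd M := by
    intro J F M hF n ρ
    exact hF n _
  have hgg := hG I i0 F M hF
  set G1 : Obs A (Option I) := fun n ρ => ∑ l ∈ Finset.univ.erase i0, (F * K.at i0 l).up n ρ with hG1
  set G2 : Obs A (Option I) := fun n ρ => γ * F.up n ρ with hG2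
  set G3 : Obs A (Option I) := fun n ρ => (Fintype.card I : ℝ) * (F.up * K.at (some i0) none) n ρ with hG3
  have b1 : G1.Bd (∑ _l ∈ Finset.univ.erase i0, M * 1) := by
    intro n ρ
    refine (Finset.abs_sum_le_sum_abs _ _).trans (Finset.sum_le_sum fun l _ => ?_)
    exact hup (hmul hF (hKat I i0 l)) n ρ
  have b2 : G2.Bd (|γ| * M) := by
    intro n ρ
    have : G2 n ρ = γ * F.up n ρ := rfl
    rw [this, abs_mul]
    exact mul_le_mul_of_nonneg_left (hup hF n ρ) (abs_nonneg _)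
  have b3 : G3.Bd ((Fintype.card I : ℝ) * (M * 1)) := by
    intro n ρ
    have : G3 n ρ = (Fintype.card I : ℝ) * (F.up * K.at (some i0) none) n ρ := rfl
    rw [this, abs_mul, Nat.abs_cast]
    exact mul_le_mul_of_nonneg_left (hmul (hup hF) (hKat _ (some i0) none) n ρ) (Nat.cast_nonneg _)
  have hdec : F.gen i0 K γ = (G1 + G2) - G3 := by
    funext n ρ
    have e : ((G1 + G2) - G3) n ρ = G1 n ρ + G2 n ρ - G3 n ρ := rfl
    rw [e]
    simp only [hG1, hG2, hG3, Obs.gen, Lop, Obs.up, Ker.at, Pi.mul_apply]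
    rw [← Finset.mul_sum]
    ring
  have b12 : (G1 + G2).Bd ((∑ _l ∈ Finset.univ.erase i0, M * 1) + |γ| * M) := by
    intro n ρ
    have e : (G1 + G2) n ρ = G1 n ρ + G2 n ρ := rfl
    rw [e]
    exact (abs_add_le _ _).trans (add_le_add (b1 n ρ) (b2 n ρ))
  rw [hdec, A.L_sub b12 b3, A.L_add b1 b2]
  have l1 : A.L (Option I) G1 = ∑ l ∈ Finset.univ.erase i0, A.L I (F * K.at i0 l) := by
    rw [hG1, A.L_sum (Finset.univ.erase i0) (fun l => (F * K.at i0 l).up) (M * 1)
      (fun l => hup (hmul hF (hKat I i0 l)))]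
    exact Finset.sum_congr rfl fun l _ => A.L_up (F * K.at i0 l)
  have l2 : A.L (Option I) G2 = γ * A.L I F := by
    rw [hG2, A.L_smul γ (hup hF), A.L_up F]
  have l3 : A.L (Option I) G3 = (Fintype.card I : ℝ) * A.L (Option I) (F.up * K.at (some i0) none) := by
    rw [hG3, A.L_smul _ (hmul (hup hF) (hKat _ (some i0) none))]
  rw [l1, l2, l3, hgg]
  ring

end SKC.EF
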