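import Pool.Agent.H.MP_08eaf3_pr.EF.TiltC

/-!
# Part E2: `texL t F = L F` for all `t`
Induction: on `|t - t0| ≤ 1/2` the deviation is `≤ C binom(m+k-1, k) |t-t0|^k` for every `k`.
-/

set_option autoImplicit false

open MeasureTheory Filter

namespace SKC.EF

/-- one sided version of `abs_sub_le_of_deriv` -/
theorem TiltD_onesided {f f' : ℝ → ℝ} {h B : ℝ} (k : ℕ)
    (h0 : f 0 = 0) (hd : ∀ s, HasDerivAt f (f' s) s)
    (hb : ∀ s, 0 ≤ s → s ≤ h → |f' s| ≤ B * s ^ k) (s : ℝ) (hs : 0 ≤ s) (hsh : s ≤ h) :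
    |f s| ≤ B / (k + 1) * s ^ (k + 1) := by
  have hk : (0 : ℝ) < (k : ℝ) + 1 := by positivity
  have key := image_norm_le_of_norm_deriv_right_le_deriv_boundary' (f := f) (f' := f') (a := 0) (b := h)
    (fun x _ => (hd x).continuousAt.continuousWithinAt)
    (fun x _ => (hd x).hasDerivWithinAt)
    (B := fun x => B / (k + 1) * x ^ (k + 1)) (B' := fun x => B * x ^ k)
    (by simp [h0]) (by fun_prop)
    (fun x _ => by
      have h1 : HasDerivAt (fun x : ℝ => x ^ (k + 1)) (((k + 1 : ℕ) : ℝ) * x ^ k) x := by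
        simpa using hasDerivAt_pow (k + 1) x
      have h2 := (h1.const_mul (B / ((k : ℝ) + 1))).hasDerivWithinAt (s := Set.Ici x)
      refine h2.congr_deriv ?_
      push_cast
      field_simp)
    (fun x hx => hb x hx.1 hx.2.le)
  exact key ⟨hs, hsh⟩

/-- one induction step of the estimate, abstractly: a function with small derivative is small (mean value inequality with
`∫_0^x k r^{k-1} = x^k`). -/
theorem abs_sub_le_of_deriv {g g' : ℝ → ℝ} {t0 h B : ℝ} (k : ℕ) (hB : 0 ≤ B) (hh : 0 ≤ h)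
    (hd : ∀ t, HasDerivAt g (g' t) t)
    (hb : ∀ t, |t - t0| ≤ h → |g' t| ≤ B * |t - t0| ^ k) (t : ℝ) (ht : |t - t0| ≤ h) :
    |g t - g t0| ≤ B / (k + 1) * |t - t0| ^ (k + 1) := by
  have _ := hB
  have _ := hh
  rcases le_total t0 t with hle | hle
  · have h1 : |t - t0| = t - t0 := abs_of_nonneg (sub_nonneg.2 hle)
    have key := TiltD_onesided (f := fun s => g (t0 + s) - g t0) (f' := fun s => g' (t0 + s)) (h := h) (B := B) k
      (by simp)
      (fun s => by
        have h2 := (hd (t0 + s)).comp_const_add t0 s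
        exact h2.sub_const (g t0))
      (fun s hs hsh => by
        have h3 := hb (t0 + s) (by rw [add_sub_cancel_left, abs_of_nonneg hs]; exact hsh)
        rw [add_sub_cancel_left, abs_of_nonneg hs] at h3
        exact h3) (t - t0) (sub_nonneg.2 hle) (by rw [← h1]; exact ht)
    rw [h1]
    simpa using key
  · have h1 : |t - t0| = t0 - t := by rw [abs_sub_comm]; exact abs_of_nonneg (sub_nonneg.2 hle)
    have key := TiltD_onesided (f := fun s => g (t0 - s) - g t0) (f' := fun s => -g' (t0 - s)) (h := h) (B := B) k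
      (by simp)
      (fun s => by
        have h2 := (hd (t0 - s)).comp_const_sub t0 s
        exact h2.sub_const (g t0))
      (fun s hs hsh => by
        have h4 : |t0 - s - t0| = s := by
          rw [show t0 - s - t0 = -s by ring, abs_neg, abs_of_nonneg hs]
        have h3 := hb (t0 - s) (by rw [h4]; exact hsh)
        rw [h4] at h3
        rw [abs_neg]
        exact h3) (t0 - t) (sub_nonneg.2 hle) (by rw [← h1]; exact ht)
    rw [h1]
    simpa using key

variable (A : RFam) (K : Ker A ℝ)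

/-- the average of the kernel lies in `[0,1]` -/
theorem TiltD_gamma (hK : ∀ n c c', 0 ≤ K n c c' ∧ K n c c' ≤ 1) :
    0 ≤ A.L (Fin 2) (K.at 0 1) ∧ A.L (Fin 2) (K.at 0 1) ≤ 1 := by
  have hB : (K.at (0 : Fin 2) 1).Bd 1 := by
    intro n ρ
    have h := hK n (ρ 0) (ρ 1)
    show |K n (ρ 0) (ρ 1)| ≤ 1
    rw [abs_of_nonneg h.1]
    exact h.2
  refine ⟨A.L_nonneg hB (fun n ρ => (hK n (ρ 0) (ρ 1)).1), ?_⟩
  exact (abs_le.1 (A.abs_L_le hB)).2

/-- the generator of a bounded family is bounded -/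
theorem TiltD_gen_bd (hK : ∀ n c c', 0 ≤ K n c c' ∧ K n c c' ≤ 1) {γ : ℝ} (h0 : 0 ≤ γ) (h1 : γ ≤ 1)
    {I : Type} [Fintype I] (i0 : I) {F : Obs A I} {M : ℝ} (hF : F.Bd M) :
    (F.gen i0 K γ).Bd (Fintype.card I * M) := by
  intro n ρ
  exact abs_Lop_le i0 (K n) (hK n) h0 h1 (hF n) ρ

/-- if the identity holds at `t0` (for all index types and observables) then the deviation near `t0` is
`≤ M exp(2(|t0|+1)) * 2 * binom(m+k-1,k) |t-t0|^k`. Induction on `k`, using `hasDerivAt_texL`, `L_gen`, `abs_Lop_le`,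
`abs_sub_le_of_deriv`. -/
theorem RFam.texL_dev (hK : ∀ n c c', 0 ≤ K n c c' ∧ K n c c' ≤ 1) (hG : GG A K) (t0 : ℝ)
    (h0 : ∀ (I : Type) [Fintype I] (i0 : I) (F : Obs A I) (M : ℝ), F.Bd M →
      A.texL I i0 K (A.L (Fin 2) (K.at 0 1)) t0 F = A.L I F) (k : ℕ) :
    ∀ (I : Type) [Fintype I] (i0 : I) (F : Obs A I) (M : ℝ), F.Bd M → ∀ t : ℝ, |t - t0| ≤ 1 / 2 →
      |A.texL I i0 K (A.L (Fin 2) (K.at 0 1)) t F - A.L I F|
        ≤ 2 * M * Real.exp (2 * (|t0| + 1)) * (Nat.choose (Fintype.card I + k - 1) k) * |t - t0| ^ k := by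
  obtain ⟨hγ0, hγ1⟩ := TiltD_gamma A K hK
  induction k with
  | zero =>
    intro I _ i0 F M hF t ht
    have hM : 0 ≤ M := (abs_nonneg _).trans (A.abs_L_le hF)
    have h1 := A.abs_texL_le i0 K hK hγ0 hγ1 t hF
    have h2 := A.abs_L_le hF
    have h3 : |t| ≤ |t0| + 1 := by
      have h4 : |t| ≤ |t - t0| + |t0| := by
        have h5 := abs_add_le (t - t0) t0
        rwa [sub_add_cancel] at h5
      linarith
    have h4 : Real.exp (2 * |t|) ≤ Real.exp (2 * (|t0| + 1)) := Real.exp_le_exp.2 (by linarith)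
    have h5 : (1 : ℝ) ≤ Real.exp (2 * (|t0| + 1)) := Real.one_le_exp (by positivity)
    have h6 : M * Real.exp (2 * |t|) ≤ M * Real.exp (2 * (|t0| + 1)) := mul_le_mul_of_nonneg_left h4 hM
    have h7 : M ≤ M * Real.exp (2 * (|t0| + 1)) := le_mul_of_one_le_right hM h5
    have h8 : |A.texL I i0 K (A.L (Fin 2) (K.at 0 1)) t F - A.L I F|
        ≤ |A.texL I i0 K (A.L (Fin 2) (K.at 0 1)) t F| + |A.L I F| := abs_sub _ _
    rw [Nat.choose_zero_right, pow_zero]
    push_cast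
    linarith
  | succ k ih =>
    intro I _ i0 F M hF t ht
    have hM : 0 ≤ M := (abs_nonneg _).trans (A.abs_L_le hF)
    have hgen := TiltD_gen_bd A K hK hγ0 hγ1 i0 hF
    have hL := A.L_gen i0 K hK hG hF
    have hcard : Fintype.card (Option I) + k - 1 = Fintype.card I + k := by
      rw [Fintype.card_option]; omega
    have key := abs_sub_le_of_deriv (g := fun s => A.texL I i0 K (A.L (Fin 2) (K.at 0 1)) s F)
      (g' := fun s => A.texL (Option I) (some i0) K (A.L (Fin 2) (K.at 0 1)) s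
        (F.gen i0 K (A.L (Fin 2) (K.at 0 1)))) (t0 := t0) (h := 1 / 2)
      (B := 2 * (Fintype.card I * M) * Real.exp (2 * (|t0| + 1)) * (Nat.choose (Fintype.card I + k) k)) k
      (by positivity) (by norm_num)
      (fun s => A.hasDerivAt_texL i0 K hK hγ0 hγ1 s hF)
      (fun s hs => by
        have h1 := ih (Option I) (some i0) (F.gen i0 K (A.L (Fin 2) (K.at 0 1))) _ hgen s hs
        rw [hL, sub_zero, hcard] at h1
        exact h1) t ht
    have h2 : A.texL I i0 K (A.L (Fin 2) (K.at 0 1)) t0 F = A.L I F := h0 I i0 F M hF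
    simp only [h2] at key
    refine key.trans (le_of_eq ?_)
    have h3 : Fintype.card I + (k + 1) - 1 = Fintype.card I + k := by omega
    rw [h3]
    congr 1
    have h4 : ((Nat.choose (Fintype.card I + k) (k + 1) : ℕ) : ℝ) * ((k : ℝ) + 1)
        = (Nat.choose (Fintype.card I + k) k : ℝ) * (Fintype.card I : ℝ) := by
      have h5 := Nat.choose_succ_right_eq (Fintype.card I + k) k
      rw [Nat.add_sub_cancel] at h5
      exact_mod_cast h5
    have h6 : ((k : ℝ) + 1) ≠ 0 := by positivity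
    rw [div_eq_iff h6]
    linear_combination (-(2 * M * Real.exp (2 * (|t0| + 1)))) * h4

/-- binomial coefficients grow polynomially: `binom(m+k-1,k) (1/2)^k -> 0` -/
theorem choose_mul_half_pow (m : ℕ) :
    Tendsto (fun k : ℕ => (Nat.choose (m + k - 1) k : ℝ) * (1 / 2) ^ k) atTop (nhds 0) := by
  have h1 : Tendsto (fun n : ℕ => (n : ℝ) ^ m * (1 / 2 : ℝ) ^ n) atTop (nhds 0) :=
    tendsto_pow_const_mul_const_pow_of_abs_lt_one m (by rw [abs_of_nonneg] <;> norm_num)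
  have h2 := (h1.comp (tendsto_add_atTop_nat m)).const_mul ((2 : ℝ) ^ m)
  rw [mul_zero] at h2
  refine squeeze_zero (fun k => by positivity) (fun k => ?_) h2
  have h3 : Nat.choose (m + k - 1) k ≤ (k + m) ^ m := by
    calc Nat.choose (m + k - 1) k ≤ Nat.choose (m + k) k := Nat.choose_le_choose k (by omega)
      _ = Nat.choose (k + m) m := by rw [add_comm m k, Nat.choose_symm_add]
      _ ≤ (k + m) ^ m := Nat.choose_le_pow _ _
  have h4 : (Nat.choose (m + k - 1) k : ℝ) ≤ ((k + m : ℕ) : ℝ) ^ m := by exact_mod_cast h3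
  have h5 : (2 : ℝ) ^ m * (((k + m : ℕ) : ℝ) ^ m * (1 / 2 : ℝ) ^ (k + m)) = ((k + m : ℕ) : ℝ) ^ m * (1 / 2 : ℝ) ^ k := by
    rw [pow_add]
    have h6 : (2 : ℝ) ^ m * (1 / 2 : ℝ) ^ m = 1 := by rw [← mul_pow]; norm_num
    linear_combination (((k + m : ℕ) : ℝ) ^ m * (1 / 2 : ℝ) ^ k) * h6
  show _ ≤ (2 : ℝ) ^ m * (((k + m : ℕ) : ℝ) ^ m * (1 / 2 : ℝ) ^ (k + m))
  rw [h5]
  exact mul_le_mul_of_nonneg_right h4 (by positivity)

/-- one step of length at most `1/2` -/
theorem TiltD_step (hK : ∀ n c c', 0 ≤ K n c c' ∧ K n c c' ≤ 1) (hG : GG A K) (t0 : ℝ)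
    (h0 : ∀ (I : Type) [Fintype I] (i0 : I) (F : Obs A I) (M : ℝ), F.Bd M →
      A.texL I i0 K (A.L (Fin 2) (K.at 0 1)) t0 F = A.L I F) (t : ℝ) (ht : |t - t0| ≤ 1 / 2) :
    ∀ (I : Type) [Fintype I] (i0 : I) (F : Obs A I) (M : ℝ), F.Bd M →
      A.texL I i0 K (A.L (Fin 2) (K.at 0 1)) t F = A.L I F := by
  intro I _ i0 F M hF
  have hM : 0 ≤ M := (abs_nonneg _).trans (A.abs_L_le hF)
  have h1 : ∀ k : ℕ, |A.texL I i0 K (A.L (Fin 2) (K.at 0 1)) t F - A.L I F|
      ≤ 2 * M * Real.exp (2 * (|t0| + 1)) * ((Nat.choose (Fintype.card I + k - 1) k : ℝ) * (1 / 2) ^ k) := by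
    intro k
    refine (RFam.texL_dev A K hK hG t0 h0 k I i0 F M hF t ht).trans ?_
    rw [mul_assoc (2 * M * Real.exp (2 * (|t0| + 1)))]
    refine mul_le_mul_of_nonneg_left ?_ (by positivity)
    refine mul_le_mul_of_nonneg_left ?_ (by positivity)
    exact pow_le_pow_left₀ (abs_nonneg _) ht k
  have h2 := (choose_mul_half_pow (Fintype.card I)).const_mul (2 * M * Real.exp (2 * (|t0| + 1)))
  rw [mul_zero] at h2
  have h3 : |A.texL I i0 K (A.L (Fin 2) (K.at 0 1)) t F - A.L I F| ≤ 0 := ge_of_tendsto' h2 h1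
  exact sub_eq_zero.1 (abs_eq_zero.1 (le_antisymm h3 (abs_nonneg _)))

/-- E2 (invariance) -/
theorem RFam.texL_eq (hK : ∀ n c c', 0 ≤ K n c c' ∧ K n c c' ≤ 1) (hG : GG A K) {t : ℝ} (ht : 0 ≤ t)
    {I : Type} [Fintype I] (i0 : I) {F : Obs A I} {M : ℝ} (hF : F.Bd M) :
    A.texL I i0 K (A.L (Fin 2) (K.at 0 1)) t F = A.L I F := by
  have hn : ∀ n : ℕ, ∀ (I : Type) [Fintype I] (i0 : I) (F : Obs A I) (M : ℝ), F.Bd M →
      A.texL I i0 K (A.L (Fin 2) (K.at 0 1)) ((n : ℝ) / 2) F = A.L I F := by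
    intro n
    induction n with
    | zero =>
      intro I _ i0 F M _
      have h := A.texL_zero i0 K (A.L (Fin 2) (K.at 0 1)) F
      simpa using h
    | succ n ih =>
      refine TiltD_step A K hK hG ((n : ℝ) / 2) ih _ ?_
      have h : ((n + 1 : ℕ) : ℝ) / 2 - (n : ℝ) / 2 = 1 / 2 := by push_cast; ring
      rw [h, abs_of_nonneg (by norm_num)]
  have hf0 : ((⌊2 * t⌋₊ : ℕ) : ℝ) ≤ 2 * t := Nat.floor_le (by positivity)
  have hf1 : 2 * t < (⌊2 * t⌋₊ : ℝ) + 1 := Nat.lt_floor_add_one _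
  refine TiltD_step A K hK hG ((⌊2 * t⌋₊ : ℝ) / 2) (hn _) t ?_ I i0 F M hF
  rw [abs_of_nonneg (by linarith)]
  linarith

end SKC.EF
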