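import Pool.Agent.H.MP_08eaf3_pr.EF.LimB

/-!
# The tilted averages (part E2): definitions
`tex t f = E < f exp(t (∑_{l ≠ i0} K(ρ_{i0}, ρ_l) + γ)) / <exp(t K(ρ_{i0}, ·))>^m >`, `m = |I|`, and its generator `Lop`.
-/

set_option autoImplicit false

open MeasureTheory Filter

namespace SKC.EF

/-- `Z t ω c = ∑_{c'} w(c') exp(t K(c,c'))` -/
noncomputable def Sys.Z (S : Sys) (K : S.C → S.C → ℝ) (t : ℝ) (ω : S.Ω) (c : S.C) : ℝ :=
  ∑ c', S.w ω c' * Real.exp (t * K c c')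

open Classical in
/-- the tilted integrand -/
noncomputable def Sys.tint (S : Sys) {I : Type} [Fintype I] (i0 : I) (K : S.C → S.C → ℝ) (γ t : ℝ)
    (f : (I → S.C) → ℝ) (ω : S.Ω) (ρ : I → S.C) : ℝ :=
  f ρ * Real.exp (t * ((∑ l ∈ Finset.univ.erase i0, K (ρ i0) (ρ l)) + γ)) / (S.Z K t ω (ρ i0)) ^ (Fintype.card I)

/-- the tilted average -/
noncomputable def Sys.tex (S : Sys) (I : Type) [Fintype I] (i0 : I) (K : S.C → S.C → ℝ) (γ t : ℝ)
    (f : (I → S.C) → ℝ) : ℝ := S.ex I (S.tint i0 K γ t f)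

open Classical in
/-- the generator -/
noncomputable def Lop {C : Type} {I : Type} [Fintype I] (i0 : I) (K : C → C → ℝ) (γ : ℝ)
    (f : (I → C) → ℝ) : (Option I → C) → ℝ := fun ρ =>
  f (fun i => ρ (some i)) * ((∑ l ∈ Finset.univ.erase i0, K (ρ (some i0)) (ρ (some l))) + γ
    - Fintype.card I * K (ρ (some i0)) (ρ none))

/-- limit of the tilted averages -/
noncomputable def RFam.texL (A : RFam) (I : Type) [Fintype I] (i0 : I) (K : Ker A ℝ) (γ t : ℝ) (F : Obs A I) : ℝ :=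
  limUnder (A.U : Filter A.ι) (fun n => (A.S n).tex I i0 (K n) γ t (F n))

/-- the generator for families -/
noncomputable def Obs.gen {A : RFam} {I : Type} [Fintype I] (i0 : I) (K : Ker A ℝ) (γ : ℝ) (F : Obs A I) :
    Obs A (Option I) := fun n => Lop i0 (K n) γ (F n)

end SKC.EF
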